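import Pool.Agent.VIR.Defs

/-!
# Slopes of virtual curves: definitions

`al q t` is the Frobenius eigenvalue `√q e^(it)`, `SL q m j t` says that its slopes are at least `j / m`
(`α^m / q^j` is an algebraic integer), `SS t` that it is supersingular (`t` a rational multiple of `π`),
`FP q g θ P` is the product formula for the Frobenius polynomial, `Fj` the kernel of Fejér, `Ne2 θ S` and
`Eq2 θ S` are the pairs in `S` with different and with equal cosines.
-/

set_option autoImplicit false

namespace Pool.Agent.VIS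

open Polynomial Pool.Agent.VIR

/-- the Frobenius eigenvalue `√q e^(it)` -/
noncomputable def al (q : ℕ) (t : ℝ) : ℂ := ((√(q : ℝ) : ℝ) : ℂ) * Complex.exp (t * Complex.I)

/-- the slopes are at least `j / m` -/
def SL (q m j : ℕ) (t : ℝ) : Prop := IsIntegral ℤ (al q t ^ m / (q : ℂ) ^ j)

/-- a supersingular angle -/
def SS (t : ℝ) : Prop := ∃ n : ℕ, 1 ≤ n ∧ Real.cos (n * t) = 1

/-- the product formula -/
def FP (q g : ℕ) (θ : Fin g → ℝ) (P : ℤ[X]) : Prop :=
  P.map (Int.castRingHom ℝ) = ∏ i, (X ^ 2 - C (2 * √(q : ℝ) * Real.cos (θ i)) * X + C (q : ℝ))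

/-- the kernel of Fejér -/
noncomputable def Fj (M : ℕ) (t : ℝ) : ℝ :=
  1 + ∑ k ∈ Finset.Icc 1 M, (1 - (k : ℝ) / (M + 1)) * (2 * Real.cos (k * t))

open Classical in
/-- the pairs in `S` with different cosines -/
noncomputable def Ne2 {g : ℕ} (θ : Fin g → ℝ) (S : Finset (Fin g)) : Finset (Fin g × Fin g) :=
  (S ×ˢ S).filter (fun p => Real.cos (θ p.1) ≠ Real.cos (θ p.2))

open Classical in
/-- the pairs in `S` with equal cosines -/
noncomputable def Eq2 {g : ℕ} (θ : Fin g → ℝ) (S : Finset (Fin g)) : Finset (Fin g × Fin g) :=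
  (S ×ˢ S).filter (fun p => Real.cos (θ p.1) = Real.cos (θ p.2))

/-- the term of index `n` of the kernel series -/
noncomputable def kt (r a b : ℝ) (n : ℕ) : ℝ :=
  2 * r ^ n / n * (Real.cos (n * a) * Real.cos (n * b))

end Pool.Agent.VIS
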