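import Pool.Agent.VIS.St3

/-!
# Module CSW: Cauchy and Schwarz with geometric series
-/

set_option autoImplicit false

namespace Pool.Agent.VIS

open Polynomial Finset Pool.Agent.VIR

/-- The sum of `k u^k`. -/
theorem CSW.geo (u : ℝ) (h0 : 0 ≤ u) (h1 : u < 1) (L : ℕ) :
    ∑ k ∈ Icc 1 L, (k : ℝ) * u ^ k ≤ u / (1 - u) ^ 2 := by
  have h := hasSum_coe_mul_geometric_of_norm_lt_one (𝕜 := ℝ) (r := u)
    (by rw [Real.norm_of_nonneg h0]; exact h1)
  exact sum_le_hasSum _ (fun k _ => by positivity) h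

theorem t_CSW : S_CSW := by
  intro ρ r E L c hρ hr hρr hE
  set u : ℝ := ρ ^ 2 / r with hu
  have hu0 : 0 < u := by positivity
  have hu1 : u < 1 := by rw [hu, div_lt_one hr]; exact hρr
  have h1u : 0 < 1 - u := by linarith
  have hE0 : 0 ≤ E := le_trans (Finset.sum_nonneg fun k _ => by positivity) hE
  have hcs : (∑ k ∈ Icc 1 L, ρ ^ k * |c k|) ^ 2 ≤
      (∑ k ∈ Icc 1 L, 2 * r ^ k / k * c k ^ 2) * ∑ k ∈ Icc 1 L, (k : ℝ) * u ^ k / 2 := by
    refine Finset.sum_sq_le_sum_mul_sum_of_sq_eq_mul (Icc 1 L) ?_ ?_ ?_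
    · intro k _
      positivity
    · intro k _
      positivity
    · intro k hk
      have hk1 : 1 ≤ k := (Finset.mem_Icc.1 hk).1
      have hk0 : (k : ℝ) ≠ 0 := by positivity
      have hru : r ^ k * u ^ k = (ρ ^ k) ^ 2 := by
        rw [← mul_pow, hu, mul_div_cancel₀ _ hr.ne', ← pow_mul, ← pow_mul, mul_comm]
      rw [mul_pow, sq_abs, ← hru]
      field_simp
  have hg : ∑ k ∈ Icc 1 L, (k : ℝ) * u ^ k / 2 ≤ u / (1 - u) ^ 2 / 2 := by
    rw [← Finset.sum_div]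
    have := CSW.geo u hu0.le hu1 L
    linarith
  have hS : 0 ≤ ∑ k ∈ Icc 1 L, ρ ^ k * |c k| := Finset.sum_nonneg fun k _ => by positivity
  have h2 : (2 * ∑ k ∈ Icc 1 L, ρ ^ k * |c k|) ^ 2 ≤
      (√(2 * E) * (√u / (1 - u))) ^ 2 := by
    have h3 : (√(2 * E) * (√u / (1 - u))) ^ 2 = 2 * E * (u / (1 - u) ^ 2) := by
      rw [mul_pow, div_pow, Real.sq_sqrt (by positivity), Real.sq_sqrt hu0.le]
    rw [h3, mul_pow]
    have h4 : (∑ k ∈ Icc 1 L, 2 * r ^ k / k * c k ^ 2) * ∑ k ∈ Icc 1 L, (k : ℝ) * u ^ k / 2 ≤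
        E * (u / (1 - u) ^ 2 / 2) :=
      mul_le_mul hE hg (Finset.sum_nonneg fun k _ => by positivity) hE0
    nlinarith [hcs.trans h4]
  have h5 : 0 ≤ √(2 * E) * (√u / (1 - u)) := by positivity
  exact (pow_le_pow_iff_left₀ (by positivity) h5 two_ne_zero).1 h2

end Pool.Agent.VIS
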