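import Pool.Agent.VIS.P_ENS

/-!
# The energy inequality
-/

set_option autoImplicit false

namespace Pool.Agent.VIS

open Polynomial Finset Pool.Agent.VIR

theorem t_ENE (hINT : S_INT) (hMUL : S_MUL) (hKER : S_KER) : S_ENE := by
  intro q m j r η hq hm hj hr0 hr1 hη
  obtain ⟨g₀, hg₀⟩ := t_ENS hINT hMUL hKER q m j r η hq hm hj hr0 hr1 hη
  refine ⟨g₀, fun g hg θ P B S hFP hC hS N => ?_⟩
  refine (hg₀ g hg θ P B S hFP hC hS N).trans ?_
  have hm0 : (0 : ℝ) < m := by exact_mod_cast hm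
  have hcard : (S.card : ℝ) ≤ g := by
    have := Finset.card_le_univ S
    rw [Fintype.card_fin] at this
    exact_mod_cast this
  have hsq : (S.card : ℝ) ^ 2 ≤ (g : ℝ) ^ 2 := pow_le_pow_left₀ (by positivity) hcard 2
  have hl0 : 0 ≤ Real.log (√(q : ℝ)) := by
    apply Real.log_nonneg
    rw [Real.one_le_sqrt]
    exact_mod_cast (by omega : 1 ≤ q)
  have hc : 0 ≤ (1 - 2 * (j : ℝ) / m) := by
    have : 2 * (j : ℝ) / m ≤ 1 := by
      rw [div_le_one hm0]
      exact_mod_cast hj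
    linarith
  have hlog : 0 ≤ Real.log (2 / (1 + r)) := by
    apply Real.log_nonneg
    rw [le_div_iff₀ (by linarith)]
    linarith
  have := mul_le_mul_of_nonneg_left hsq
    (by positivity : 0 ≤ (1 - 2 * (j : ℝ) / m) * Real.log (√(q : ℝ)) + 2 * Real.log (2 / (1 + r)))
  linarith

end Pool.Agent.VIS
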