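import Pool.Agent.VIS.St3

/-!
# Energy inequality with the size of `S` (`S_ENS`)
-/

set_option autoImplicit false

namespace Pool.Agent.VIS

open Polynomial Finset Pool.Agent.VIR

namespace ENS

/-- the sum of the kernel over a part of the pairs -/
theorem energy_le {g : ℕ} (θ : Fin g → ℝ) (S : Finset (Fin g)) (r : ℝ) (hr : 0 < r)
    (hs : ∀ a b, Summable (kt r a b)) (N : ℕ) :
    ∑ n ∈ Icc 1 N, 2 * r ^ n / n * (∑ i ∈ S, Real.cos (n * θ i)) ^ 2 ≤
      ∑ p ∈ S ×ˢ S, ∑' n, kt r (θ p.1) (θ p.2) n := by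
  have h1 : ∀ n : ℕ, ∑ p ∈ S ×ˢ S, kt r (θ p.1) (θ p.2) n =
      2 * r ^ n / n * (∑ i ∈ S, Real.cos (n * θ i)) ^ 2 := by
    intro n
    unfold kt
    rw [← mul_sum, sum_product, sq, sum_mul_sum]
  have h2 : Summable fun n => ∑ p ∈ S ×ˢ S, kt r (θ p.1) (θ p.2) n :=
    summable_sum fun p _ => hs _ _
  rw [← Summable.tsum_finsetSum fun p _ => hs _ _]
  have h3 := h2.sum_le_tsum (Icc 1 N) fun n _ => by
    rw [h1]
    positivity
  simpa only [h1] using h3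

theorem card_le {g : ℕ} (θ : Fin g → ℝ) (S : Finset (Fin g)) :
    ((Ne2 θ S).card : ℝ) ≤ (S.card : ℝ) ^ 2 := by
  have h : (Ne2 θ S).card ≤ (S ×ˢ S).card := card_le_card (filter_subset _ _)
  rw [card_product] at h
  rw [sq]
  exact_mod_cast h

theorem eq_le {g : ℕ} (θ : Fin g → ℝ) (S : Finset (Fin g)) :
    ((Eq2 θ S).card : ℝ) ≤ ((Eq2 θ univ).card : ℝ) := by
  have h : (Eq2 θ S).card ≤ (Eq2 θ univ).card :=
    card_le_card (filter_subset_filter _ (product_subset_product (subset_univ _) (subset_univ _)))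
  exact_mod_cast h

theorem split {g : ℕ} (θ : Fin g → ℝ) (S : Finset (Fin g)) (F : Fin g × Fin g → ℝ) :
    ∑ p ∈ S ×ˢ S, F p = ∑ p ∈ Ne2 θ S, F p + ∑ p ∈ Eq2 θ S, F p := by
  classical
  have h := sum_filter_add_sum_filter_not (S ×ˢ S)
    (fun p => Real.cos (θ p.1) ≠ Real.cos (θ p.2)) F
  rw [← h]
  congr 1
  unfold Eq2
  refine sum_congr ?_ fun _ _ => rfl
  ext p
  simp

/-- logarithm of `INT` -/
theorem log_int (hINT : S_INT) {q g m j : ℕ} {θ : Fin g → ℝ} {P : ℤ[X]} {S : Finset (Fin g)}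
    (hq : 2 ≤ q) (hm : 1 ≤ m) (hP : FP q g θ P) (hS : ∀ i, i ∈ S ↔ SL q m j (θ i)) :
    - ((Ne2 θ S).card * ((1 - 2 * j / m) * Real.log (√(q : ℝ)))) ≤
      ∑ p ∈ Ne2 θ S, Real.log |2 * Real.cos (θ p.1) - 2 * Real.cos (θ p.2)| := by
  have hq0 : (0 : ℝ) < q := by
    have : 0 < q := by omega
    exact_mod_cast this
  have hs0 : 0 < √(q : ℝ) := Real.sqrt_pos.2 hq0
  have hm0 : (0 : ℝ) < m := by
    have : 0 < m := by omega
    exact_mod_cast this
  have h1 := hINT q g m j θ P S (by omega) hm hP hS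
  have hne : ∀ p ∈ Ne2 θ S, 2 * Real.cos (θ p.1) - 2 * Real.cos (θ p.2) ≠ 0 := by
    intro p hp h
    have h2 := (mem_filter.1 hp).2
    exact h2 (by linarith)
  have h2 := Real.log_le_log (by positivity) h1
  rw [Real.log_pow, Real.log_prod (fun p hp => by
    have := hne p hp
    have h3 : 2 * √(q : ℝ) * Real.cos (θ p.1) - 2 * √(q : ℝ) * Real.cos (θ p.2) ≠ 0 := by
      have h4 : 2 * √(q : ℝ) * Real.cos (θ p.1) - 2 * √(q : ℝ) * Real.cos (θ p.2) =
        √(q : ℝ) * (2 * Real.cos (θ p.1) - 2 * Real.cos (θ p.2)) := by ring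
      rw [h4]
      exact mul_ne_zero hs0.ne' this
    exact pow_ne_zero _ h3)] at h2
  have h3 : ∀ p ∈ Ne2 θ S, Real.log ((2 * √(q : ℝ) * Real.cos (θ p.1) -
      2 * √(q : ℝ) * Real.cos (θ p.2)) ^ (2 * m)) = 2 * m * (Real.log (√(q : ℝ)) +
        Real.log |2 * Real.cos (θ p.1) - 2 * Real.cos (θ p.2)|) := by
    intro p hp
    have h4 : 2 * √(q : ℝ) * Real.cos (θ p.1) - 2 * √(q : ℝ) * Real.cos (θ p.2) =
        √(q : ℝ) * (2 * Real.cos (θ p.1) - 2 * Real.cos (θ p.2)) := by ring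
    rw [h4, Real.log_pow, Real.log_mul hs0.ne' (hne p hp), Real.log_abs]
    push_cast
    ring
  rw [sum_congr rfl h3, ← mul_sum, sum_add_distrib, sum_const, nsmul_eq_mul] at h2
  have h5 : Real.log (q : ℝ) = 2 * Real.log (√(q : ℝ)) := by
    rw [Real.log_sqrt hq0.le]
    ring
  rw [h5] at h2
  push_cast at h2
  set D := ∑ p ∈ Ne2 θ S, Real.log |2 * Real.cos (θ p.1) - 2 * Real.cos (θ p.2)| with hD
  set K := ((Ne2 θ S).card : ℝ) with hK
  set l := Real.log (√(q : ℝ)) with hl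
  have h6 : 2 * (j : ℝ) * K * l ≤ m * (K * l + D) := by nlinarith
  have h7 : (j : ℝ) / m * (2 * K * l) ≤ K * l + D := by
    rw [div_mul_eq_mul_div, div_le_iff₀ hm0]
    nlinarith
  have h8 : - (K * ((1 - 2 * j / m) * l)) = (j : ℝ) / m * (2 * K * l) - K * l := by
    field_simp
    ring
  rw [h8]
  linarith

end ENS

open ENS

/-- MODULE ENS -/
theorem t_ENS (hINT : S_INT) (hMUL : S_MUL) (hKER : S_KER) : S_ENS := by
  intro q m j r η hq hm hj hr0 hr1 hη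
  have hlog : Real.log (1 - r) < 0 := Real.log_neg (by linarith) (by linarith)
  have hc0 : 0 < - (2 * Real.log (1 - r)) := by linarith
  obtain ⟨g₀, hg₀⟩ := hMUL q (η / - (2 * Real.log (1 - r))) hq (div_pos hη hc0)
  refine ⟨g₀, fun g hg θ P B S hP hB hS N => ?_⟩
  have hm0 : (0 : ℝ) < m := by
    have : 0 < m := by omega
    exact_mod_cast this
  have hT : 0 ≤ (1 - 2 * (j : ℝ) / m) * Real.log (√(q : ℝ)) + 2 * Real.log (2 / (1 + r)) := by
    have h1 : 0 ≤ Real.log (√(q : ℝ)) := Real.log_nonneg (one_lt_sqrt hq).le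
    have h2 : 0 ≤ Real.log (2 / (1 + r)) := by
      apply Real.log_nonneg
      rw [le_div_iff₀ (by linarith)]
      linarith
    have h3 : 2 * (j : ℝ) / m ≤ 1 := by
      rw [div_le_one hm0]
      exact_mod_cast hj
    have h4 : 0 ≤ (1 - 2 * (j : ℝ) / m) * Real.log (√(q : ℝ)) :=
      mul_nonneg (by linarith) h1
    linarith
  refine (energy_le θ S r hr0 (fun a b => (hKER r a b hr0 hr1).1) N).trans ?_
  rw [split θ S]
  have hE : ∑ p ∈ Eq2 θ S, ∑' n, kt r (θ p.1) (θ p.2) n ≤ η * (g : ℝ) ^ 2 := by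
    have h1 : ∑ p ∈ Eq2 θ S, ∑' n, kt r (θ p.1) (θ p.2) n ≤
        ∑ p ∈ Eq2 θ S, - (2 * Real.log (1 - r)) := by
      refine sum_le_sum fun p _ => ?_
      have := (hKER r (θ p.1) (θ p.2) hr0 hr1).2.1
      linarith
    rw [sum_const, nsmul_eq_mul] at h1
    have h2 := hg₀ g hg θ B hB
    have h3 := eq_le θ S
    have h4 : ((Eq2 θ S).card : ℝ) * - (2 * Real.log (1 - r)) ≤
        η / - (2 * Real.log (1 - r)) * (g : ℝ) ^ 2 * - (2 * Real.log (1 - r)) :=
      mul_le_mul_of_nonneg_right (h3.trans h2) hc0.le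
    have h5 : η / - (2 * Real.log (1 - r)) * (g : ℝ) ^ 2 * - (2 * Real.log (1 - r)) =
        η * (g : ℝ) ^ 2 := by
      have := hlog.ne
      field_simp
    linarith
  have hN : ∑ p ∈ Ne2 θ S, ∑' n, kt r (θ p.1) (θ p.2) n ≤
      ((1 - 2 * j / m) * Real.log (√(q : ℝ)) + 2 * Real.log (2 / (1 + r))) *
        (S.card : ℝ) ^ 2 := by
    have h1 : ∑ p ∈ Ne2 θ S, ∑' n, kt r (θ p.1) (θ p.2) n ≤
        ∑ p ∈ Ne2 θ S, (2 * Real.log (2 / (1 + r)) -
          Real.log |2 * Real.cos (θ p.1) - 2 * Real.cos (θ p.2)|) := by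
      refine sum_le_sum fun p hp => ?_
      have := (hKER r (θ p.1) (θ p.2) hr0 hr1).2.2 (mem_filter.1 hp).2
      linarith
    rw [sum_sub_distrib, sum_const, nsmul_eq_mul] at h1
    have h2 := log_int hINT hq hm hP hS
    have h3 := mul_le_mul_of_nonneg_left (card_le θ S) hT
    have h4 : ((1 - 2 * (j : ℝ) / m) * Real.log (√(q : ℝ)) + 2 * Real.log (2 / (1 + r))) *
        ((Ne2 θ S).card : ℝ) = (Ne2 θ S).card * ((1 - 2 * j / m) * Real.log (√(q : ℝ))) +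
          (Ne2 θ S).card * (2 * Real.log (2 / (1 + r))) := by ring
    linarith
  linarith

end Pool.Agent.VIS
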