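import Pool.Agent.VIS.St
import Pool.Agent.VIR.P_UPP

/-!
# Slopes of virtual curves: module FEJ, the explicit formula with part of the eigenvalues kept
-/

set_option autoImplicit false

namespace Pool.Agent.VIS

open Polynomial Finset Pool.Agent.VIR

open UPP in
theorem t_FEJ : S_FEJ := by
  intro q g R M θ B S hq hM hC
  have hs1 : 1 < √(q : ℝ) := one_lt_sqrt hq
  have hs0 : 0 < √(q : ℝ) := by linarith
  obtain ⟨s, hs⟩ : ∃ s, s = √(q : ℝ) := ⟨_, rfl⟩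
  rw [← hs] at hs1 hs0 ⊢
  have hM0 : (0 : ℝ) < M + 1 := by positivity
  have hc0 : ∀ m ∈ Icc 1 M, 0 ≤ 1 - (m : ℝ) / (M + 1) := by
    intro m hm
    rw [Finset.mem_Icc] at hm
    have h1 : (m : ℝ) ≤ M := by exact_mod_cast hm.2
    rw [sub_nonneg, div_le_one hM0]
    linarith
  have hc1 : ∀ m : ℕ, 1 - (m : ℝ) / (M + 1) ≤ 1 := by
    intro m
    have : 0 ≤ (m : ℝ) / (M + 1) := by positivity
    linarith
  -- the left side as a sum over `m`
  have hL : ∑ r ∈ Icc 1 R, (r : ℝ) * B r * ∑ k ∈ Icc 1 (M / r),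
      (1 - (k : ℝ) * r / (M + 1)) / s ^ (k * r) =
      ∑ m ∈ Icc 1 M, (1 - (m : ℝ) / (M + 1)) / s ^ m *
        ∑ r ∈ (Icc 1 R).filter (fun r => r ∣ m), (r : ℝ) * B r := by
    have h1 : ∀ r ∈ Icc 1 R, (r : ℝ) * B r * ∑ k ∈ Icc 1 (M / r),
        (1 - (k : ℝ) * r / (M + 1)) / s ^ (k * r) =
        ∑ m ∈ Icc 1 M, if r ∣ m then (1 - (m : ℝ) / (M + 1)) / s ^ m * ((r : ℝ) * B r) else 0 := by
      intro r hr
      rw [Finset.mem_Icc] at hr
      have h2 := sum_mult (fun m => (1 - (m : ℝ) / (M + 1)) / s ^ m) M r hr.1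
      simp only [Nat.cast_mul] at h2
      rw [h2, Finset.mul_sum, Finset.sum_filter]
      refine Finset.sum_congr rfl fun m _ => ?_
      split_ifs
      · ring
      · rfl
    rw [Finset.sum_congr rfl h1, Finset.sum_comm]
    refine Finset.sum_congr rfl fun m _ => ?_
    rw [Finset.mul_sum, Finset.sum_filter]
  rw [hL]
  -- comparison with the sum over all divisors
  have hN : ∀ m ∈ Icc 1 M, ∑ r ∈ (Icc 1 R).filter (fun r => r ∣ m), (r : ℝ) * B r ≤
      (q : ℝ) ^ m + 1 - ∑ i, 2 * s ^ m * Real.cos (m * θ i) := by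
    intro m hm
    rw [Finset.mem_Icc] at hm
    have h1 := hC m hm.1
    rw [← hs] at h1
    rw [← h1]
    push_cast
    refine Finset.sum_le_sum_of_subset_of_nonneg ?_ fun _ _ _ => by positivity
    intro r hr
    rw [Finset.mem_filter] at hr
    exact Nat.mem_divisors.2 ⟨hr.2, by omega⟩
  have hq2 : (q : ℝ) = s ^ 2 := by
    rw [hs, Real.sq_sqrt (by positivity)]
  -- the explicit formula
  have hF : ∑ i ∈ S, Fj M (θ i) ≤ (g : ℝ) + ∑ m ∈ Icc 1 M, (1 - (m : ℝ) / (M + 1)) *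
      (∑ i, 2 * Real.cos (m * θ i)) := by
    have h1 : (g : ℝ) + ∑ m ∈ Icc 1 M, (1 - (m : ℝ) / (M + 1)) *
        (∑ i, 2 * Real.cos (m * θ i)) =
        ∑ i, (1 + ∑ m ∈ Icc 1 M, (1 - (m : ℝ) / (M + 1)) * (2 * Real.cos (m * θ i))) := by
      rw [Finset.sum_add_distrib, Finset.sum_const, Finset.card_univ, Fintype.card_fin,
        nsmul_eq_mul, mul_one, Finset.sum_comm]
      congr 1
      exact Finset.sum_congr rfl fun m _ => by rw [Finset.mul_sum]
    rw [h1]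
    exact Finset.sum_le_sum_of_subset_of_nonneg (Finset.subset_univ S)
      fun i _ _ => fejer_nonneg (θ i) M
  have hterm : ∀ m ∈ Icc 1 M, (1 - (m : ℝ) / (M + 1)) / s ^ m *
      ∑ r ∈ (Icc 1 R).filter (fun r => r ∣ m), (r : ℝ) * B r ≤
      (s ^ m + s⁻¹ ^ m) - (1 - (m : ℝ) / (M + 1)) * (∑ i, 2 * Real.cos (m * θ i)) := by
    intro m hm
    have hp : 0 < s ^ m := pow_pos hs0 m
    have h0 := hc0 m hm
    have e1 : ((q : ℝ) ^ m + 1 - ∑ i, 2 * s ^ m * Real.cos (m * θ i)) / s ^ m =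
        (s ^ m + s⁻¹ ^ m) - ∑ i, 2 * Real.cos (m * θ i) := by
      have e2 : ∑ i, 2 * s ^ m * Real.cos (m * θ i) = s ^ m * ∑ i, 2 * Real.cos (m * θ i) := by
        rw [Finset.mul_sum]
        exact Finset.sum_congr rfl fun i _ => by ring
      rw [e2, hq2, inv_pow, ← pow_mul, mul_comm 2 m, pow_mul]
      field_simp
    calc (1 - (m : ℝ) / (M + 1)) / s ^ m *
          ∑ r ∈ (Icc 1 R).filter (fun r => r ∣ m), (r : ℝ) * B r
        ≤ (1 - (m : ℝ) / (M + 1)) / s ^ m *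
          ((q : ℝ) ^ m + 1 - ∑ i, 2 * s ^ m * Real.cos (m * θ i)) :=
          mul_le_mul_of_nonneg_left (hN m hm) (by positivity)
      _ = (1 - (m : ℝ) / (M + 1)) *
          (((q : ℝ) ^ m + 1 - ∑ i, 2 * s ^ m * Real.cos (m * θ i)) / s ^ m) := by ring
      _ = (1 - (m : ℝ) / (M + 1)) * (s ^ m + s⁻¹ ^ m) -
          (1 - (m : ℝ) / (M + 1)) * (∑ i, 2 * Real.cos (m * θ i)) := by rw [e1]; ring
      _ ≤ (s ^ m + s⁻¹ ^ m) - (1 - (m : ℝ) / (M + 1)) * (∑ i, 2 * Real.cos (m * θ i)) := by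
          have h1 : (1 - (m : ℝ) / (M + 1)) * (s ^ m + s⁻¹ ^ m) ≤ 1 * (s ^ m + s⁻¹ ^ m) :=
            mul_le_mul_of_nonneg_right (hc1 m) (by positivity)
          linarith
  have hsum := Finset.sum_le_sum hterm
  rw [Finset.sum_sub_distrib] at hsum
  linarith

end Pool.Agent.VIS
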