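import Pool.Agent.VIS.St

/-!
# Module INT: the product of the differences
-/

set_option autoImplicit false

namespace Pool.Agent.VIS

open Polynomial Finset Pool.Agent.VIR

namespace INT

theorem al_mul (q : ℕ) (t : ℝ) : al q t * al q (-t) = q := by
  unfold al
  have h1 : (((√(q : ℝ) : ℝ) : ℂ)) * (((√(q : ℝ) : ℝ) : ℂ)) = q := by
    rw [← Complex.ofReal_mul, Real.mul_self_sqrt (Nat.cast_nonneg q)]
    simp
  have h2 : Complex.exp (t * Complex.I) * Complex.exp (((-t : ℝ) : ℂ) * Complex.I) = 1 := by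
    rw [← Complex.exp_add]
    push_cast
    rw [neg_mul, add_neg_cancel, Complex.exp_zero]
  calc _ = (((√(q : ℝ) : ℝ) : ℂ)) * (((√(q : ℝ) : ℝ) : ℂ)) *
      (Complex.exp (t * Complex.I) * Complex.exp (((-t : ℝ) : ℂ) * Complex.I)) := by ring
    _ = q := by rw [h1, h2, mul_one]

theorem al_add (q : ℕ) (t : ℝ) : al q t + al q (-t) = ((2 * √(q : ℝ) * Real.cos t : ℝ) : ℂ) := by
  unfold al
  have h := Complex.two_cos (t : ℂ)
  push_cast
  rw [← mul_add, ← h]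
  ring

theorem al_ne {q : ℕ} (hq : 1 ≤ q) (t : ℝ) : al q t ≠ 0 := by
  intro h
  have h1 := al_mul q t
  rw [h, zero_mul] at h1
  have : (q : ℂ) ≠ 0 := by
    exact_mod_cast (by omega : q ≠ 0)
  exact this h1.symm

theorem al_div {q : ℕ} (hq : 1 ≤ q) (t : ℝ) : (q : ℂ) / al q t = al q (-t) := by
  rw [div_eq_iff (al_ne hq t), mul_comm, al_mul]

theorem al_star (q : ℕ) (t : ℝ) : (starRingEnd ℂ) (al q t) = al q (-t) := by
  unfold al
  rw [map_mul, Complex.conj_ofReal, ← Complex.exp_conj, map_mul, Complex.conj_ofReal,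
    Complex.conj_I]
  push_cast
  congr 2
  ring

theorem SL_neg' {q m j : ℕ} {t : ℝ} (h : SL q m j t) : SL q m j (-t) := by
  unfold SL at h ⊢
  have h1 := h.map ((starRingEnd ℂ).toIntAlgHom)
  have h2 : (starRingEnd ℂ).toIntAlgHom (al q t ^ m / (q : ℂ) ^ j) = al q (-t) ^ m / (q : ℂ) ^ j := by
    change (starRingEnd ℂ) (al q t ^ m / (q : ℂ) ^ j) = _
    rw [map_div₀, map_pow, map_pow, al_star, map_natCast]
  rwa [h2] at h1

theorem SL_neg {q m j : ℕ} {t : ℝ} : SL q m j (-t) ↔ SL q m j t :=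
  ⟨fun h => by simpa using SL_neg' h, SL_neg'⟩

/-- the signed angle -/
def sg {g : ℕ} (θ : Fin g → ℝ) (t : Fin g × Bool) : ℝ := if t.2 then -θ t.1 else θ t.1

theorem cos_sg {g : ℕ} (θ : Fin g → ℝ) (t : Fin g × Bool) :
    Real.cos (sg θ t) = Real.cos (θ t.1) := by
  unfold sg
  split_ifs
  · exact Real.cos_neg _
  · rfl

theorem SL_sg {q m j g : ℕ} (θ : Fin g → ℝ) (t : Fin g × Bool) :
    SL q m j (sg θ t) ↔ SL q m j (θ t.1) := by
  unfold sg
  split_ifs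
  · exact SL_neg
  · rfl

theorem prodform {q g : ℕ} {θ : Fin g → ℝ} {P : ℤ[X]} (h : FP q g θ P) :
    P.map (Int.castRingHom ℂ) = ∏ t : Fin g × Bool, (X - C (al q (sg θ t))) := by
  have h1 : P.map (Int.castRingHom ℂ) = (P.map (Int.castRingHom ℝ)).map (algebraMap ℝ ℂ) := by
    rw [Polynomial.map_map]
    congr 1
  unfold FP at h
  rw [h1, h, Polynomial.map_prod, Fintype.prod_prod_type]
  refine prod_congr rfl fun i _ => ?_
  rw [Fintype.prod_bool]
  have h2 : sg θ (i, true) = -θ i := rfl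
  have h3 : sg θ (i, false) = θ i := rfl
  rw [h2, h3]
  have h4 := al_add q (θ i)
  have h5 := al_mul q (θ i)
  have h6 : (C (al q (-θ i)) : ℂ[X]) * C (al q (θ i)) = C (q : ℂ) := by
    rw [← C_mul, mul_comm, h5]
  have h7 : (C (al q (-θ i)) : ℂ[X]) + C (al q (θ i)) = C (((2 * √(q : ℝ) * Real.cos (θ i) : ℝ) : ℂ)) := by
    rw [← C_add, add_comm, h4]
  have h8 : ((X ^ 2 - C (2 * √(q : ℝ) * Real.cos (θ i)) * X + C (q : ℝ) : ℝ[X]).map
      (algebraMap ℝ ℂ)) = X ^ 2 - C (((2 * √(q : ℝ) * Real.cos (θ i) : ℝ) : ℂ)) * X + C (q : ℂ) := by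
    simp
  rw [h8, ← h6, ← h7]
  ring

/-- the real factors -/
noncomputable def rf (q m j : ℕ) {g : ℕ} (θ : Fin g → ℝ) (S : Finset (Fin g)) (i i' : Fin g) : ℝ :=
  open Classical in
  if i ∈ S ∧ i' ∈ S ∧ Real.cos (θ i) ≠ Real.cos (θ i') then
    (2 * √(q : ℝ) * Real.cos (θ i) - 2 * √(q : ℝ) * Real.cos (θ i')) ^ (2 * m) / (q : ℝ) ^ (2 * j)
  else 1

theorem sqrt_pos' {q : ℕ} (hq : 1 ≤ q) : 0 < √(q : ℝ) :=
  Real.sqrt_pos.2 (by exact_mod_cast hq)

theorem diff_ne {q g : ℕ} (hq : 1 ≤ q) {θ : Fin g → ℝ} {i i' : Fin g} :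
    2 * √(q : ℝ) * Real.cos (θ i) ≠ 2 * √(q : ℝ) * Real.cos (θ i') ↔
      Real.cos (θ i) ≠ Real.cos (θ i') := by
  have h := sqrt_pos' hq
  rw [not_iff_not]
  constructor
  · intro h1
    exact mul_left_cancel₀ (by positivity) h1
  · intro h1
    rw [h1]

theorem rf_pos {q m j g : ℕ} (hq : 1 ≤ q) (θ : Fin g → ℝ) (S : Finset (Fin g)) (i i' : Fin g) :
    0 < rf q m j θ S i i' := by
  unfold rf
  split_ifs with h
  · have h1 : (2 * √(q : ℝ) * Real.cos (θ i) - 2 * √(q : ℝ) * Real.cos (θ i')) ≠ 0 :=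
      sub_ne_zero.2 ((diff_ne hq).2 h.2.2)
    have h2 : (0 : ℝ) < q := by exact_mod_cast hq
    exact div_pos ((even_two_mul m).pow_pos h1) (by positivity)
  · exact one_pos

theorem prod_rf {q m j g : ℕ} (θ : Fin g → ℝ) (S : Finset (Fin g)) :
    ∏ i, ∏ i', rf q m j θ S i i' =
      (∏ p ∈ Ne2 θ S, (2 * √(q : ℝ) * Real.cos (θ p.1) -
        2 * √(q : ℝ) * Real.cos (θ p.2)) ^ (2 * m)) / (q : ℝ) ^ (2 * j * (Ne2 θ S).card) := by
  classical
  have h1 : Ne2 θ S = univ.filter (fun p : Fin g × Fin g =>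
      p.1 ∈ S ∧ p.2 ∈ S ∧ Real.cos (θ p.1) ≠ Real.cos (θ p.2)) := by
    ext p
    unfold Ne2
    simp only [mem_filter, mem_product, mem_univ, true_and]
    tauto
  have h2 : ∏ i, ∏ i', rf q m j θ S i i' = ∏ p ∈ Ne2 θ S,
      ((2 * √(q : ℝ) * Real.cos (θ p.1) - 2 * √(q : ℝ) * Real.cos (θ p.2)) ^ (2 * m) /
        (q : ℝ) ^ (2 * j)) := by
    rw [h1, prod_filter, ← Fintype.prod_prod_type']
    refine prod_congr rfl fun p _ => ?_
    unfold rf
    congr 1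
  rw [h2, prod_div_distrib, prod_const, ← pow_mul]

theorem prod_four {g : ℕ} (f : Fin g → Fin g → ℝ) :
    ∏ t : Fin g × Bool, ∏ t' : Fin g × Bool, f t.1 t'.1 = (∏ i, ∏ i', f i i') ^ 4 := by
  have h1 : ∀ h : Fin g → ℝ, ∏ t : Fin g × Bool, h t.1 = (∏ i, h i) ^ 2 := by
    intro h
    rw [Fintype.prod_prod_type]
    have : ∀ i, ∏ b : Bool, h (i, b).1 = h i ^ 2 := by
      intro i
      rw [Fintype.prod_bool, sq]
    rw [prod_congr rfl fun i _ => this i, prod_pow]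
  rw [h1 fun i => ∏ t' : Fin g × Bool, f i t'.1]
  rw [prod_congr rfl fun i _ => h1 fun i' => f i i', prod_pow]
  ring

end INT

open INT in
theorem t_INT (hGAL : S_GAL) : S_INT := by
  classical
  intro q g m j θ P S hq hm hFP hS
  obtain ⟨L, _, _, ι, b, hfd, hgal, hb, hσ⟩ := hGAL (Fin g × Bool) (fun t => al q (sg θ t)) P
    (prodform hFP)
  have hι : Function.Injective ι := ι.injective
  have hqC : (q : ℂ) ≠ 0 := by
    exact_mod_cast (by omega : q ≠ 0)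
  have hqR : (0 : ℝ) < q := by exact_mod_cast hq
  -- integrality in `L` and in `ℂ`
  have hint : ∀ x : L, IsIntegral ℤ (ι x) ↔ IsIntegral ℤ x := fun x =>
    isIntegral_algHom_iff (ι.restrictScalars ℤ) hι
  obtain ⟨Q, hQ⟩ : ∃ Q : Fin g × Bool → Prop, Q = fun t => IsIntegral ℤ (b t ^ m / (q : L) ^ j) :=
    ⟨_, rfl⟩
  have hQ1 : ∀ t, Q t ↔ t.1 ∈ S := by
    intro t
    rw [hQ, hS, ← SL_sg]
    change IsIntegral ℤ (b t ^ m / (q : L) ^ j) ↔ IsIntegral ℤ (al q (sg θ t) ^ m / (q : ℂ) ^ j)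
    rw [← hint, map_div₀, map_pow, map_pow, hb, map_natCast]
  obtain ⟨v, hv⟩ : ∃ v : Fin g × Bool → L, v = fun t => b t + q / b t := ⟨_, rfl⟩
  have hv1 : ∀ t, ι (v t) = ((2 * √(q : ℝ) * Real.cos (θ t.1) : ℝ) : ℂ) := by
    intro t
    rw [hv, ← cos_sg]
    change ι (b t + q / b t) = _
    rw [map_add, map_div₀, hb, map_natCast, al_div hq, al_add]
  have hv2 : ∀ t t', v t ≠ v t' ↔ Real.cos (θ t.1) ≠ Real.cos (θ t'.1) := by
    intro t t'
    rw [← diff_ne hq, not_iff_not, ← hι.eq_iff, hv1, hv1, Complex.ofReal_inj]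
  obtain ⟨E, hE⟩ : ∃ E : L, E = ∏ t, ∏ t', (if Q t ∧ Q t' ∧ v t ≠ v t' then
    (v t - v t') ^ (2 * m) / (q : L) ^ (2 * j) else 1) := ⟨_, rfl⟩
  -- the value of `E`
  have hE1 : ι E = ((∏ t : Fin g × Bool, ∏ t' : Fin g × Bool,
      rf q m j θ S t.1 t'.1 : ℝ) : ℂ) := by
    rw [hE, map_prod, Complex.ofReal_prod]
    refine prod_congr rfl fun t _ => ?_
    rw [map_prod, Complex.ofReal_prod]
    refine prod_congr rfl fun t' _ => ?_
    unfold rf
    by_cases h : t.1 ∈ S ∧ t'.1 ∈ S ∧ Real.cos (θ t.1) ≠ Real.cos (θ t'.1)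
    · rw [if_pos h, if_pos (by rw [hQ1, hQ1, hv2]; exact h), map_div₀, map_pow, map_sub, hv1, hv1,
        map_pow, map_natCast]
      push_cast
      rfl
    · rw [if_neg h, if_neg (by rw [hQ1, hQ1, hv2]; exact h), map_one, Complex.ofReal_one]
  -- `E` is fixed
  have hfix : ∀ σ : L ≃ₐ[ℚ] L, σ E = E := by
    intro σ
    obtain ⟨π, hπ⟩ := hσ σ
    have k1 : ∀ t, σ (v t) = v (π t) := by
      intro t
      rw [hv]
      change σ (b t + q / b t) = b (π t) + q / b (π t)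
      rw [map_add, map_div₀, hπ, map_natCast]
    have k2 : ∀ t, Q (π t) ↔ Q t := by
      intro t
      rw [hQ]
      change IsIntegral ℤ (b (π t) ^ m / (q : L) ^ j) ↔ IsIntegral ℤ (b t ^ m / (q : L) ^ j)
      have k3 : b (π t) ^ m / (q : L) ^ j = σ (b t ^ m / (q : L) ^ j) := by
        rw [map_div₀, map_pow, map_pow, hπ, map_natCast]
      rw [k3]
      exact isIntegral_algHom_iff (σ.toAlgHom.restrictScalars ℤ) σ.injective
    have k3 : ∀ t t', v (π t) ≠ v (π t') ↔ v t ≠ v t' := by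
      intro t t'
      rw [← k1, ← k1, not_iff_not, σ.injective.eq_iff]
    rw [hE, map_prod]
    rw [← Equiv.prod_comp π (fun t => ∏ t', (if Q t ∧ Q t' ∧ v t ≠ v t' then
      (v t - v t') ^ (2 * m) / (q : L) ^ (2 * j) else 1))]
    refine prod_congr rfl fun t _ => ?_
    rw [map_prod]
    rw [← Equiv.prod_comp π (fun t' => (if Q (π t) ∧ Q t' ∧ v (π t) ≠ v t' then
      (v (π t) - v t') ^ (2 * m) / (q : L) ^ (2 * j) else 1))]
    refine prod_congr rfl fun t' _ => ?_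
    by_cases h : Q t ∧ Q t' ∧ v t ≠ v t'
    · rw [if_pos h, if_pos (by rw [k2, k2, k3]; exact h), map_div₀, map_pow, map_sub, k1, k1,
        map_pow, map_natCast]
    · rw [if_neg h, if_neg (by rw [k2, k2, k3]; exact h), map_one]
  have hbot : E ∈ (⊥ : IntermediateField ℚ L) := (IsGalois.mem_bot_iff_fixed E).2 hfix
  rw [IntermediateField.mem_bot] at hbot
  obtain ⟨r, hr⟩ := hbot
  -- `E` is integral
  obtain ⟨w, hw0, hwm⟩ : ∃ w : ℝ, 0 < w ∧ w ^ m = (q : ℝ) ^ j := by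
    refine ⟨((q : ℝ) ^ j) ^ ((m : ℝ)⁻¹), by positivity, ?_⟩
    exact Real.rpow_inv_natCast_pow (by positivity) (by omega)
  have hwC : (w : ℂ) ≠ 0 := by exact_mod_cast hw0.ne'
  have hwm' : (w : ℂ) ^ m = (q : ℂ) ^ j := by exact_mod_cast hwm
  have hal : ∀ t : ℝ, SL q m j t → IsIntegral ℤ (al q t / w) := by
    intro t ht
    refine IsIntegral.of_pow (n := m) (by omega) ?_
    rw [div_pow, hwm']
    exact ht
  have hvw : ∀ t, t.1 ∈ S → IsIntegral ℤ (ι (v t) / w) := by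
    intro t ht
    rw [hS] at ht
    rw [hv1, ← al_add, add_div]
    exact (hal _ ht).add (hal _ (SL_neg' ht))
  have hEint : IsIntegral ℤ (ι E) := by
    rw [hE, map_prod]
    refine IsIntegral.prod _ fun t _ => ?_
    rw [map_prod]
    refine IsIntegral.prod _ fun t' _ => ?_
    by_cases h : Q t ∧ Q t' ∧ v t ≠ v t'
    · rw [if_pos h]
      have k1 : ι ((v t - v t') ^ (2 * m) / (q : L) ^ (2 * j)) =
          (ι (v t) / w - ι (v t') / w) ^ (2 * m) := by
        rw [← sub_div, div_pow, map_div₀, map_pow, map_sub, map_pow, map_natCast]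
        congr 1
        rw [pow_mul' (w : ℂ), pow_mul' (q : ℂ), hwm']
      rw [k1]
      exact ((hvw t ((hQ1 t).1 h.1)).sub (hvw t' ((hQ1 t').1 h.2.1))).pow _
    · rw [if_neg h, map_one]
      exact isIntegral_one
  have hrint : IsIntegral ℤ r := by
    rw [hint, ← hr] at hEint
    exact (isIntegral_algebraMap_iff (algebraMap ℚ L).injective).1 hEint
  obtain ⟨n, hn⟩ := IsIntegrallyClosed.isIntegral_iff.1 hrint
  -- the value is a positive integer
  obtain ⟨Y, hY⟩ : ∃ Y : ℝ, Y = ∏ i, ∏ i', rf q m j θ S i i' := ⟨_, rfl⟩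
  have hY0 : 0 < Y := by
    rw [hY]
    exact prod_pos fun i _ => prod_pos fun i' _ => rf_pos hq θ S i i'
  have hYn : ((Y ^ 4 : ℝ) : ℂ) = ((n : ℝ) : ℂ) := by
    rw [hY, ← prod_four, ← hE1, ← hr, ← hn]
    simp
  have hYn' : Y ^ 4 = (n : ℝ) := Complex.ofReal_injective hYn
  have hn0 : (0 : ℝ) < n := by
    rw [← hYn']
    positivity
  have hn1 : (1 : ℝ) ≤ n := by
    have : 0 < n := by exact_mod_cast hn0
    exact_mod_cast this
  have hY1 : 1 ≤ Y := by
    by_contra hc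
    push Not at hc
    have := pow_lt_one₀ hY0.le hc (n := 4) (by norm_num)
    linarith
  rw [hY, prod_rf, one_le_div (by positivity)] at hY1
  exact hY1

end Pool.Agent.VIS
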