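import Pool.Agent.VIS.St

set_option autoImplicit false

/-!
# Module KER: the logarithmic kernel
-/

namespace Pool.Agent.VIS

namespace KER

/-- `|1 - r e^(iψ)|²` -/
noncomputable def nq (r ψ : ℝ) : ℝ := 1 - 2 * r * Real.cos ψ + r ^ 2

lemma nq_ge {r : ℝ} (hr : 0 < r) (ψ : ℝ) : (1 - r) ^ 2 ≤ nq r ψ := by
  unfold nq
  nlinarith [Real.cos_le_one ψ]

lemma norm_sq_eq (r ψ : ℝ) :
    ‖1 - (r : ℂ) * Complex.exp (ψ * Complex.I)‖ ^ 2 = nq r ψ := by
  rw [← Complex.normSq_eq_norm_sq, Complex.normSq_apply]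
  have hre : (1 - (r : ℂ) * Complex.exp (ψ * Complex.I)).re = 1 - r * Real.cos ψ := by
    rw [Complex.sub_re, Complex.one_re, Complex.re_ofReal_mul, Complex.exp_ofReal_mul_I_re]
  have him : (1 - (r : ℂ) * Complex.exp (ψ * Complex.I)).im = - (r * Real.sin ψ) := by
    rw [Complex.sub_im, Complex.one_im, Complex.im_ofReal_mul, Complex.exp_ofReal_mul_I_im,
      zero_sub]
  rw [hre, him, nq]
  linear_combination r ^ 2 * Real.sin_sq_add_cos_sq ψ

lemma hasSum_cos {r : ℝ} (hr : 0 < r) (hr1 : r < 1) (ψ : ℝ) :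
    HasSum (fun n : ℕ => r ^ n / n * Real.cos (n * ψ)) (-(1 / 2 * Real.log (nq r ψ))) := by
  set z : ℂ := (r : ℂ) * Complex.exp (ψ * Complex.I) with hz
  have hzn : ‖z‖ < 1 := by
    rw [hz, norm_mul, Complex.norm_exp_ofReal_mul_I, mul_one, Complex.norm_real,
      Real.norm_of_nonneg hr.le]
    exact hr1
  have h := Complex.reCLM.hasSum (Complex.hasSum_taylorSeries_neg_log hzn)
  have hval : Complex.reCLM (-Complex.log (1 - z)) = -(1 / 2 * Real.log (nq r ψ)) := by
    rw [Complex.reCLM_apply, Complex.neg_re, Complex.log_re, ← norm_sq_eq, Real.log_pow]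
    push_cast
    ring
  rw [hval] at h
  refine h.congr_fun ?_
  intro n
  have h1 : z ^ n / n = ((r ^ n / n : ℝ) : ℂ) * Complex.exp ((n * ψ : ℝ) * Complex.I) := by
    rw [hz, mul_pow, ← Complex.exp_nat_mul]
    push_cast
    have : (n : ℂ) * (ψ * Complex.I) = n * ψ * Complex.I := by ring
    rw [this]
    ring
  show r ^ n / n * Real.cos (n * ψ) = Complex.reCLM (z ^ n / n)
  rw [h1, Complex.reCLM_apply, Complex.re_ofReal_mul, Complex.exp_ofReal_mul_I_re]

lemma kt_eq (r a b : ℝ) (n : ℕ) :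
    kt r a b n = r ^ n / n * Real.cos (n * (a - b)) + r ^ n / n * Real.cos (n * (a + b)) := by
  unfold kt
  rw [mul_sub, mul_add, Real.cos_sub, Real.cos_add]
  ring

lemma hasSum_kt {r : ℝ} (hr : 0 < r) (hr1 : r < 1) (a b : ℝ) :
    HasSum (kt r a b)
      (-(1 / 2 * Real.log (nq r (a - b))) + -(1 / 2 * Real.log (nq r (a + b)))) := by
  have h := (hasSum_cos hr hr1 (a - b)).add (hasSum_cos hr hr1 (a + b))
  have e : kt r a b = fun n : ℕ => r ^ n / n * Real.cos (n * (a - b))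
      + r ^ n / n * Real.cos (n * (a + b)) := funext fun n => kt_eq r a b n
  rw [e]
  exact h

lemma log_nq {r : ℝ} (hr : 0 < r) (hr1 : r < 1) (ψ : ℝ) :
    2 * Real.log (1 - r) ≤ Real.log (nq r ψ) := by
  have h1 : (0 : ℝ) < (1 - r) ^ 2 := by
    have : 0 < 1 - r := by linarith
    positivity
  have h2 := Real.log_le_log h1 (nq_ge hr ψ)
  rwa [Real.log_pow, Nat.cast_ofNat] at h2

lemma key {r : ℝ} (hr : 0 < r) (ψ : ℝ) : 2 - 2 * Real.cos ψ ≤ nq r ψ * (2 / (1 + r)) ^ 2 := by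
  have h1 : 0 < (1 + r) ^ 2 := by positivity
  rw [div_pow, ← mul_div_assoc, le_div_iff₀ h1, nq]
  nlinarith [mul_nonneg (sq_nonneg (1 - r)) (by linarith [Real.neg_one_le_cos ψ] :
    0 ≤ 1 + Real.cos ψ)]

lemma log_key {r : ℝ} (hr : 0 < r) (hr1 : r < 1) {ψ : ℝ} (h : 0 < 2 - 2 * Real.cos ψ) :
    Real.log (2 - 2 * Real.cos ψ) ≤ Real.log (nq r ψ) + 2 * Real.log (2 / (1 + r)) := by
  have h1 : 0 < nq r ψ := lt_of_lt_of_le (by
    have : 0 < 1 - r := by linarith
    positivity) (nq_ge hr ψ)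
  have h2 : 0 < 2 / (1 + r) := by positivity
  have h3 := Real.log_le_log h (key hr ψ)
  rwa [Real.log_mul h1.ne' (by positivity), Real.log_pow, Nat.cast_ofNat] at h3

end KER

open KER in
theorem t_KER : S_KER := by
  intro r a b hr hr1
  have h := hasSum_kt hr hr1 a b
  refine ⟨h.summable, ?_, ?_⟩
  · rw [h.tsum_eq]
    have h1 := log_nq hr hr1 (a - b)
    have h2 := log_nq hr hr1 (a + b)
    linarith
  · intro hab
    rw [h.tsum_eq]
    have hne : 2 * Real.cos a - 2 * Real.cos b ≠ 0 := by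
      intro h0
      exact hab (by linarith)
    have hsq : (2 * Real.cos a - 2 * Real.cos b) ^ 2
        = (2 - 2 * Real.cos (a - b)) * (2 - 2 * Real.cos (a + b)) := by
      rw [Real.cos_sub, Real.cos_add]
      have ha := Real.sin_sq_add_cos_sq a
      have hb := Real.sin_sq_add_cos_sq b
      have ha' : Real.sin a ^ 2 = 1 - Real.cos a ^ 2 := by linarith
      have hb' : Real.sin b ^ 2 = 1 - Real.cos b ^ 2 := by linarith
      have e : (2 - 2 * (Real.cos a * Real.cos b + Real.sin a * Real.sin b))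
          * (2 - 2 * (Real.cos a * Real.cos b - Real.sin a * Real.sin b))
          = (2 - 2 * (Real.cos a * Real.cos b)) ^ 2 - 4 * (Real.sin a ^ 2 * Real.sin b ^ 2) := by
        ring
      rw [e, ha', hb']
      ring
    have hpos : 0 < (2 - 2 * Real.cos (a - b)) * (2 - 2 * Real.cos (a + b)) := by
      rw [← hsq]
      positivity
    have h1 : 0 < 2 - 2 * Real.cos (a - b) := by
      have h0 : 0 ≤ 2 - 2 * Real.cos (a - b) := by linarith [Real.cos_le_one (a - b)]
      refine lt_of_le_of_ne h0 fun h2 => ?_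
      rw [← h2, zero_mul] at hpos
      exact lt_irrefl _ hpos
    have h2 : 0 < 2 - 2 * Real.cos (a + b) := by
      have h0 : 0 ≤ 2 - 2 * Real.cos (a + b) := by linarith [Real.cos_le_one (a + b)]
      refine lt_of_le_of_ne h0 fun h2 => ?_
      rw [← h2, mul_zero] at hpos
      exact lt_irrefl _ hpos
    have h3 : 2 * Real.log |2 * Real.cos a - 2 * Real.cos b|
        = Real.log (2 - 2 * Real.cos (a - b)) + Real.log (2 - 2 * Real.cos (a + b)) := by
      rw [← Real.log_mul h1.ne' h2.ne', ← hsq, ← sq_abs, Real.log_pow, Nat.cast_ofNat]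
    have h4 := log_key hr hr1 h1
    have h5 := log_key hr hr1 h2
    linarith

end Pool.Agent.VIS
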