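import Pool.Agent.VIS.St3

/-!
# The part of large slopes: proof of `S_LSL`
-/

set_option autoImplicit false

namespace Pool.Agent.VIS

open Polynomial Finset Pool.Agent.VIR

namespace LSL

/-- finite sums of the geometric series come close to the limit -/
theorem geo_close (x c : ℝ) (hx : 0 < x) (hx1 : x < 1) (hc : c < x / (1 - x)) :
    ∃ K : ℕ, c < ∑ k ∈ Icc 1 K, x ^ k := by
  have h1 : ∀ K : ℕ, ∑ k ∈ Icc 1 K, x ^ k = x * ((1 - x ^ K) / (1 - x)) := by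
    intro K
    have hne : (1 : ℝ) - x ≠ 0 := by linarith
    induction K with
    | zero => simp
    | succ K ih =>
      rw [Finset.sum_Icc_succ_top (by omega), ih]
      field_simp
      ring
  have h2 : Filter.Tendsto (fun K : ℕ => x * ((1 - x ^ K) / (1 - x))) Filter.atTop
      (nhds (x * ((1 - 0) / (1 - x)))) := by
    apply Filter.Tendsto.const_mul
    apply Filter.Tendsto.div_const
    exact (tendsto_pow_atTop_nhds_zero_of_lt_one hx.le hx1).const_sub 1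
  have h3 : c < x * ((1 - 0) / (1 - x)) := by
    rw [sub_zero, mul_one_div]
    exact hc
  obtain ⟨K, hK⟩ := (h2.eventually (lt_mem_nhds h3)).exists
  exact ⟨K, by rw [h1]; exact hK⟩

/-- the sums over the multiples of `r` -/
theorem ev_r (hWTL : S_WTL) (ρ s c : ℝ) (r : ℕ) (hρ : 0 < ρ) (hρ1 : ρ < 1) (hs : 1 < s) (hr : 1 ≤ r)
    (hc : c < ρ ^ r / (s ^ r - ρ ^ r)) :
    ∀ᶠ L : ℕ in Filter.atTop, c ≤ ∑ k ∈ Icc 1 (L / r), wt ρ L (k * r) / s ^ (k * r) := by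
  have hs0 : 0 < s := by linarith
  have hsr : 0 < s ^ r := by positivity
  have hρr : 0 < ρ ^ r := by positivity
  have hlt : ρ ^ r < s ^ r := pow_lt_pow_left₀ (by linarith) hρ.le (by omega)
  have hx : 0 < ρ ^ r / s ^ r := by positivity
  have hx1 : ρ ^ r / s ^ r < 1 := (div_lt_one hsr).2 hlt
  have heq : ρ ^ r / s ^ r / (1 - ρ ^ r / s ^ r) = ρ ^ r / (s ^ r - ρ ^ r) := by
    have h1 : s ^ r - ρ ^ r ≠ 0 := by linarith
    have h2 : 1 - ρ ^ r / s ^ r ≠ 0 := by linarith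
    field_simp
  obtain ⟨K, hK⟩ := geo_close (ρ ^ r / s ^ r) c hx hx1 (by rw [heq]; exact hc)
  have hT : Filter.Tendsto (fun L : ℕ => ∑ k ∈ Icc 1 K, wt ρ L (k * r) / s ^ (k * r)) Filter.atTop
      (nhds (∑ k ∈ Icc 1 K, ρ ^ (k * r) / s ^ (k * r))) := by
    apply tendsto_finsetSum
    intro k _
    exact ((hWTL ρ hρ hρ1 (k * r)).2).div_const _
  have hK' : c < ∑ k ∈ Icc 1 K, ρ ^ (k * r) / s ^ (k * r) := by
    refine lt_of_lt_of_eq hK (Finset.sum_congr rfl fun k _ => ?_)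
    rw [div_pow, ← pow_mul, ← pow_mul, mul_comm r k]
  filter_upwards [hT.eventually (lt_mem_nhds hK'), Filter.eventually_ge_atTop (K * r)] with L hL hL2
  refine hL.le.trans (Finset.sum_le_sum_of_subset_of_nonneg ?_ ?_)
  · apply Finset.Icc_subset_Icc_right
    exact (Nat.le_div_iff_mul_le (by omega)).2 hL2
  · intro k _ _
    have := ((hWTL ρ hρ hρ1 (k * r)).1 L).1
    positivity

/-- the choice of `L` -/
theorem ch_L (hWTL : S_WTL) (ρ s e : ℝ) (R : ℕ) (hρ : 0 < ρ) (hρ1 : ρ < 1) (hs : 1 < s) (he : 0 < e) :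
    ∃ L : ℕ, 1 - e ≤ wt ρ L 0 ∧ ∀ r ∈ Icc 1 R,
      (1 - e) * (ρ ^ r / (s ^ r - ρ ^ r)) ≤ ∑ k ∈ Icc 1 (L / r), wt ρ L (k * r) / s ^ (k * r) := by
  have h1 : ∀ᶠ L : ℕ in Filter.atTop, 1 - e ≤ wt ρ L 0 := by
    have h := (hWTL ρ hρ hρ1 0).2
    rw [pow_zero] at h
    filter_upwards [h.eventually (lt_mem_nhds (show 1 - e < 1 by linarith))] with L hL
    exact hL.le
  have h2 : ∀ᶠ L : ℕ in Filter.atTop, ∀ r ∈ Icc 1 R,
      (1 - e) * (ρ ^ r / (s ^ r - ρ ^ r)) ≤ ∑ k ∈ Icc 1 (L / r), wt ρ L (k * r) / s ^ (k * r) := by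
    rw [Filter.eventually_all_finset]
    intro r hr
    have hr1 : 1 ≤ r := (Finset.mem_Icc.1 hr).1
    apply ev_r hWTL ρ s _ r hρ hρ1 hs hr1
    have hlt : ρ ^ r < s ^ r := pow_lt_pow_left₀ (by linarith) hρ.le (by omega)
    have hpos : 0 < ρ ^ r / (s ^ r - ρ ^ r) := div_pos (by positivity) (by linarith)
    nlinarith
  obtain ⟨L, hL⟩ := (h1.and h2).exists
  exact ⟨L, hL.1, hL.2⟩

/-- the choice of `r₁` -/
theorem ch_r (ρ τ d : ℝ) (hρ : 0 < ρ) (hρ1 : ρ < 1) (hd : 0 < d) :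
    ∃ r : ℝ, 0 < r ∧ r < 1 ∧ ρ ^ 2 < r ∧
      √(τ + 4 * Real.log (2 / (1 + r))) * (√(ρ ^ 2 / r) / (1 - ρ ^ 2 / r)) ≤ ρ * √τ / (1 - ρ ^ 2) + d := by
  have hρ2 : ρ ^ 2 < 1 := by nlinarith
  have hcont : ContinuousAt (fun r : ℝ =>
      √(τ + 4 * Real.log (2 / (1 + r))) * (√(ρ ^ 2 / r) / (1 - ρ ^ 2 / r))) 1 := by
    have h1 : ContinuousAt (fun r : ℝ => ρ ^ 2 / r) 1 :=
      continuousAt_const.div continuousAt_id one_ne_zero
    have h2 : ContinuousAt (fun r : ℝ => 2 / (1 + r)) 1 :=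
      continuousAt_const.div (continuousAt_const.add continuousAt_id) (by norm_num)
    apply ContinuousAt.mul
    · apply Real.continuous_sqrt.continuousAt.comp
      apply continuousAt_const.add
      apply continuousAt_const.mul
      exact h2.log (by norm_num)
    · apply ContinuousAt.div
      · exact Real.continuous_sqrt.continuousAt.comp h1
      · exact continuousAt_const.sub h1
      · simp only [div_one]
        linarith
  have hval : √(τ + 4 * Real.log (2 / (1 + 1))) * (√(ρ ^ 2 / 1) / (1 - ρ ^ 2 / 1)) =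
      ρ * √τ / (1 - ρ ^ 2) := by
    rw [show (2 : ℝ) / (1 + 1) = 1 by norm_num, Real.log_one, mul_zero, add_zero, div_one,
      Real.sqrt_sq hρ.le]
    ring
  have hev : ∀ᶠ r : ℝ in nhds 1,
      √(τ + 4 * Real.log (2 / (1 + r))) * (√(ρ ^ 2 / r) / (1 - ρ ^ 2 / r)) <
        ρ * √τ / (1 - ρ ^ 2) + d := by
    have := hcont.tendsto.eventually (gt_mem_nhds (show
      √(τ + 4 * Real.log (2 / (1 + 1))) * (√(ρ ^ 2 / 1) / (1 - ρ ^ 2 / 1)) <
        ρ * √τ / (1 - ρ ^ 2) + d by rw [hval]; linarith))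
    exact this
  have hev2 : ∀ᶠ r : ℝ in nhds 1, ρ ^ 2 < r := lt_mem_nhds hρ2
  have hev3 : ∀ᶠ r : ℝ in nhdsWithin 1 (Set.Iio 1), r < 1 := by
    filter_upwards [self_mem_nhdsWithin] with r hr
    exact hr
  obtain ⟨r, ⟨h1, h2⟩, h3⟩ :=
    (((hev.and hev2).filter_mono (nhdsWithin_le_nhds (s := Set.Iio (1 : ℝ)))).and hev3).exists
  exact ⟨r, lt_trans (by positivity) h2, h3, h2, h1.le⟩

end LSL

open LSL in
theorem t_LSL (hENS : S_ENS) (hWTL : S_WTL) (hMXF : S_MXF) (hCSW : S_CSW) : S_LSL := by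
  intro q m j R ρ ε hq hm hj hρ hρ1 hε
  have hs : 1 < √(q : ℝ) := one_lt_sqrt hq
  set s : ℝ := √(q : ℝ) with hsdef
  set τ : ℝ := (1 - 2 * j / m) * Real.log q with hτ
  have hρ2 : ρ ^ 2 < 1 := by nlinarith
  have hm0 : (0 : ℝ) < m := by exact_mod_cast (show 0 < m by omega)
  have hlogq : 0 ≤ Real.log q := Real.log_natCast_nonneg q
  have hcoef : 0 ≤ 1 - 2 * (j : ℝ) / m := by
    rw [sub_nonneg, div_le_one hm0]
    exact_mod_cast hj
  have hτ0 : 0 ≤ τ := mul_nonneg hcoef hlogq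
  set D : ℝ := ρ * √τ / (1 - ρ ^ 2) with hD
  have hD0 : 0 ≤ D := div_nonneg (by positivity) (by linarith)
  -- the small number
  obtain ⟨e, he0, he2, heD⟩ : ∃ e : ℝ, 0 < e ∧ e ≤ 1 / 2 ∧ e * (11 + 2 * D) ≤ ε := by
    refine ⟨min (1 / 2) (ε / (11 + 2 * D)), lt_min (by norm_num) (by positivity), min_le_left _ _, ?_⟩
    have h1 : min (1 / 2) (ε / (11 + 2 * D)) ≤ ε / (11 + 2 * D) := min_le_right _ _
    have h2 : 0 < 11 + 2 * D := by positivity
    calc min (1 / 2) (ε / (11 + 2 * D)) * (11 + 2 * D) ≤ ε / (11 + 2 * D) * (11 + 2 * D) :=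
          mul_le_mul_of_nonneg_right h1 h2.le
      _ = ε := by field_simp
  obtain ⟨L, hL0, hLr⟩ := ch_L hWTL ρ s e R hρ hρ1 hs he0
  obtain ⟨r, hr0, hr1, hρr, hr⟩ := ch_r ρ τ (e / 2) hρ hρ1 (by linarith)
  set w : ℝ := √(ρ ^ 2 / r) / (1 - ρ ^ 2 / r) with hw
  have hw0 : 0 ≤ w := by
    apply div_nonneg (Real.sqrt_nonneg _)
    rw [sub_nonneg, div_le_one hr0]
    exact hρr.le
  -- the number `η`
  obtain ⟨η, hη0, hηw⟩ : ∃ η : ℝ, 0 < η ∧ √(2 * η) * w ≤ e / 2 := by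
    refine ⟨(e / (2 * (w + 1))) ^ 2 / 2, by positivity, ?_⟩
    rw [show 2 * ((e / (2 * (w + 1))) ^ 2 / 2) = (e / (2 * (w + 1))) ^ 2 by ring,
      Real.sqrt_sq (by positivity), div_mul_eq_mul_div, div_le_div_iff₀ (by positivity) (by norm_num)]
    nlinarith
  obtain ⟨g₁, hg₁⟩ := hENS q m j r η hq hm hj hr0 hr1 hη0
  set K : ℝ := ∑ m ∈ Icc 1 L, (s ^ m + s⁻¹ ^ m) with hK
  obtain ⟨g₂, hg₂⟩ := exists_nat_ge (K / e)
  refine ⟨max g₁ g₂, fun g hg θ P B S hFP hCount hS => ?_⟩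
  have hgg1 : g₁ ≤ g := (le_max_left _ _).trans hg
  have hgg2 : g₂ ≤ g := (le_max_right _ _).trans hg
  have hens := hg₁ g hgg1 θ P B S hFP hCount hS L
  have hcsw := hCSW ρ r _ L (fun k => ∑ i ∈ S, Real.cos (k * θ i)) hρ hr0 hρr hens
  have hmxf := hMXF q g R L ρ θ B S hq hρ hρ1 hCount
  rw [← hsdef] at hmxf hens hcsw
  rw [← hK] at hmxf
  have hn0 : (0 : ℝ) ≤ (S.card : ℝ) := Nat.cast_nonneg _
  have hng : (S.card : ℝ) ≤ g := by
    have := Finset.card_le_univ S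
    rw [Fintype.card_fin] at this
    exact_mod_cast this
  have hg0 : (0 : ℝ) ≤ (g : ℝ) := Nat.cast_nonneg _
  set n : ℝ := (S.card : ℝ) with hn
  set LHS : ℝ := ∑ r ∈ Icc 1 R, (r : ℝ) * B r * ρ ^ r / (s ^ r - ρ ^ r) with hLHS
  -- the left side
  have hleft : (1 - e) * LHS ≤
      ∑ r ∈ Icc 1 R, (r : ℝ) * B r * ∑ k ∈ Icc 1 (L / r), wt ρ L (k * r) / s ^ (k * r) := by
    rw [hLHS, Finset.mul_sum]
    apply Finset.sum_le_sum
    intro r hr
    have h := mul_le_mul_of_nonneg_left (hLr r hr) (show (0 : ℝ) ≤ (r : ℝ) * B r by positivity)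
    calc (1 - e) * ((r : ℝ) * B r * ρ ^ r / (s ^ r - ρ ^ r))
        = (r : ℝ) * B r * ((1 - e) * (ρ ^ r / (s ^ r - ρ ^ r))) := by ring
      _ ≤ _ := h
  have hLHS0 : 0 ≤ LHS := by
    rw [hLHS]
    apply Finset.sum_nonneg
    intro r hr
    have hr1 : 1 ≤ r := (Finset.mem_Icc.1 hr).1
    have hlt : ρ ^ r < s ^ r := pow_lt_pow_left₀ (by linarith) hρ.le (by omega)
    apply div_nonneg (by positivity)
    linarith
  -- the energy
  have hlogs : 2 * Real.log s = Real.log q := by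
    rw [hsdef, Real.log_sqrt (Nat.cast_nonneg q)]
    ring
  have hlog2 : 0 ≤ Real.log (2 / (1 + r)) := by
    apply Real.log_nonneg
    rw [le_div_iff₀ (by linarith)]
    linarith
  have hE : √(2 * (((1 - 2 * (j : ℝ) / m) * Real.log s + 2 * Real.log (2 / (1 + r))) * n ^ 2 +
      η * (g : ℝ) ^ 2)) ≤ √(τ + 4 * Real.log (2 / (1 + r))) * n + √(2 * η) * g := by
    have h1 : 2 * (((1 - 2 * (j : ℝ) / m) * Real.log s + 2 * Real.log (2 / (1 + r))) * n ^ 2 +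
        η * (g : ℝ) ^ 2) = (τ + 4 * Real.log (2 / (1 + r))) * n ^ 2 + (2 * η) * (g : ℝ) ^ 2 := by
      rw [hτ, ← hlogs]
      ring
    rw [h1]
    apply Real.sqrt_le_iff.2
    constructor
    · positivity
    · have ha : √(τ + 4 * Real.log (2 / (1 + r))) ^ 2 = τ + 4 * Real.log (2 / (1 + r)) :=
        Real.sq_sqrt (by positivity)
      have hb : √(2 * η) ^ 2 = 2 * η := Real.sq_sqrt (by positivity)
      have hc : 0 ≤ √(τ + 4 * Real.log (2 / (1 + r))) * n * (√(2 * η) * g) := by positivity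
      calc (τ + 4 * Real.log (2 / (1 + r))) * n ^ 2 + (2 * η) * (g : ℝ) ^ 2
          = (√(τ + 4 * Real.log (2 / (1 + r))) * n) ^ 2 + (√(2 * η) * g) ^ 2 := by
            rw [mul_pow, mul_pow, ha, hb]
        _ ≤ (√(τ + 4 * Real.log (2 / (1 + r))) * n + √(2 * η) * g) ^ 2 := by
            linarith [hc, add_sq (√(τ + 4 * Real.log (2 / (1 + r))) * n) (√(2 * η) * g)]
  have hmid : 2 * ∑ k ∈ Icc 1 L, ρ ^ k * |∑ i ∈ S, Real.cos (k * θ i)| ≤ D * n + e * g := by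
    refine hcsw.trans ?_
    have h1 := mul_le_mul_of_nonneg_right hE hw0
    refine h1.trans ?_
    have h2 : √(τ + 4 * Real.log (2 / (1 + r))) * w * n ≤ (D + e / 2) * n :=
      mul_le_mul_of_nonneg_right hr hn0
    have h3 : √(2 * η) * w * g ≤ e / 2 * g := mul_le_mul_of_nonneg_right hηw hg0
    have h4 : e / 2 * n ≤ e / 2 * g := mul_le_mul_of_nonneg_left hng (by linarith)
    linarith [h2, h3, h4]
  have hKg : K ≤ e * g := by
    have h1 : K / e ≤ g := hg₂.trans (by exact_mod_cast hgg2)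
    rw [div_le_iff₀ he0] at h1
    linarith
  have hSw : n * (1 - e) ≤ n * wt ρ L 0 := mul_le_mul_of_nonneg_left hL0 hn0
  have hen : e * n ≤ e * g := mul_le_mul_of_nonneg_left hng he0.le
  have hmain : (1 - e) * LHS ≤ g - n * (1 - D) + 3 * e * g := by
    linarith [hleft, hmxf, hmid, hKg, hSw, hen]
  -- the last step
  have hDn : D * n ≤ D * g := mul_le_mul_of_nonneg_left hng hD0
  have heg : e * g ≤ 1 / 2 * g := mul_le_mul_of_nonneg_right he2 hg0
  have hL2 : 0 ≤ (1 - 2 * e) * LHS := mul_nonneg (by linarith) hLHS0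
  have hL3 : LHS ≤ (8 + 2 * D) * g := by linarith
  have hL4 : e * LHS ≤ e * ((8 + 2 * D) * g) := mul_le_mul_of_nonneg_left hL3 he0.le
  have hfin : e * (11 + 2 * D) * g ≤ ε * g := mul_le_mul_of_nonneg_right heD hg0
  linarith [hmain, hL4, hfin]

end Pool.Agent.VIS
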