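import Pool.Agent.VIS.St
import Pool.Agent.VIR.P_UPP

/-!
# Slopes of virtual curves: module MUL, coinciding eigenvalues are rare   (helper15)
-/

set_option autoImplicit false

namespace Pool.Agent.VIS

open Polynomial Finset Pool.Agent.VIR

namespace MUL

lemma Fj_nonneg (M : ℕ) (t : ℝ) : 0 ≤ Fj M t := UPP.fejer_nonneg t M

lemma sum_w (M : ℕ) (a : ℝ) (ha : a ≠ 0) :
    ∑ m ∈ range M, (1 - ((m + 1 : ℕ) : ℝ) / a) * 2 = 2 * M - M * (M + 1) / a := by
  induction M with
  | zero => simp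
  | succ M ih =>
    rw [Finset.sum_range_succ, ih]
    push_cast
    field_simp
    ring

lemma Fj_one (M : ℕ) (t : ℝ) (h : ∀ k : ℕ, Real.cos (k * t) = 1) : Fj M t = M + 1 := by
  unfold Fj
  have h1 : ∑ k ∈ Icc 1 M, (1 - (k : ℝ) / (M + 1)) * (2 * Real.cos (k * t)) =
      ∑ k ∈ Icc 1 M, (1 - (k : ℝ) / (M + 1)) * 2 :=
    Finset.sum_congr rfl fun k _ => by rw [h, mul_one]
  have hM : (M : ℝ) + 1 ≠ 0 := by positivity
  rw [h1, UPP.sum_Icc_one (fun k => (1 - (k : ℝ) / (M + 1)) * 2) M, sum_w M _ hM]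
  field_simp
  ring

lemma cos_int (l : ℤ) (k : ℕ) : Real.cos (k * (2 * l * Real.pi)) = 1 := by
  have h := Real.cos_int_mul_two_pi ((k : ℤ) * l)
  rw [← h]
  congr 1
  push_cast
  ring

lemma Fj_add (M : ℕ) (t φ : ℝ) : Fj M (t - φ) + Fj M (t + φ) =
    2 + ∑ k ∈ Icc 1 M, (1 - (k : ℝ) / (M + 1)) * (4 * Real.cos (k * φ)) * Real.cos (k * t) := by
  unfold Fj
  have h : ∑ k ∈ Icc 1 M, (1 - (k : ℝ) / (M + 1)) * (4 * Real.cos (k * φ)) * Real.cos (k * t) =
      ∑ k ∈ Icc 1 M, (1 - (k : ℝ) / (M + 1)) * (2 * Real.cos (k * (t - φ))) +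
      ∑ k ∈ Icc 1 M, (1 - (k : ℝ) / (M + 1)) * (2 * Real.cos (k * (t + φ))) := by
    rw [← Finset.sum_add_distrib]
    refine Finset.sum_congr rfl fun k _ => ?_
    rw [mul_sub, mul_add, Real.cos_sub, Real.cos_add]
    ring
  rw [h]
  ring

/-- the number of coinciding angles -/
lemma card_le (q g M : ℕ) (θ : Fin g → ℝ) (B : ℕ → ℕ) (hq : 2 ≤ q) (hC : Count q g θ B) (φ : ℝ) :
    (∑ i, (Fj M (θ i - φ) + Fj M (θ i + φ))) ≤
      4 * g + 4 * ∑ k ∈ Icc 1 M, (√(q : ℝ) ^ k + (√(q : ℝ))⁻¹ ^ k) := by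
  have hs1 : 1 < √(q : ℝ) := one_lt_sqrt hq
  obtain ⟨s, hs⟩ : ∃ s, s = √(q : ℝ) := ⟨_, rfl⟩
  rw [← hs] at hs1 ⊢
  have hs0 : 0 < s := by linarith
  have hM0 : (0 : ℝ) < M + 1 := by positivity
  have hw0 : ∀ m ∈ Icc 1 M, 0 ≤ 1 - (m : ℝ) / (M + 1) := by
    intro m hm
    rw [Finset.mem_Icc] at hm
    have h1 : (m : ℝ) ≤ M := by exact_mod_cast hm.2
    rw [sub_nonneg, div_le_one hM0]
    linarith
  have hw1 : ∀ m : ℕ, 1 - (m : ℝ) / (M + 1) ≤ 1 := by
    intro m
    have : 0 ≤ (m : ℝ) / (M + 1) := by positivity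
    linarith
  have hq2 : (q : ℝ) = s ^ 2 := by
    rw [hs, Real.sq_sqrt (by positivity)]
  -- the numbers of points
  let N : ℕ → ℝ := fun k => ((∑ d ∈ k.divisors, d * B d : ℕ) : ℝ) / s ^ k
  have hN0 : ∀ k, 0 ≤ N k := fun k => by
    have : 0 < s ^ k := pow_pos hs0 k
    positivity
  let c : ℕ → ℝ := fun k => s ^ k + s⁻¹ ^ k
  have hc0 : ∀ k, 0 ≤ c k := fun k => by
    have : 0 < s ^ k := pow_pos hs0 k
    positivity
  have hA : ∀ k ∈ Icc 1 M, 2 * ∑ i, Real.cos (k * θ i) = c k - N k := by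
    intro k hk
    have h1 := hC k (Finset.mem_Icc.1 hk).1
    rw [← hs, hq2] at h1
    have hp : 0 < s ^ k := pow_pos hs0 k
    have h2 : ∑ i, 2 * s ^ k * Real.cos (k * θ i) = s ^ k * (2 * ∑ i, Real.cos (k * θ i)) := by
      rw [Finset.mul_sum, Finset.mul_sum]
      exact Finset.sum_congr rfl fun i _ => by ring
    rw [h2] at h1
    simp only [c, N]
    rw [h1, inv_pow, ← pow_mul, mul_comm 2 k, pow_mul]
    field_simp
    ring
  have hsum : ∀ f : ℕ → ℝ, ∑ i, ∑ k ∈ Icc 1 M, f k * Real.cos (k * θ i) =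
      ∑ k ∈ Icc 1 M, f k / 2 * (c k - N k) := by
    intro f
    rw [Finset.sum_comm]
    refine Finset.sum_congr rfl fun k hk => ?_
    rw [← hA k hk, ← Finset.mul_sum]
    ring
  -- first inequality
  have h1 : ∑ k ∈ Icc 1 M, (1 - (k : ℝ) / (M + 1)) * N k ≤
      g + ∑ k ∈ Icc 1 M, (1 - (k : ℝ) / (M + 1)) * c k := by
    have e1 : (0 : ℝ) ≤ ∑ i, Fj M (θ i) := Finset.sum_nonneg fun i _ => Fj_nonneg M (θ i)
    have e2 : ∑ i, Fj M (θ i) = g + ∑ k ∈ Icc 1 M, (1 - (k : ℝ) / (M + 1)) * (c k - N k) := by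
      have e3 : ∀ i, Fj M (θ i) =
          1 + ∑ k ∈ Icc 1 M, ((1 - (k : ℝ) / (M + 1)) * 2) * Real.cos (k * θ i) := by
        intro i
        unfold Fj
        congr 1
        exact Finset.sum_congr rfl fun k _ => by ring
      simp only [e3]
      rw [Finset.sum_add_distrib, Finset.sum_const, Finset.card_univ, Fintype.card_fin,
        nsmul_eq_mul, mul_one, hsum]
      congr 1
      exact Finset.sum_congr rfl fun k _ => by ring
    rw [e2] at e1
    simp only [mul_sub, Finset.sum_sub_distrib] at e1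
    linarith
  -- second step
  have h2 : ∑ i, (Fj M (θ i - φ) + Fj M (θ i + φ)) =
      2 * g + ∑ k ∈ Icc 1 M, (1 - (k : ℝ) / (M + 1)) * (2 * Real.cos (k * φ)) * (c k - N k) := by
    simp only [Fj_add]
    rw [Finset.sum_add_distrib, Finset.sum_const, Finset.card_univ, Fintype.card_fin,
      nsmul_eq_mul, hsum]
    congr 1
    · ring
    · exact Finset.sum_congr rfl fun k _ => by ring
  have h3 : ∑ k ∈ Icc 1 M, (1 - (k : ℝ) / (M + 1)) * (2 * Real.cos (k * φ)) * (c k - N k) ≤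
      2 * ∑ k ∈ Icc 1 M, (1 - (k : ℝ) / (M + 1)) * c k +
      2 * ∑ k ∈ Icc 1 M, (1 - (k : ℝ) / (M + 1)) * N k := by
    rw [Finset.mul_sum, Finset.mul_sum, ← Finset.sum_add_distrib]
    refine Finset.sum_le_sum fun k hk => ?_
    have a1 := hw0 k hk
    have a2 := hc0 k
    have a3 := hN0 k
    have a4 := Real.cos_le_one (k * φ)
    have a5 := Real.neg_one_le_cos (k * φ)
    have b1 : 0 ≤ (1 - (k : ℝ) / (M + 1)) * (c k * (1 - Real.cos (k * φ))) :=
      mul_nonneg a1 (mul_nonneg a2 (by linarith))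
    have b2 : 0 ≤ (1 - (k : ℝ) / (M + 1)) * (N k * (1 + Real.cos (k * φ))) :=
      mul_nonneg a1 (mul_nonneg a3 (by linarith))
    nlinarith
  have h4 : ∑ k ∈ Icc 1 M, (1 - (k : ℝ) / (M + 1)) * c k ≤ ∑ k ∈ Icc 1 M, c k :=
    Finset.sum_le_sum fun k _ => by
      have := mul_le_mul_of_nonneg_right (hw1 k) (hc0 k)
      linarith
  change _ ≤ 4 * (g : ℝ) + 4 * ∑ k ∈ Icc 1 M, c k
  rw [h2]
  linarith

end MUL

open MUL in
theorem t_MUL : S_MUL := by
  classical
  intro q η hq hη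
  obtain ⟨M, hM⟩ : ∃ M : ℕ, 8 / η ≤ M := exists_nat_ge _
  set Cc : ℝ := ∑ k ∈ Icc 1 M, (√(q : ℝ) ^ k + (√(q : ℝ))⁻¹ ^ k) with hCc
  obtain ⟨g₀, hg₀⟩ : ∃ g₀ : ℕ, Cc ≤ g₀ := exists_nat_ge _
  refine ⟨g₀, fun g hg θ B hC => ?_⟩
  have hgC : Cc ≤ g := hg₀.trans (by exact_mod_cast hg)
  have hM0 : (0 : ℝ) < M + 1 := by positivity
  -- one value
  have h1 : ∀ φ : ℝ, (((univ : Finset (Fin g)).filter
      (fun i => Real.cos (θ i) = Real.cos φ)).card : ℝ) ≤ η * g := by
    intro φ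
    have e1 := card_le q g M θ B hq hC φ
    rw [← hCc] at e1
    have e2 : (((univ : Finset (Fin g)).filter
        (fun i => Real.cos (θ i) = Real.cos φ)).card : ℝ) * (M + 1) ≤
        ∑ i, (Fj M (θ i - φ) + Fj M (θ i + φ)) := by
      calc (((univ : Finset (Fin g)).filter
            (fun i => Real.cos (θ i) = Real.cos φ)).card : ℝ) * (M + 1)
          = ∑ i ∈ (univ : Finset (Fin g)).filter (fun i => Real.cos (θ i) = Real.cos φ),
              ((M : ℝ) + 1) := by
            rw [Finset.sum_const, nsmul_eq_mul]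
        _ ≤ ∑ i ∈ (univ : Finset (Fin g)).filter (fun i => Real.cos (θ i) = Real.cos φ),
              (Fj M (θ i - φ) + Fj M (θ i + φ)) := by
            refine Finset.sum_le_sum fun i hi => ?_
            have hi' := (Finset.mem_filter.1 hi).2
            obtain ⟨l, hl | hl⟩ := Real.cos_eq_cos_iff.1 hi'
            · have : Fj M (θ i - φ) = M + 1 := by
                refine Fj_one M _ fun k => ?_
                have e : θ i - φ = 2 * ((-l : ℤ) : ℝ) * Real.pi := by
                  rw [hl]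
                  push_cast
                  ring
                rw [e]
                exact cos_int _ k
              have h0 := Fj_nonneg M (θ i + φ)
              linarith
            · have : Fj M (θ i + φ) = M + 1 := by
                refine Fj_one M _ fun k => ?_
                have e : θ i + φ = 2 * ((l : ℤ) : ℝ) * Real.pi := by
                  rw [hl]
                  ring
                rw [e]
                exact cos_int _ k
              have h0 := Fj_nonneg M (θ i - φ)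
              linarith
        _ ≤ ∑ i, (Fj M (θ i - φ) + Fj M (θ i + φ)) :=
            Finset.sum_le_sum_of_subset_of_nonneg (Finset.filter_subset _ _)
              fun i _ _ => add_nonneg (Fj_nonneg _ _) (Fj_nonneg _ _)
    have e3 : 8 ≤ η * (M + 1) := by
      have := (div_le_iff₀ hη).1 hM
      nlinarith
    have e4 : (((univ : Finset (Fin g)).filter
        (fun i => Real.cos (θ i) = Real.cos φ)).card : ℝ) * (M + 1) ≤ η * g * (M + 1) := by
      have hg0 : (0 : ℝ) ≤ g := Nat.cast_nonneg g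
      nlinarith
    exact le_of_mul_le_mul_right e4 hM0
  -- sum over the values
  have h2 : ((Eq2 θ univ).card : ℝ) = ∑ k : Fin g, (((univ : Finset (Fin g)).filter
      (fun i => Real.cos (θ i) = Real.cos (θ k))).card : ℝ) := by
    rw [← Nat.cast_sum]
    congr 1
    unfold Eq2
    rw [Finset.card_filter, Finset.sum_product_right]
    refine Finset.sum_congr rfl fun k _ => ?_
    rw [Finset.card_filter]
  rw [h2]
  calc ∑ k : Fin g, (((univ : Finset (Fin g)).filter
        (fun i => Real.cos (θ i) = Real.cos (θ k))).card : ℝ)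
      ≤ ∑ _k : Fin g, η * (g : ℝ) := Finset.sum_le_sum fun k _ => h1 (θ k)
    _ = η * (g : ℝ) ^ 2 := by
        rw [Finset.sum_const, Finset.card_univ, Fintype.card_fin, nsmul_eq_mul]
        ring

end Pool.Agent.VIS
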