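import Pool.Agent.VIS.St3

/-!
# Slopes of virtual curves: module MXF, the explicit formula with mixed weights   (helper15)
-/

set_option autoImplicit false

namespace Pool.Agent.VIS

open Polynomial Finset Pool.Agent.VIR

namespace MXF

/-- the mixing coefficients -/
noncomputable def cc (ρ : ℝ) (M : ℕ) : ℝ := ((M : ℝ) + 1) * ρ ^ M * (1 - ρ) ^ 2

lemma cc_nonneg {ρ : ℝ} (h0 : 0 < ρ) (M : ℕ) : 0 ≤ cc ρ M := by
  unfold cc
  positivity

lemma wt_eq (ρ : ℝ) (L k : ℕ) :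
    wt ρ L k = ∑ M ∈ Icc k L, cc ρ M * (1 - (k : ℝ) / (M + 1)) := by
  unfold wt cc
  refine Finset.sum_congr rfl fun M _ => ?_
  have h : (M : ℝ) + 1 ≠ 0 := by positivity
  field_simp

lemma swap (f : ℕ → ℕ → ℝ) (L r : ℕ) (hr : 1 ≤ r) :
    ∑ M ∈ range (L + 1), ∑ k ∈ Icc 1 (M / r), f M k =
      ∑ k ∈ Icc 1 (L / r), ∑ M ∈ Icc (k * r) L, f M k := by
  refine Finset.sum_comm' fun M k => ?_
  rw [Finset.mem_range, Finset.mem_Icc, Finset.mem_Icc, Finset.mem_Icc,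
    Nat.le_div_iff_mul_le hr, Nat.le_div_iff_mul_le hr]
  constructor
  · rintro ⟨h1, h2, h3⟩
    exact ⟨⟨h3, by omega⟩, h2, by omega⟩
  · rintro ⟨⟨h1, h2⟩, h3, h4⟩
    exact ⟨by omega, h3, h1⟩

lemma sum_cc (ρ : ℝ) (L : ℕ) : ∑ M ∈ range (L + 1), cc ρ M = wt ρ L 0 := by
  rw [wt_eq]
  have h : range (L + 1) = Icc 0 L := by
    ext M
    rw [Finset.mem_range, Finset.mem_Icc]
    omega
  rw [h]
  refine Finset.sum_congr rfl fun M _ => ?_
  simp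

end MXF

open MXF in
theorem t_MXF (hFEJ : S_FEJ) (hWTL : S_WTL) : S_MXF := by
  intro q g R L ρ θ B S hq h0 h1 hC
  obtain ⟨s, hs⟩ : ∃ s, s = √(q : ℝ) := ⟨_, rfl⟩
  have hs1 : 1 < √(q : ℝ) := one_lt_sqrt hq
  have hs0 : 0 < s := by rw [hs]; linarith
  -- Fejér for every `M`
  have hF : ∀ M : ℕ, ∑ r ∈ Icc 1 R, (r : ℝ) * B r *
      ∑ k ∈ Icc 1 (M / r), (1 - (k : ℝ) * r / (M + 1)) / s ^ (k * r) ≤
      g + ∑ m ∈ Icc 1 M, (s ^ m + s⁻¹ ^ m) - ∑ i ∈ S, Fj M (θ i) := by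
    intro M
    rcases Nat.eq_zero_or_pos M with rfl | hM
    · have e1 : ∑ r ∈ Icc 1 R, (r : ℝ) * B r *
          ∑ k ∈ Icc 1 (0 / r), (1 - (k : ℝ) * r / ((0 : ℕ) + 1)) / s ^ (k * r) = 0 := by
        refine Finset.sum_eq_zero fun r _ => ?_
        rw [Nat.zero_div]
        simp
      have e2 : ∑ i ∈ S, Fj 0 (θ i) = S.card := by
        have : ∀ i, Fj 0 (θ i) = 1 := fun i => by
          unfold Fj
          simp
        simp only [this, Finset.sum_const, nsmul_eq_mul, mul_one]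
      have e3 : (S.card : ℝ) ≤ g := by
        have := Finset.card_le_univ S
        rw [Fintype.card_fin] at this
        exact_mod_cast this
      rw [e1, e2]
      simp only [Finset.Icc_eq_empty_of_lt (show (0 : ℕ) < 1 by norm_num), Finset.sum_empty]
      linarith
    · have := hFEJ q g R M θ B S hq hM hC
      rwa [← hs] at this
  -- mixing
  have hmix : ∑ M ∈ range (L + 1), cc ρ M * (∑ r ∈ Icc 1 R, (r : ℝ) * B r *
      ∑ k ∈ Icc 1 (M / r), (1 - (k : ℝ) * r / (M + 1)) / s ^ (k * r)) ≤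
      ∑ M ∈ range (L + 1), cc ρ M * (g + ∑ m ∈ Icc 1 M, (s ^ m + s⁻¹ ^ m) -
        ∑ i ∈ S, Fj M (θ i)) :=
    Finset.sum_le_sum fun M _ => mul_le_mul_of_nonneg_left (hF M) (cc_nonneg h0 M)
  -- the left side
  have hL : ∑ M ∈ range (L + 1), cc ρ M * (∑ r ∈ Icc 1 R, (r : ℝ) * B r *
      ∑ k ∈ Icc 1 (M / r), (1 - (k : ℝ) * r / (M + 1)) / s ^ (k * r)) =
      ∑ r ∈ Icc 1 R, (r : ℝ) * B r * ∑ k ∈ Icc 1 (L / r), wt ρ L (k * r) / s ^ (k * r) := by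
    have e1 : ∀ M, cc ρ M * (∑ r ∈ Icc 1 R, (r : ℝ) * B r *
        ∑ k ∈ Icc 1 (M / r), (1 - (k : ℝ) * r / (M + 1)) / s ^ (k * r)) =
        ∑ r ∈ Icc 1 R, (r : ℝ) * B r * ∑ k ∈ Icc 1 (M / r),
          cc ρ M * (1 - (k : ℝ) * r / (M + 1)) / s ^ (k * r) := by
      intro M
      rw [Finset.mul_sum]
      refine Finset.sum_congr rfl fun r _ => ?_
      rw [mul_left_comm, Finset.mul_sum]
      congr 1
      exact Finset.sum_congr rfl fun k _ => (mul_div_assoc _ _ _).symm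
    simp only [e1]
    rw [Finset.sum_comm]
    refine Finset.sum_congr rfl fun r hr => ?_
    rw [← Finset.mul_sum,
      swap (fun M k => cc ρ M * (1 - (k : ℝ) * r / (M + 1)) / s ^ (k * r)) L r
        (Finset.mem_Icc.1 hr).1]
    congr 1
    refine Finset.sum_congr rfl fun k _ => ?_
    rw [wt_eq, Finset.sum_div]
    refine Finset.sum_congr rfl fun M _ => ?_
    rw [Nat.cast_mul]
  -- the Fejér kernels
  have hK : ∑ M ∈ range (L + 1), cc ρ M * ∑ i ∈ S, Fj M (θ i) =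
      S.card * wt ρ L 0 + 2 * ∑ k ∈ Icc 1 L, wt ρ L k * ∑ i ∈ S, Real.cos (k * θ i) := by
    have e1 : ∀ M, cc ρ M * ∑ i ∈ S, Fj M (θ i) = S.card * cc ρ M +
        ∑ k ∈ Icc 1 (M / 1), cc ρ M * (1 - (k : ℝ) / (M + 1)) *
          (2 * ∑ i ∈ S, Real.cos (k * θ i)) := by
      intro M
      have e2 : ∑ i ∈ S, Fj M (θ i) = S.card + ∑ k ∈ Icc 1 M, (1 - (k : ℝ) / (M + 1)) *
          (2 * ∑ i ∈ S, Real.cos (k * θ i)) := by
        unfold Fj
        rw [Finset.sum_add_distrib, Finset.sum_const, nsmul_eq_mul, mul_one, Finset.sum_comm]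
        congr 1
        refine Finset.sum_congr rfl fun k _ => ?_
        rw [← Finset.mul_sum, ← Finset.mul_sum]
      rw [e2, mul_add, Nat.div_one, mul_comm (cc ρ M), Finset.mul_sum]
      congr 1
      exact Finset.sum_congr rfl fun k _ => by ring
    simp only [e1]
    rw [Finset.sum_add_distrib, ← Finset.mul_sum, sum_cc,
      swap (fun M k => cc ρ M * (1 - (k : ℝ) / (M + 1)) * (2 * ∑ i ∈ S, Real.cos (k * θ i))) L 1
        le_rfl, Nat.div_one, Finset.mul_sum]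
    congr 1
    refine Finset.sum_congr rfl fun k _ => ?_
    rw [wt_eq, mul_one, ← Finset.sum_mul]
    ring
  -- the constant
  have hconst : ∑ M ∈ range (L + 1), cc ρ M * (g + ∑ m ∈ Icc 1 M, (s ^ m + s⁻¹ ^ m)) ≤
      g + ∑ m ∈ Icc 1 L, (s ^ m + s⁻¹ ^ m) := by
    have hpos : ∀ m : ℕ, 0 ≤ s ^ m + s⁻¹ ^ m := fun m => by positivity
    have e1 : ∀ M ∈ range (L + 1), cc ρ M * (g + ∑ m ∈ Icc 1 M, (s ^ m + s⁻¹ ^ m)) ≤
        cc ρ M * (g + ∑ m ∈ Icc 1 L, (s ^ m + s⁻¹ ^ m)) := by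
      intro M hM
      rw [Finset.mem_range] at hM
      refine mul_le_mul_of_nonneg_left ?_ (cc_nonneg h0 M)
      have : ∑ m ∈ Icc 1 M, (s ^ m + s⁻¹ ^ m) ≤ ∑ m ∈ Icc 1 L, (s ^ m + s⁻¹ ^ m) :=
        Finset.sum_le_sum_of_subset_of_nonneg (Finset.Icc_subset_Icc_right (by omega))
          fun m _ _ => hpos m
      linarith
    refine (Finset.sum_le_sum e1).trans ?_
    rw [← Finset.sum_mul, sum_cc]
    have e2 := ((hWTL ρ h0 h1 0).1 L).2
    rw [pow_zero] at e2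
    have e3 : 0 ≤ (g : ℝ) + ∑ m ∈ Icc 1 L, (s ^ m + s⁻¹ ^ m) :=
      add_nonneg (Nat.cast_nonneg g) (Finset.sum_nonneg fun m _ => hpos m)
    calc wt ρ L 0 * (g + ∑ m ∈ Icc 1 L, (s ^ m + s⁻¹ ^ m))
        ≤ 1 * (g + ∑ m ∈ Icc 1 L, (s ^ m + s⁻¹ ^ m)) := mul_le_mul_of_nonneg_right e2 e3
      _ = _ := one_mul _
  -- the cosine sums
  have hcos : - (2 * ∑ k ∈ Icc 1 L, wt ρ L k * ∑ i ∈ S, Real.cos (k * θ i)) ≤
      2 * ∑ k ∈ Icc 1 L, ρ ^ k * |∑ i ∈ S, Real.cos (k * θ i)| := by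
    rw [← mul_neg, ← Finset.sum_neg_distrib]
    refine mul_le_mul_of_nonneg_left (Finset.sum_le_sum fun k _ => ?_) (by norm_num)
    obtain ⟨w0, w1⟩ := (hWTL ρ h0 h1 k).1 L
    have a1 := neg_abs_le (∑ i ∈ S, Real.cos (k * θ i))
    have a2 := abs_nonneg (∑ i ∈ S, Real.cos (k * θ i))
    have b1 : wt ρ L k * |∑ i ∈ S, Real.cos (k * θ i)| ≤
        ρ ^ k * |∑ i ∈ S, Real.cos (k * θ i)| := mul_le_mul_of_nonneg_right w1 a2
    have b2 : wt ρ L k * (-|∑ i ∈ S, Real.cos (k * θ i)|) ≤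
        wt ρ L k * ∑ i ∈ S, Real.cos (k * θ i) := mul_le_mul_of_nonneg_left a1 w0
    linarith
  rw [hL] at hmix
  simp only [mul_sub, Finset.sum_sub_distrib] at hmix
  rw [hK] at hmix
  rw [← hs]
  linarith

end Pool.Agent.VIS
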