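import Pool.Agent.VIS.St

/-!
# SLS: supersingular angles have slope `1 / 2`
-/

set_option autoImplicit false

namespace Pool.Agent.VIS

open Polynomial

theorem SLS.exp_pow (n : ℕ) (t : ℝ) (h : Real.cos (n * t) = 1) :
    Complex.exp (t * Complex.I) ^ n = 1 := by
  rw [← Complex.exp_nat_mul]
  have h1 : (n : ℂ) * (t * Complex.I) = ((n * t : ℝ) : ℂ) * Complex.I := by push_cast; ring
  rw [h1, Complex.exp_mul_I, ← Complex.ofReal_cos, ← Complex.ofReal_sin, h]
  have h2 : Real.sin (n * t) = 0 := by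
    have := Real.sin_sq_add_cos_sq (n * t)
    rw [h] at this
    nlinarith
  rw [h2]
  simp

theorem t_SLS : S_SLS := by
  intro q t hq ⟨n, hn, h⟩
  unfold SL al
  have hq0 : (q : ℂ) ≠ 0 := by
    have : q ≠ 0 := by omega
    exact_mod_cast this
  have hs : ((√(q : ℝ) : ℝ) : ℂ) ^ 2 = (q : ℂ) := by
    rw [← Complex.ofReal_pow, Real.sq_sqrt (Nat.cast_nonneg q)]
    simp
  have e : (((√(q : ℝ) : ℝ) : ℂ) * Complex.exp (t * Complex.I)) ^ 2 / (q : ℂ) ^ 1 =
      Complex.exp (t * Complex.I) ^ 2 := by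
    rw [mul_pow, hs, pow_one]
    field_simp
  rw [e]
  apply IsIntegral.pow
  refine IsIntegral.of_pow (n := n) (by omega) ?_
  rw [SLS.exp_pow n t h]
  exact isIntegral_one

end Pool.Agent.VIS
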