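import Pool.Agent.VIS.St
import Pool.Agent.VIR.P_UPL

/-!
# Slopes of virtual curves: the supersingular part does not count
-/

set_option autoImplicit false

namespace Pool.Agent.VIS

open Polynomial Finset Filter Topology Pool.Agent.VIR

namespace SSB

/-- the constant in the energy inequality -/
noncomputable def ff (M : ℕ) (r : ℝ) : ℝ :=
  (M : ℝ) / (2 * r ^ M) * (2 * Real.log (2 / (1 + r)) + (1 - r))

lemma choose_r (M : ℕ) (e : ℝ) (he : 0 < e) : ∃ r : ℝ, 0 < r ∧ r < 1 ∧ ff M r < e := by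
  have hc : ContinuousAt (ff M) 1 := by
    unfold ff
    apply ContinuousAt.mul
    · apply ContinuousAt.div continuousAt_const (by fun_prop) (by norm_num)
    · apply ContinuousAt.add
      · apply ContinuousAt.mul continuousAt_const
        apply ContinuousAt.log
        · apply ContinuousAt.div continuousAt_const (by fun_prop) (by norm_num)
        · norm_num
      · fun_prop
  have h1 : ff M 1 = 0 := by
    unfold ff
    norm_num
  have h2 : ∀ᶠ r in 𝓝[<] (1 : ℝ), ff M r < e :=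
    (hc.tendsto.eventually_lt_const (by rw [h1]; exact he)).filter_mono nhdsWithin_le_nhds
  have h3 : ∀ᶠ r in 𝓝[<] (1 : ℝ), 0 < r :=
    (eventually_gt_nhds (by norm_num)).filter_mono nhdsWithin_le_nhds
  obtain ⟨r, hr1, hr2, hr3⟩ := (h2.and (h3.and self_mem_nhdsWithin)).exists
  exact ⟨r, hr2, hr3, hr1⟩

lemma cos_bound {g M : ℕ} {θ : Fin g → ℝ} {S : Finset (Fin g)} {r e D : ℝ} (hr0 : 0 < r)
    (hr1 : r < 1) (he : 0 ≤ e)
    (hE : ∑ n ∈ Icc 1 M, 2 * r ^ n / n * (∑ i ∈ S, Real.cos (n * θ i)) ^ 2 ≤ D * (g : ℝ) ^ 2)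
    (hD : (M : ℝ) / (2 * r ^ M) * D ≤ e ^ 2) (n : ℕ) (hn : n ∈ Icc 1 M) :
    |∑ i ∈ S, Real.cos (n * θ i)| ≤ e * g := by
  set A : ℝ := ∑ i ∈ S, Real.cos (n * θ i) with hA
  have hn1 := (mem_Icc.1 hn).1
  have hnM := (mem_Icc.1 hn).2
  have hnpos : (0 : ℝ) < n := by exact_mod_cast hn1
  have hMpos : (0 : ℝ) < M := by
    have : 0 < M := by omega
    exact_mod_cast this
  have hnM' : (n : ℝ) ≤ M := by exact_mod_cast hnM
  have h1 : 2 * r ^ n / n * A ^ 2 ≤ D * (g : ℝ) ^ 2 := by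
    refine le_trans ?_ hE
    exact single_le_sum (f := fun n : ℕ => 2 * r ^ n / n * (∑ i ∈ S, Real.cos (n * θ i)) ^ 2)
      (fun k _ => by positivity) hn
  have hrM : 0 < r ^ M := pow_pos hr0 M
  have h2 : r ^ M ≤ r ^ n := pow_le_pow_of_le_one hr0.le hr1.le hnM
  have h3 : 2 * r ^ M / M ≤ 2 * r ^ n / n := by
    apply div_le_div₀ (by positivity) (by linarith) hnpos hnM'
  have h4 : 2 * r ^ M / M * A ^ 2 ≤ D * (g : ℝ) ^ 2 :=
    (mul_le_mul_of_nonneg_right h3 (sq_nonneg A)).trans h1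
  have h5 : A ^ 2 ≤ (e * g) ^ 2 := by
    have h6 : A ^ 2 = (M : ℝ) / (2 * r ^ M) * (2 * r ^ M / M * A ^ 2) := by
      field_simp
    have h7 : 0 ≤ (M : ℝ) / (2 * r ^ M) := by positivity
    calc A ^ 2 = (M : ℝ) / (2 * r ^ M) * (2 * r ^ M / M * A ^ 2) := h6
      _ ≤ (M : ℝ) / (2 * r ^ M) * (D * (g : ℝ) ^ 2) := mul_le_mul_of_nonneg_left h4 h7
      _ = (M : ℝ) / (2 * r ^ M) * D * (g : ℝ) ^ 2 := by ring
      _ ≤ e ^ 2 * (g : ℝ) ^ 2 := mul_le_mul_of_nonneg_right hD (sq_nonneg _)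
      _ = (e * g) ^ 2 := by ring
  exact abs_le_of_sq_le_sq h5 (by positivity)

lemma sum_Fj {g M : ℕ} {θ : Fin g → ℝ} {S : Finset (Fin g)} {e : ℝ}
    (h : ∀ n ∈ Icc 1 M, |∑ i ∈ S, Real.cos (n * θ i)| ≤ e * g) :
    (S.card : ℝ) - 2 * M * (e * g) ≤ ∑ i ∈ S, Fj M (θ i) := by
  have h1 : ∑ i ∈ S, Fj M (θ i) = (S.card : ℝ) +
      ∑ k ∈ Icc 1 M, (1 - (k : ℝ) / (M + 1)) * (2 * ∑ i ∈ S, Real.cos (k * θ i)) := by
    unfold Fj
    rw [sum_add_distrib, sum_comm]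
    congr 1
    · simp
    · apply sum_congr rfl
      intro k _
      rw [mul_sum, mul_sum]
  rw [h1]
  have h2 : ∑ _k ∈ Icc 1 M, (-(2 * (e * g))) ≤
      ∑ k ∈ Icc 1 M, (1 - (k : ℝ) / (M + 1)) * (2 * ∑ i ∈ S, Real.cos (k * θ i)) := by
    apply sum_le_sum
    intro k hk
    have h3 := h k hk
    have hkM : (k : ℝ) ≤ M := by exact_mod_cast (mem_Icc.1 hk).2
    have h4 : (k : ℝ) / (M + 1) ≤ 1 := by
      rw [div_le_one (by positivity)]
      linarith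
    have h5 : 0 ≤ (k : ℝ) / (M + 1) := by positivity
    have h6 := neg_abs_le (∑ i ∈ S, Real.cos (k * θ i))
    have h7 := abs_nonneg (∑ i ∈ S, Real.cos (k * θ i))
    set A := ∑ i ∈ S, Real.cos (k * θ i)
    set w := (k : ℝ) / (M + 1)
    nlinarith
  have h3 : ∑ _k ∈ Icc 1 M, (-(2 * (e * g))) = -(2 * M * (e * g)) := by
    rw [sum_const, Nat.card_Icc, nsmul_eq_mul]
    push_cast
    ring
  rw [h3] at h2
  linarith

end SSB

theorem t_SSB (hFEJ : S_FEJ) (hENE : S_ENE) : S_SSB := by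
  intro q R ε hq hε
  have hs := one_lt_sqrt hq
  have hev : ∀ᶠ M : ℕ in atTop, ∀ r ∈ Icc 1 R,
      (1 + ε / 4)⁻¹ * (1 / (√(q : ℝ) ^ r - 1)) ≤ UPL.W (√(q : ℝ)) r M := by
    rw [Filter.eventually_all_finset]
    intro r hr
    have hr1 := (mem_Icc.1 hr).1
    apply UPL.eventually_W hs hr1
    have hy : 1 < √(q : ℝ) ^ r := one_lt_pow₀ hs (by omega)
    have h1 : 0 < 1 / (√(q : ℝ) ^ r - 1) := one_div_pos.2 (by linarith)
    have h2 : (1 + ε / 4)⁻¹ < 1 := inv_lt_one_of_one_lt₀ (by linarith)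
    calc (1 + ε / 4)⁻¹ * (1 / (√(q : ℝ) ^ r - 1)) < 1 * (1 / (√(q : ℝ) ^ r - 1)) :=
          mul_lt_mul_of_pos_right h2 h1
      _ = _ := one_mul _
  obtain ⟨M, hM, hM1⟩ := (hev.and (eventually_ge_atTop 1)).exists
  have hMpos : (0 : ℝ) < M := by exact_mod_cast hM1
  set e : ℝ := ε / (8 * M * (1 + ε / 4)) with he
  have he0 : 0 < e := by positivity
  obtain ⟨r, hr0, hr1, hr⟩ := SSB.choose_r M (e ^ 2) (by positivity)
  obtain ⟨g₁, hg₁⟩ := hENE q 2 1 r (1 - r) hq (by norm_num) (by norm_num) hr0 hr1 (by linarith)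
  obtain ⟨g₀, hg₀⟩ := exists_nat_ge
    ((1 + ε / 4) * (∑ m ∈ Icc 1 M, (√(q : ℝ) ^ m + (√(q : ℝ))⁻¹ ^ m)) / (ε / 4))
  refine ⟨max g₀ g₁, fun g hg θ P B S hP hB hS => ?_⟩
  have hE := hg₁ g ((le_max_right _ _).trans hg) θ P B S hP hB hS M
  have hD : (1 - 2 * ((1 : ℕ) : ℝ) / ((2 : ℕ) : ℝ)) * Real.log (√(q : ℝ)) +
      2 * Real.log (2 / (1 + r)) + (1 - r) = 2 * Real.log (2 / (1 + r)) + (1 - r) := by
    norm_num
  rw [hD] at hE
  have hcos := SSB.cos_bound hr0 hr1 he0.le hE hr.le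
  have hF := SSB.sum_Fj hcos
  have h1 := hFEJ q g R M θ B S hq hM1 hB
  have h2 : ∑ r ∈ Icc 1 R, (r : ℝ) * B r / (√(q : ℝ) ^ r - 1) ≤
      (1 + ε / 4) * ∑ r ∈ Icc 1 R, (r : ℝ) * B r * UPL.W (√(q : ℝ)) r M := by
    rw [mul_sum]
    apply sum_le_sum
    intro r hr
    have h3 := hM r hr
    have h4 : 0 ≤ (r : ℝ) * B r := by positivity
    have h5 := mul_le_mul_of_nonneg_left h3 h4
    have h6 : (0 : ℝ) < 1 + ε / 4 := by linarith
    have h7 : (r : ℝ) * B r / (√(q : ℝ) ^ r - 1) =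
        (1 + ε / 4) * ((r : ℝ) * B r * ((1 + ε / 4)⁻¹ * (1 / (√(q : ℝ) ^ r - 1)))) := by
      field_simp
    rw [h7]
    exact mul_le_mul_of_nonneg_left h5 h6.le
  set C : ℝ := ∑ m ∈ Icc 1 M, (√(q : ℝ) ^ m + (√(q : ℝ))⁻¹ ^ m) with hC
  have h8 : (1 + ε / 4) * C ≤ ε / 4 * g := by
    rw [div_le_iff₀ (by linarith)] at hg₀
    have h9 : (g₀ : ℝ) ≤ g := by exact_mod_cast (le_max_left _ _).trans hg
    nlinarith
  have h10 : (1 + ε / 4) * ∑ r ∈ Icc 1 R, (r : ℝ) * B r * UPL.W (√(q : ℝ)) r M ≤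
      (1 + ε / 4) * (g + C - ∑ i ∈ S, Fj M (θ i)) :=
    mul_le_mul_of_nonneg_left h1 (by linarith)
  have hcard : (S.card : ℝ) ≤ g := by
    have : S.card ≤ g := by
      have := card_le_univ S
      rwa [Fintype.card_fin] at this
    exact_mod_cast this
  have h11 : (1 + ε / 4) * (2 * M * (e * g)) = ε / 4 * g := by
    rw [he]
    field_simp
    ring
  have h12 : (1 + ε / 4) * (g + C - ∑ i ∈ S, Fj M (θ i)) ≤
      (1 + ε / 4) * (g + C - (S.card - 2 * M * (e * g))) :=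
    mul_le_mul_of_nonneg_left (by linarith) (by linarith)
  have hg0 : (0 : ℝ) ≤ g := Nat.cast_nonneg g
  have hS0 : (0 : ℝ) ≤ S.card := Nat.cast_nonneg _
  have h13 : (1 + ε / 4) * (g + C - (S.card - 2 * M * (e * g))) =
      (1 + ε / 4) * (g - S.card) + (1 + ε / 4) * C + (1 + ε / 4) * (2 * M * (e * g)) := by ring
  have h14 : (1 + ε / 4) * ((g : ℝ) - S.card) ≤ (g - S.card) + ε / 4 * g := by
    nlinarith [mul_nonneg hε.le hS0]
  rw [h11] at h13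
  nlinarith [mul_nonneg hε.le hg0]

end Pool.Agent.VIS
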