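import Pool.Agent.VIS.St3

/-!
# Module WTL: the mixed weights
-/

set_option autoImplicit false

namespace Pool.Agent.VIS

open Polynomial Finset Pool.Agent.VIR

namespace WTL

/-- the partial sums of the weights -/
noncomputable def hh (ρ : ℝ) (N : ℕ) : ℝ := 1 - ((N : ℝ) + 1) * ρ ^ N + N * ρ ^ (N + 1)

theorem sum_eq (ρ : ℝ) (N : ℕ) :
    ∑ n ∈ range N, ((n : ℝ) + 1) * ρ ^ n * (1 - ρ) ^ 2 = hh ρ N := by
  induction N with
  | zero => simp [hh]
  | succ N ih =>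
    rw [Finset.sum_range_succ, ih]
    unfold hh
    push_cast
    ring

theorem wt_eq (ρ : ℝ) (L k : ℕ) : wt ρ L k = ρ ^ k * hh ρ (L + 1 - k) := by
  unfold wt
  have h1 : Finset.Icc k L = Finset.Ico k (L + 1) := by
    ext x
    simp only [Finset.mem_Icc, Finset.mem_Ico]
    omega
  rw [h1, Finset.sum_Ico_eq_sum_range, ← sum_eq, Finset.mul_sum]
  refine Finset.sum_congr rfl fun i _ => ?_
  push_cast
  ring

theorem hh_le (ρ : ℝ) (h0 : 0 < ρ) (h1 : ρ < 1) (N : ℕ) : hh ρ N ≤ 1 := by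
  unfold hh
  have h2 : 0 < ρ ^ N := pow_pos h0 N
  have h3 : (N : ℝ) * ρ ^ (N + 1) ≤ ((N : ℝ) + 1) * ρ ^ N := by
    rw [pow_succ]
    have h4 : (0 : ℝ) ≤ N := Nat.cast_nonneg N
    have h5 : (N : ℝ) * ρ ≤ (N : ℝ) + 1 := by nlinarith
    nlinarith
  linarith

theorem hh_tendsto (ρ : ℝ) (h0 : 0 < ρ) (h1 : ρ < 1) :
    Filter.Tendsto (fun N : ℕ => hh ρ N) Filter.atTop (nhds 1) := by
  have t1 : Filter.Tendsto (fun N : ℕ => (N : ℝ) * ρ ^ N) Filter.atTop (nhds 0) :=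
    tendsto_self_mul_const_pow_of_lt_one h0.le h1
  have t2 : Filter.Tendsto (fun N : ℕ => ρ ^ N) Filter.atTop (nhds 0) :=
    tendsto_pow_atTop_nhds_zero_of_lt_one h0.le h1
  have t3 : Filter.Tendsto (fun N : ℕ => 1 - ((N : ℝ) * ρ ^ N + ρ ^ N) + (N : ℝ) * ρ ^ N * ρ)
      Filter.atTop (nhds (1 - (0 + 0) + 0 * ρ)) :=
    (tendsto_const_nhds.sub (t1.add t2)).add (t1.mul_const ρ)
  have e : (1 - (0 + 0) + 0 * ρ : ℝ) = 1 := by ring
  rw [e] at t3
  refine t3.congr fun N => ?_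
  unfold hh
  ring

end WTL

/-- WTL: the weights. -/
theorem t_WTL : S_WTL := by
  intro ρ h0 h1 k
  refine ⟨fun L => ⟨?_, ?_⟩, ?_⟩
  · unfold wt
    refine Finset.sum_nonneg fun M hM => ?_
    have h2 : (k : ℝ) ≤ M := by exact_mod_cast (Finset.mem_Icc.1 hM).1
    have h3 : 0 ≤ (M : ℝ) + 1 - k := by linarith
    positivity
  · rw [WTL.wt_eq]
    have h2 := WTL.hh_le ρ h0 h1 (L + 1 - k)
    have h3 : 0 < ρ ^ k := pow_pos h0 k
    nlinarith
  · have h2 : Filter.Tendsto (fun L : ℕ => L + 1 - k) Filter.atTop Filter.atTop := by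
      rw [Filter.tendsto_atTop_atTop]
      intro b
      exact ⟨b + k, fun a ha => by omega⟩
    have h3 := ((WTL.hh_tendsto ρ h0 h1).comp h2).const_mul (ρ ^ k)
    rw [mul_one] at h3
    refine h3.congr fun L => ?_
    rw [WTL.wt_eq]
    rfl

end Pool.Agent.VIS
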