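import Pool.Agent.VIS.P_GAL
import Pool.Agent.VIS.P_INT
import Pool.Agent.VIS.P_FEJ
import Pool.Agent.VIS.P_MUL
import Pool.Agent.VIS.P_KER
import Pool.Agent.VIS.P_ENE
import Pool.Agent.VIS.P_ENS
import Pool.Agent.VIS.P_SLS
import Pool.Agent.VIS.P_SSB
import Pool.Agent.VIS.P_WTL
import Pool.Agent.VIS.P_MXF
import Pool.Agent.VIS.P_CSW
import Pool.Agent.VIS.P_LSL

/-!
# The part of large slopes: assembly
-/

set_option autoImplicit false

namespace Pool.Agent.VIS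

theorem f_INT : S_INT := t_INT t_GAL
theorem f_ENE : S_ENE := t_ENE f_INT t_MUL t_KER
theorem f_ENS : S_ENS := t_ENS f_INT t_MUL t_KER
theorem f_SSB : S_SSB := t_SSB t_FEJ f_ENE
theorem f_MXF : S_MXF := t_MXF t_FEJ t_WTL
theorem f_LSL : S_LSL := t_LSL f_ENS t_WTL f_MXF t_CSW

end Pool.Agent.VIS
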