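import Pool.Agent.VIS.St2

/-!
# VIS_DVH: divisibility of the coefficients of `HH`
-/

set_option autoImplicit false

namespace Pool.Agent.VIS

open Polynomial Finset Pool.Agent.VIR

namespace DVH

lemma dk (q : ℕ) : ∀ k i : ℕ, (q : ℤ) ^ ((k - i + 1) / 2) ∣ (Dk q k).coeff i := by
  intro k
  induction k using Nat.twoStepInduction with
  | zero =>
    intro i
    have : (0 - i + 1) / 2 = 0 := by omega
    rw [this, pow_zero]
    exact one_dvd _
  | one =>
    intro i
    rcases Nat.eq_zero_or_pos i with h | h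
    · subst h
      have : (Dk q 1).coeff 0 = 0 := by simp [Dk]
      rw [this]
      exact dvd_zero _
    · have : (1 - i + 1) / 2 = 0 := by omega
      rw [this, pow_zero]
      exact one_dvd _
  | more k ih0 ih1 =>
    intro i
    have h1 : (Dk q (k + 2)).coeff i =
        (X * Dk q (k + 1)).coeff i - (q : ℤ) * (Dk q k).coeff i := by
      rw [Dk, coeff_sub, coeff_C_mul]
    rw [h1]
    refine dvd_sub ?_ ?_
    · rcases Nat.eq_zero_or_pos i with h | h
      · subst h
        rw [coeff_X_mul_zero]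
        exact dvd_zero _
      · obtain ⟨i, rfl⟩ := Nat.exists_eq_add_of_le' h
        rw [coeff_X_mul]
        have : (k + 2 - (i + 1) + 1) / 2 = (k + 1 - i + 1) / 2 := by omega
        rw [this]
        exact ih1 i
    · have h2 : (q : ℤ) ^ ((k - i + 1) / 2 + 1) ∣ (q : ℤ) * (Dk q k).coeff i := by
        rw [pow_succ']
        exact mul_dvd_mul_left _ (ih0 i)
      exact (pow_dvd_pow _ (by omega)).trans h2

lemma cl_mono (m j : ℕ) {a b : ℕ} (h : a ≤ b) : cl m j a ≤ cl m j b := by
  unfold cl
  refine Nat.div_le_div_right ?_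
  have := Nat.mul_le_mul_left j h
  omega

lemma cl_add (m j a e : ℕ) (hm : 1 ≤ m) (hj : 2 * j ≤ m) :
    cl m j (a + e) ≤ cl m j a + (e + 1) / 2 := by
  unfold cl
  have h1 : j * e ≤ m * ((e + 1) / 2) := by
    have h2 : e ≤ 2 * ((e + 1) / 2) := by omega
    have h3 : 2 * j * e ≤ m * (2 * ((e + 1) / 2)) := Nat.mul_le_mul hj h2
    nlinarith
  have h2 : j * (a + e) + m - 1 ≤ (j * a + m - 1) + m * ((e + 1) / 2) := by
    rw [Nat.mul_add]
    omega
  calc (j * (a + e) + m - 1) / m ≤ ((j * a + m - 1) + m * ((e + 1) / 2)) / m :=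
        Nat.div_le_div_right h2
    _ = (j * a + m - 1) / m + (e + 1) / 2 := Nat.add_mul_div_left _ _ (by omega)

lemma cl_zero (m j : ℕ) (hm : 1 ≤ m) : cl m j 0 = 0 := by
  unfold cl
  rw [Nat.mul_zero, Nat.zero_add]
  exact Nat.div_eq_of_lt (by omega)

end DVH

open DVH in
theorem t_DVH : S_DVH := by
  intro q g K m j ℓ low hm hj hK hdeg hℓ hlow i hi
  have hℓ' : ∀ a : ℕ, a ≤ K → (q : ℤ) ^ cl m j a ∣ ℓ a := by
    intro a ha
    rcases Nat.eq_zero_or_pos a with h | h
    · subst h
      rw [cl_zero m j hm, pow_zero]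
      exact one_dvd _
    · exact hℓ a h ha
  rw [HH, coeff_add, finsetSum_coeff]
  refine dvd_add ?_ ?_
  · refine Finset.dvd_sum fun a ha => ?_
    have ha' : a ≤ K := by
      have := Finset.mem_range.1 ha
      omega
    rw [coeff_C_mul]
    rcases Nat.lt_or_ge (g - a) i with h | h
    · refine Dvd.dvd.mul_right ?_ _
      exact (pow_dvd_pow _ (cl_mono m j (by omega))).trans (hℓ' a ha')
    · have h1 : cl m j (g - i) ≤ cl m j a + (g - a - i + 1) / 2 := by
        have h2 := cl_add m j a (g - a - i) hm hj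
        have h3 : a + (g - a - i) = g - i := by omega
        rwa [h3] at h2
      refine (pow_dvd_pow _ h1).trans ?_
      rw [pow_add]
      exact mul_dvd_mul (hℓ' a ha') (dk q (g - a) i)
  · rcases Nat.lt_or_ge i (g - K) with h | h
    · exact hlow i h
    · rw [coeff_eq_zero_of_degree_lt (hdeg.trans_le (by exact_mod_cast h))]
      exact dvd_zero _

end Pool.Agent.VIS
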