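import Pool.Agent.VIS.St2
import Pool.Agent.VIR.P_FIN

/-!
# Virtual curves with large slopes: module FIH (existence)
-/

set_option autoImplicit false

namespace Pool.Agent.VIS

open Polynomial Finset Pool.Agent.VIR

theorem t_FIH (hDIK : VIR.S_DIK) (hMAH : S_MAH) (hROO : VIR.S_ROO) (hHOM : VIR.S_HOM)
    (hWEI : VIR.S_WEI) (hCNT : VIR.S_CNT) (hPSL : S_PSL) : S_FIH := by
  intro q m j c hq hm hj hc0 hc1 hc2
  obtain ⟨g₁, hg₁, hmain⟩ := hMAH q m j c hq hm hj hc0 hc1 hc2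
  refine ⟨g₁, fun g hg => ?_⟩
  obtain ⟨K, n, ℓ, low, hK1, hKg, hcn, h20, hlow, hinv, hdv, happ⟩ := hmain g hg
  have hl : ℓ 0 = 1 := FIN.ell_zero hinv
  obtain ⟨hmon, hdeg⟩ := FIN.HH_monic hDIK hKg hlow hl (q := q)
  have hs := one_lt_sqrt hq
  have hs0 : 0 < √(q : ℝ) := by linarith
  obtain ⟨θ, hθ⟩ := hROO q g 1 n ((HH q g K ℓ low).map (Int.castRingHom ℝ)) hq
    (hmon.map _) (by rw [hmon.natDegree_map]; exact hdeg) (by
      intro t
      have h1 := happ t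
      have h2 : ((HH q g K ℓ low).map (Int.castRingHom ℝ)).eval (2 * √(q : ℝ) * Real.cos t) =
          aeval (2 * √(q : ℝ) * Real.cos t) (HH q g K ℓ low) := by
        rw [eval_map, aeval_def]
        rfl
      rw [h2]
      refine lt_of_le_of_lt h1 ?_
      have h3 : AC 1 n (pt q t) ≠ 0 := by
        apply AC_ne_zero
        rw [norm_pt]
        exact inv_lt_one_of_one_lt₀ hs
      have h4 : 0 < √(q : ℝ) ^ g / ‖AC 1 n (pt q t)‖ :=
        div_pos (pow_pos hs0 g) (norm_pos_iff.2 h3)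
      have h5 : 2 * √(q : ℝ) ^ g / ‖AC 1 n (pt q t)‖ =
          √(q : ℝ) ^ g / ‖AC 1 n (pt q t)‖ + √(q : ℝ) ^ g / ‖AC 1 n (pt q t)‖ := by
        ring
      rw [h5]
      linarith)
  have hP := FIN.map_PP hHOM hθ (q := q)
  have hL := FIN.map_LL hHOM hθ (q := q)
  have hW := hWEI q g K ℓ low hKg hlow
  have hdvd : (X : ℤ[X]) ^ (K + 1) ∣ An 1 n * LL q g (HH q g K ℓ low) - 1 := by
    have e : An 1 n * LL q g (HH q g K ℓ low) - 1 =
        An 1 n * (LL q g (HH q g K ℓ low) - tr K ℓ) + (An 1 n * tr K ℓ - 1) := by ring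
    rw [e]
    exact dvd_add (Dvd.dvd.mul_left hW _) hinv
  obtain ⟨B, hB, hcount⟩ := hCNT q g 1 K n θ (LL q g (HH q g K ℓ low)) hq (by omega) hK1
    h20 hL hdvd
  refine ⟨θ, PP q g (HH q g K ℓ low), B, hP, hcount, hPSL q g m j _ hm hj.le hdv, ?_⟩
  have h1 := hB 1 (Finset.mem_Icc.2 ⟨le_rfl, le_rfl⟩)
  have h3 : ((n 1 + 1 : ℕ) : ℝ) ≤ B 1 := by exact_mod_cast h1
  push_cast at h3
  linarith

end Pool.Agent.VIS
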