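import Pool.Agent.VIS.St2

/-!
# GRN: growth of the parameters of the weighted construction
-/

set_option autoImplicit false

namespace Pool.Agent.VIS

open Finset

namespace GRN

theorem log_small (A B c η : ℝ) (hA : 0 ≤ A) (hc : 0 < c) (hη : 0 < η) :
    ∀ᶠ L : ℝ in Filter.atTop, B + A * Real.log (c * L + 1) ≤ η * L := by
  set ε := η / (2 * (A * c + 1)) with hε
  have hεp : 0 < ε := by positivity
  have h1 : ∀ᶠ x : ℝ in Filter.atTop, Real.log x ≤ ε * x := by
    have h := Real.isLittleO_log_id_atTop.bound hεp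
    filter_upwards [h, Filter.eventually_ge_atTop 1] with x hx hx1
    have h3 : |Real.log x| ≤ ε * |x| := by simpa using hx
    rw [abs_of_nonneg (by linarith : (0 : ℝ) ≤ x)] at h3
    exact (le_abs_self _).trans h3
  have h2 : Filter.Tendsto (fun L : ℝ => c * L + 1) Filter.atTop Filter.atTop :=
    Filter.tendsto_atTop_add_const_right _ _ (Filter.tendsto_id.const_mul_atTop hc)
  have h3 := h2.eventually h1
  filter_upwards [h3, Filter.eventually_ge_atTop (2 * (B + A * ε) / η),
    Filter.eventually_ge_atTop 0] with L hL hL2 hL0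
  have h4 : A * Real.log (c * L + 1) ≤ A * (ε * (c * L + 1)) := mul_le_mul_of_nonneg_left hL hA
  have h5 : 2 * (B + A * ε) ≤ η * L := by
    rw [div_le_iff₀ hη] at hL2
    linarith
  have h7 : A * (ε * (c * L)) ≤ η / 2 * L := by
    have : A * ε * c ≤ η / 2 := by
      rw [hε]
      have h8 : A * (η / (2 * (A * c + 1))) * c = (A * c) * η / (2 * (A * c + 1)) := by ring
      rw [h8, div_le_div_iff₀ (by positivity) (by norm_num)]
      nlinarith [mul_nonneg hA hc.le]
    calc A * (ε * (c * L)) = A * ε * c * L := by ring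
      _ ≤ η / 2 * L := mul_le_mul_of_nonneg_right this hL0
  nlinarith

end GRN

theorem t_GRN : S_GRN := by
  intro q m j g₁ δ D y hq hm hj hδ hy hy1
  have hq2 : (2 : ℝ) ≤ q := by exact_mod_cast hq
  set s := √(q : ℝ) with hs
  have hs1 : 1 < s := by
    rw [hs, Real.lt_sqrt (by norm_num)]
    linarith
  have hs0 : 0 < s := by linarith
  set ls := Real.log s with hls
  have hlp : 0 < ls := Real.log_pos hs1
  have hlq : Real.log q = 2 * ls := by
    rw [hls, hs, Real.log_sqrt (by linarith)]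
    ring
  have hL : Filter.Tendsto (fun g : ℕ => Real.log (g : ℝ)) Filter.atTop Filter.atTop :=
    Real.tendsto_log_atTop.comp tendsto_natCast_atTop_atTop
  have hK0 : Filter.Tendsto (fun g : ℕ => Real.log (20 * (g : ℝ)) / ls) Filter.atTop Filter.atTop := by
    refine Filter.Tendsto.atTop_div_const hlp ?_
    exact Real.tendsto_log_atTop.comp (tendsto_natCast_atTop_atTop.const_mul_atTop (by norm_num))
  have hK : Filter.Tendsto (fun g : ℕ => ⌈Real.log (20 * (g : ℝ)) / ls⌉₊) Filter.atTop Filter.atTop :=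
    tendsto_nat_ceil_atTop.comp hK0
  have e1 : ∀ᶠ g : ℕ in Filter.atTop, D * y ^ ⌈Real.log (20 * (g : ℝ)) / ls⌉₊ ≤ 1 := by
    have h1 : Filter.Tendsto (fun n : ℕ => D * y ^ n) Filter.atTop (nhds (D * 0)) :=
      (tendsto_pow_atTop_nhds_zero_of_lt_one hy.le hy1).const_mul D
    rw [mul_zero] at h1
    have h2 := (h1.comp hK).eventually (Iic_mem_nhds (show (0 : ℝ) < 1 by norm_num))
    filter_upwards [h2] with g hg
    exact hg
  have hm0 : (0 : ℝ) < m := by exact_mod_cast hm
  set r : ℝ := 2 * j / m with hr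
  have hr0 : 0 ≤ r := by positivity
  have hr1 : r < 1 := by
    rw [hr, div_lt_one hm0]
    exact_mod_cast hj
  set c : ℝ := 2 / ls with hc
  have hcp : 0 < c := by positivity
  have hl2 : 0 < Real.log 2 := Real.log_pos (by norm_num)
  have e2 := hL.eventually (GRN.log_small (2 * ls / Real.log 2)
    (r * (Real.log 20 + ls) + 4 * ls - Real.log δ) c (1 - r) (by positivity) hcp (by linarith))
  have e3 : ∀ᶠ g : ℕ in Filter.atTop, c * Real.log (g : ℝ) + 1 < g := by
    have hε : 0 < 1 / (2 * c) := by positivity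
    have h := (Real.isLittleO_log_id_atTop.bound hε)
    have h' := tendsto_natCast_atTop_atTop.eventually h (f := fun n : ℕ => (n : ℝ))
    filter_upwards [h', Filter.eventually_ge_atTop 3] with g hg hg3
    have hg3' : (3 : ℝ) ≤ g := by exact_mod_cast hg3
    have h3 : |Real.log g| ≤ 1 / (2 * c) * |(g : ℝ)| := by simpa using hg
    rw [abs_of_nonneg (by linarith : (0 : ℝ) ≤ g)] at h3
    have h4 : c * Real.log g ≤ c * (1 / (2 * c) * g) :=
      mul_le_mul_of_nonneg_left ((le_abs_self _).trans h3) hcp.le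
    have h5 : c * (1 / (2 * c) * g) = g / 2 := by field_simp
    rw [h5] at h4
    linarith
  obtain ⟨g₂, hg₂⟩ := Filter.eventually_atTop.1 (e1.and (e2.and e3))
  refine ⟨max g₂ (max g₁ 20), le_trans (by norm_num) (le_trans (le_max_right g₁ 20) (le_max_right _ _)),
    ?_⟩
  intro g hg
  have hgg : g₂ ≤ g := (le_max_left _ _).trans hg
  have hg1 : g₁ ≤ g := (le_max_left _ _).trans ((le_max_right _ _).trans hg)
  have hg20 : 20 ≤ g := (le_max_right _ _).trans ((le_max_right _ _).trans hg)
  have hg20' : (20 : ℝ) ≤ g := by exact_mod_cast hg20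
  have hg0 : (0 : ℝ) < g := by linarith
  obtain ⟨h1, h2, h3⟩ := hg₂ g hgg
  set K := ⌈Real.log (20 * (g : ℝ)) / ls⌉₊ with hKd
  set L := Real.log (g : ℝ) with hLd
  have hlog : Real.log (20 * (g : ℝ)) = Real.log 20 + L := by
    rw [hLd, Real.log_mul (by norm_num) (by linarith)]
  have hlog20 : Real.log 20 ≤ L := Real.log_le_log (by norm_num) hg20'
  have hlog20' : 0 < Real.log 20 := Real.log_pos (by norm_num)
  have hKge : Real.log (20 * (g : ℝ)) / ls ≤ K := Nat.le_ceil _
  have hKlt : (K : ℝ) < Real.log (20 * (g : ℝ)) / ls + 1 :=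
    Nat.ceil_lt_add_one (by rw [hlog]; exact div_nonneg (by linarith) hlp.le)
  have hK1 : 1 ≤ K := by
    rw [hKd, Nat.one_le_ceil_iff, hlog]
    exact div_pos (by linarith) hlp
  have hKls : (K : ℝ) * ls ≤ Real.log 20 + L + ls := by
    have := mul_le_mul_of_nonneg_right hKlt.le hlp.le
    rw [add_mul, div_mul_cancel₀ _ hlp.ne', hlog] at this
    linarith
  have hKL : (K : ℝ) ≤ c * L + 1 := by
    refine hKlt.le.trans ?_
    have : Real.log (20 * (g : ℝ)) / ls ≤ c * L := by
      rw [hc, div_mul_eq_mul_div, hlog]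
      exact div_le_div_of_nonneg_right (by linarith) hlp.le
    linarith
  have hKg : K < g := by
    have : (K : ℝ) < g := lt_of_le_of_lt hKL h3
    exact_mod_cast this
  refine ⟨K, Nat.log 2 K + 1, hg1, hK1, hKg, ?_, hKL, h1, Nat.lt_pow_succ_log_self (by norm_num) K, ?_⟩
  · have h4 : Real.log (20 * (g : ℝ)) ≤ K * ls := by
      rwa [div_le_iff₀ hlp] at hKge
    calc 20 * (g : ℝ) = Real.exp (Real.log (20 * (g : ℝ))) := (Real.exp_log (by positivity)).symm
      _ ≤ Real.exp (K * ls) := Real.exp_le_exp.2 h4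
      _ = s ^ K := by rw [Real.exp_nat_mul, hls, Real.exp_log hs0]
  · have hcl : (cl m j K : ℝ) ≤ j * K / m + 1 := by
      unfold cl
      refine Nat.cast_div_le.trans ?_
      rw [div_le_iff₀ hm0, add_mul, div_mul_cancel₀ _ hm0.ne']
      have : ((j * K + m - 1 : ℕ) : ℝ) ≤ ((j * K + m : ℕ) : ℝ) := by exact_mod_cast Nat.sub_le _ _
      push_cast at this
      linarith
    have ht : ((Nat.log 2 K : ℕ) : ℝ) * Real.log 2 ≤ Real.log K := by
      have h4 : 2 ^ Nat.log 2 K ≤ K := Nat.pow_log_le_self 2 (by omega)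
      have h5 : ((2 : ℝ)) ^ Nat.log 2 K ≤ K := by exact_mod_cast h4
      have h6 := Real.log_le_log (by positivity) h5
      rwa [Real.log_pow] at h6
    have hKlog : Real.log K ≤ Real.log (c * L + 1) :=
      Real.log_le_log (by exact_mod_cast hK1) hKL
    have hmain : ((cl m j K + (Nat.log 2 K + 1) : ℕ) : ℝ) * Real.log q ≤ Real.log δ + L := by
      rw [hlq]
      push_cast
      have h5 : (cl m j K : ℝ) * (2 * ls) ≤ r * (Real.log 20 + L + ls) + 2 * ls := by
        have h6 : (cl m j K : ℝ) * (2 * ls) ≤ (j * K / m + 1) * (2 * ls) :=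
          mul_le_mul_of_nonneg_right hcl (by positivity)
        have h7 : (j * K / m + 1 : ℝ) * (2 * ls) = r * (K * ls) + 2 * ls := by
          rw [hr]; ring
        have h8 : r * (K * ls) ≤ r * (Real.log 20 + L + ls) := mul_le_mul_of_nonneg_left hKls hr0
        linarith
      have h6 : ((Nat.log 2 K : ℕ) : ℝ) * (2 * ls) ≤ 2 * ls / Real.log 2 * Real.log (c * L + 1) := by
        have h7 : ((Nat.log 2 K : ℕ) : ℝ) ≤ Real.log (c * L + 1) / Real.log 2 := by
          rw [le_div_iff₀ hl2]
          exact ht.trans hKlog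
        calc ((Nat.log 2 K : ℕ) : ℝ) * (2 * ls) ≤ Real.log (c * L + 1) / Real.log 2 * (2 * ls) :=
              mul_le_mul_of_nonneg_right h7 (by positivity)
          _ = 2 * ls / Real.log 2 * Real.log (c * L + 1) := by ring
      nlinarith
    have hq0 : (0 : ℝ) < q := by linarith
    calc (q : ℝ) ^ (cl m j K + (Nat.log 2 K + 1))
        = Real.exp (((cl m j K + (Nat.log 2 K + 1) : ℕ) : ℝ) * Real.log q) := by
          rw [Real.exp_nat_mul, Real.exp_log hq0]
      _ ≤ Real.exp (Real.log δ + L) := Real.exp_le_exp.2 hmain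
      _ = δ * g := by rw [Real.exp_add, Real.exp_log hδ, hLd, Real.exp_log hg0]

end Pool.Agent.VIS
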