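import Pool.Agent.VIS.St2
import Pool.Agent.VIR.P_LOG

/-!
# Virtual curves with large slopes: module LOH (small monic polynomials with an explicit constant)
-/

set_option autoImplicit false

namespace Pool.Agent.VIS

open Polynomial Finset Pool.Agent.VIR

open VIR.LOG in
theorem t_LOH (hAPG : VIR.S_APG) (hH0 : VIR.S_H0) (hDIK : VIR.S_DIK) : S_LOH := by
  intro q R β c hq hβ hTh hc hcpo
  obtain ⟨g₁, hg₁, hapg⟩ := hAPG q R β 0 hq hβ hTh
  have hs1 : 1 < √(q : ℝ) := one_lt_sqrt hq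
  have hs0 : 0 < √(q : ℝ) := by linarith
  have hx0 : 0 ≤ (√(q : ℝ))⁻¹ := (inv_pos.2 hs0).le
  have hE0 := Real.exp_pos (∑ r ∈ Icc 1 R, Real.log (1 + (√(q : ℝ))⁻¹ ^ r))
  refine ⟨9 / 4 * Real.exp (∑ r ∈ Icc 1 R, Real.log (1 + (√(q : ℝ))⁻¹ ^ r)) +
    (2 * √(q : ℝ)) ^ g₁, by positivity, ?_⟩
  intro g n hn j hj
  obtain ⟨k, rfl⟩ := Nat.exists_eq_add_of_le hj.le
  have hkr : ((j + k : ℕ) : ℝ) - j = k := by push_cast; ring
  rw [hkr]
  have hexp : ∀ i : ℕ, Real.exp (i * (Real.log (√(q : ℝ)) - c)) =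
      √(q : ℝ) ^ i * Real.exp (-c * i) := by
    intro i
    rw [mul_sub, sub_eq_add_neg, Real.exp_add, Real.exp_nat_mul, Real.exp_log hs0]
    congr 2
    ring
  by_cases hjg : g₁ ≤ j
  · obtain ⟨Rp, hdeg, hdvd, hnorm⟩ := hapg j hjg (fun r => min (n r) ⌊β r * j⌋₊)
      (fun r _ => by
        push_cast
        exact (min_le_right _ _).trans (Nat.floor_le (mul_nonneg (hβ r) (Nat.cast_nonneg j)))) 0
      (by simp)
    have hj1 : 1 ≤ j := hg₁.trans hjg
    obtain ⟨h, heval, hlow⟩ := hH0 q j 0 Rp (by omega) (by omega) hdeg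
    have hR0 := coeff_one hdvd
    simp only [zero_add, range_one, sum_singleton, hR0, map_one, one_mul, Nat.sub_zero] at hlow
    obtain ⟨-, hmon, hnat, -⟩ := hDIK q j
    have hDm : ((Dk q j).map (Int.castRingHom ℝ)).Monic := (hmon hj1).map _
    have hDn : ((Dk q j).map (Int.castRingHom ℝ)).natDegree = j := by
      rw [(hmon hj1).natDegree_map, hnat]
    have hDd : ((Dk q j).map (Int.castRingHom ℝ)).degree = j := by
      rw [degree_eq_natDegree hDm.ne_zero, hDn]
    have hh : h = (Dk q j).map (Int.castRingHom ℝ) + (h - (Dk q j).map (Int.castRingHom ℝ)) := by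
      ring
    refine ⟨h, ?_, ?_, fun θ => ?_⟩
    · rw [hh]
      exact hDm.add_of_left (by rw [hDd]; exact hlow)
    · rw [hh, natDegree_add_eq_left_of_degree_lt (by rw [hDd]; exact hlow), hDn]
    · rw [heval θ]
      have hT : ‖pt q θ‖ = (√(q : ℝ))⁻¹ := norm_pt q θ
      have hn1 := hnorm (pt q θ) hT
      set m : ℕ → ℕ := fun r => min (n r) ⌊β r * j⌋₊ with hm
      have hsp := norm_split R n m (fun r _ => min_le_left _ _) (pt q θ)
      rw [hT] at hsp
      have hpr := prod_le_exp R hx0 (fun r => n r - m r) (fun r => β r * k + 1) (fun r hr => by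
        have h1 : m r ≤ n r := min_le_left _ _
        rw [Nat.cast_sub h1]
        have h2 := hn r hr
        push_cast at h2
        have h3 : 0 ≤ β r * k := mul_nonneg (hβ r) (Nat.cast_nonneg k)
        rcases min_choice (n r) ⌊β r * j⌋₊ with h4 | h4
        · have : m r = n r := h4
          rw [this]
          linarith
        · have : m r = ⌊β r * j⌋₊ := h4
          rw [this]
          have := Nat.lt_floor_add_one (β r * j)
          linarith)
      have hsum : ∑ r ∈ Icc 1 R, (β r * k + 1) * Real.log (1 + (√(q : ℝ))⁻¹ ^ r) ≤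
          k * (Real.log (√(q : ℝ)) - c) + ∑ r ∈ Icc 1 R, Real.log (1 + (√(q : ℝ))⁻¹ ^ r) := by
        have e1 : ∑ r ∈ Icc 1 R, (β r * k + 1) * Real.log (1 + (√(q : ℝ))⁻¹ ^ r) =
            k * ∑ r ∈ Icc 1 R, β r * Real.log (1 + (√(q : ℝ))⁻¹ ^ r) +
              ∑ r ∈ Icc 1 R, Real.log (1 + (√(q : ℝ))⁻¹ ^ r) := by
          rw [mul_sum, ← sum_add_distrib]
          exact sum_congr rfl fun r _ => by ring
        rw [e1]
        have := mul_le_mul_of_nonneg_left (show ∑ r ∈ Icc 1 R, β r *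
          Real.log (1 + (√(q : ℝ))⁻¹ ^ r) ≤ Real.log (√(q : ℝ)) - c by linarith)
          (Nat.cast_nonneg (α := ℝ) k)
        linarith
      have hpr2 := hpr.trans (Real.exp_le_exp.2 hsum)
      rw [Real.exp_add, hexp k] at hpr2
      set E := Real.exp (∑ r ∈ Icc 1 R, Real.log (1 + (√(q : ℝ))⁻¹ ^ r)) with hE
      have hre : |2 * √(q : ℝ) ^ j * (Complex.exp (j * θ * Complex.I) * aeval (pt q θ) Rp).re| ≤
          2 * √(q : ℝ) ^ j * ‖aeval (pt q θ) Rp‖ := by
        rw [abs_mul, abs_of_nonneg (by positivity)]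
        refine mul_le_mul_of_nonneg_left ?_ (by positivity)
        refine (Complex.abs_re_le_norm _).trans ?_
        rw [norm_mul, show (j : ℂ) * θ * Complex.I = ((j * θ : ℝ) : ℂ) * Complex.I by push_cast; ring,
          Complex.norm_exp_ofReal_mul_I, one_mul]
      have h98 : ‖AC R m (pt q θ)‖ * ‖aeval (pt q θ) Rp‖ ≤ 9 / 8 := by
        rw [← norm_mul]
        have := norm_add_le (AC R m (pt q θ) * aeval (pt q θ) Rp - 1) 1
        rw [sub_add_cancel, norm_one] at this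
        linarith
      have hP0 : 0 ≤ √(q : ℝ) ^ k * Real.exp (-c * k) * E := by positivity
      calc |2 * √(q : ℝ) ^ j * (Complex.exp (j * θ * Complex.I) * aeval (pt q θ) Rp).re| *
            ‖AC R n (pt q θ)‖
          ≤ (2 * √(q : ℝ) ^ j * ‖aeval (pt q θ) Rp‖) *
            (‖AC R m (pt q θ)‖ * (√(q : ℝ) ^ k * Real.exp (-c * k) * E)) := by
            refine mul_le_mul hre (hsp.trans ?_) (norm_nonneg _) (by positivity)
            exact mul_le_mul_of_nonneg_left hpr2 (norm_nonneg _)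
        _ = (‖AC R m (pt q θ)‖ * ‖aeval (pt q θ) Rp‖) *
            (2 * √(q : ℝ) ^ j * (√(q : ℝ) ^ k * Real.exp (-c * k) * E)) := by ring
        _ ≤ 9 / 8 * (2 * √(q : ℝ) ^ j * (√(q : ℝ) ^ k * Real.exp (-c * k) * E)) :=
            mul_le_mul_of_nonneg_right h98 (by positivity)
        _ = 9 / 4 * E * √(q : ℝ) ^ (j + k) * Real.exp (-c * k) := by
            rw [pow_add]
            ring
        _ ≤ (9 / 4 * E + (2 * √(q : ℝ)) ^ g₁) * √(q : ℝ) ^ (j + k) * Real.exp (-c * k) := by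
            have : 0 ≤ (2 * √(q : ℝ)) ^ g₁ := by positivity
            gcongr
            linarith
  · push Not at hjg
    refine ⟨X ^ j, monic_X_pow j, natDegree_X_pow j, fun θ => ?_⟩
    have hT : ‖pt q θ‖ = (√(q : ℝ))⁻¹ := norm_pt q θ
    have hsp := norm_split R n (fun _ => 0) (fun r _ => Nat.zero_le _) (pt q θ)
    rw [hT] at hsp
    have h1 : AC R (fun _ => 0) (pt q θ) = 1 := by simp [AC]
    rw [h1, norm_one, one_mul] at hsp
    have hpr := prod_le_exp R hx0 (fun r => n r - 0) (fun r => β r * (j + k : ℕ)) (fun r hr => by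
      rw [Nat.sub_zero]
      exact hn r hr)
    have hsum : ∑ r ∈ Icc 1 R, (β r * (j + k : ℕ)) * Real.log (1 + (√(q : ℝ))⁻¹ ^ r) ≤
        (j + k : ℕ) * (Real.log (√(q : ℝ)) - c) := by
      have e1 : ∑ r ∈ Icc 1 R, (β r * (j + k : ℕ)) * Real.log (1 + (√(q : ℝ))⁻¹ ^ r) =
          (j + k : ℕ) * ∑ r ∈ Icc 1 R, β r * Real.log (1 + (√(q : ℝ))⁻¹ ^ r) := by
        rw [mul_sum]
        exact sum_congr rfl fun r _ => by ring
      rw [e1]
      exact mul_le_mul_of_nonneg_left (by linarith) (Nat.cast_nonneg _)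
    have hpr2 := hsp.trans (hpr.trans (Real.exp_le_exp.2 hsum))
    rw [hexp (j + k)] at hpr2
    have hev : |(X ^ j : ℝ[X]).eval (2 * √(q : ℝ) * Real.cos θ)| ≤ (2 * √(q : ℝ)) ^ g₁ := by
      rw [eval_pow, eval_X, abs_pow]
      have h2 : |2 * √(q : ℝ) * Real.cos θ| ≤ 2 * √(q : ℝ) := by
        rw [abs_mul, abs_of_pos (by positivity : 0 < 2 * √(q : ℝ))]
        exact mul_le_of_le_one_right (by positivity) (Real.abs_cos_le_one θ)
      calc |2 * √(q : ℝ) * Real.cos θ| ^ j ≤ (2 * √(q : ℝ)) ^ j := by gcongr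
        _ ≤ (2 * √(q : ℝ)) ^ g₁ := pow_le_pow_right₀ (by linarith) hjg.le
    have hexp2 : Real.exp (-c * (j + k : ℕ)) ≤ Real.exp (-c * k) := by
      rw [Real.exp_le_exp]
      push_cast
      have : 0 ≤ c * j := by positivity
      linarith
    calc |(X ^ j : ℝ[X]).eval (2 * √(q : ℝ) * Real.cos θ)| * ‖AC R n (pt q θ)‖
        ≤ (2 * √(q : ℝ)) ^ g₁ * (√(q : ℝ) ^ (j + k) * Real.exp (-c * (j + k : ℕ))) :=
          mul_le_mul hev hpr2 (norm_nonneg _) (by positivity)
      _ ≤ (2 * √(q : ℝ)) ^ g₁ * (√(q : ℝ) ^ (j + k) * Real.exp (-c * k)) := by gcongr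
      _ ≤ _ := by
          rw [← mul_assoc]
          gcongr
          linarith

end Pool.Agent.VIS
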