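import Pool.Agent.VIS.St2
import Pool.Agent.VIR.P_MAI

/-!
# MAH: the main construction with large slopes
-/

set_option autoImplicit false

namespace Pool.Agent.VIS

open Polynomial Finset Pool.Agent.VIR

namespace MAH

theorem cl_mono (m j : ℕ) {a b : ℕ} (h : a ≤ b) : cl m j a ≤ cl m j b := by
  unfold cl
  apply Nat.div_le_div_right
  have := Nat.mul_le_mul_left j h
  omega

theorem cl_le (m j k : ℕ) (hm : 1 ≤ m) : (cl m j k : ℝ) ≤ j * k / m + 1 := by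
  unfold cl
  have h1 : (((j * k + m - 1) / m : ℕ) : ℝ) ≤ ((j * k + m - 1 : ℕ) : ℝ) / m := Nat.cast_div_le
  have h2 : ((j * k + m - 1 : ℕ) : ℝ) ≤ j * k + m := by
    have : j * k + m - 1 ≤ j * k + m := Nat.sub_le _ _
    exact_mod_cast this
  have hm0 : (0 : ℝ) < m := by exact_mod_cast hm
  calc (((j * k + m - 1) / m : ℕ) : ℝ) ≤ ((j * k + m - 1 : ℕ) : ℝ) / m := h1
    _ ≤ (j * k + m) / m := by gcongr
    _ = j * k / m + 1 := by field_simp

/-- a multiple of `N` between `c g` and `(c + δ) g` -/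
theorem mult (N g : ℕ) (c δ : ℝ) (hN : 1 ≤ N) (hc : 0 ≤ c) (hNg : (N : ℝ) ≤ δ * g) :
    c * g ≤ ((N * ⌈c * g / N⌉₊ : ℕ) : ℝ) ∧ ((N * ⌈c * g / N⌉₊ : ℕ) : ℝ) ≤ (c + δ) * g := by
  have hN0 : (0 : ℝ) < N := by exact_mod_cast hN
  have hx : 0 ≤ c * g / N := by positivity
  push_cast
  constructor
  · have h1 := Nat.le_ceil (c * g / N)
    have h2 := mul_le_mul_of_nonneg_left h1 hN0.le
    rwa [mul_div_cancel₀ _ hN0.ne'] at h2
  · have h1 := (Nat.ceil_lt_add_one hx).le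
    have h2 := mul_le_mul_of_nonneg_left h1 hN0.le
    have h3 : (N : ℝ) * (c * g / N + 1) = c * g + N := by
      rw [mul_add, mul_div_cancel₀ _ hN0.ne', mul_one]
    rw [h3] at h2
    linarith

end MAH

theorem t_MAH (hLOH : S_LOH) (hAPG : VIR.S_APG) (hH0 : VIR.S_H0) (hINV : VIR.S_INV)
    (hGRN : S_GRN) (hTOP : S_TOP) (hRNW : S_RNW) (hDVH : S_DVH) : S_MAH := by
  intro q m j c hq hm hj hc0 hcs hcl
  have hs : 1 < √(q : ℝ) := one_lt_sqrt hq
  have hs0 : 0 < √(q : ℝ) := by linarith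
  have hls : 0 < Real.log (√(q : ℝ)) := Real.log_pos hs
  have hl1 : 0 < Real.log (1 + (√(q : ℝ))⁻¹) := Real.log_pos (by
    have : 0 < (√(q : ℝ))⁻¹ := by positivity
    linarith)
  have hq0 : (0 : ℝ) < q := by positivity
  -- the auxiliary constant
  obtain ⟨c', hcc', hc's, hc'l⟩ : ∃ c' : ℝ, c < c' ∧ c' < √(q : ℝ) - 1 ∧
      c' * Real.log (1 + (√(q : ℝ))⁻¹) < (1 - 2 * j / m) * Real.log (√(q : ℝ)) := by
    have h1 : c < (1 - 2 * j / m) * Real.log (√(q : ℝ)) / Real.log (1 + (√(q : ℝ))⁻¹) := by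
      rwa [lt_div_iff₀ hl1]
    obtain ⟨c', h2, h3⟩ := exists_between (lt_min hcs h1)
    refine ⟨c', h2, h3.trans_le (min_le_left _ _), ?_⟩
    rw [← lt_div_iff₀ hl1]
    exact h3.trans_le (min_le_right _ _)
  have hc'0 : 0 ≤ c' := by linarith
  have hTh : Th q 1 (fun _ => c') < 1 := by
    unfold Th
    rw [Finset.Icc_self, Finset.sum_singleton, Nat.cast_one, one_mul, pow_one,
      div_lt_one (by linarith)]
    exact hc's
  have hjm : (0 : ℝ) ≤ 2 * j / m * Real.log (√(q : ℝ)) := by positivity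
  obtain ⟨D, hD, hlow⟩ := hLOH q 1 (fun _ => c')
    (Real.log (√(q : ℝ)) - c' * Real.log (1 + (√(q : ℝ))⁻¹)) hq (fun _ => hc'0) hTh
    (by nlinarith) (by
      rw [Finset.Icc_self, Finset.sum_singleton, pow_one]
      linarith)
  obtain ⟨g₁, hg₁, happ⟩ := hAPG q 1 (fun _ => c') (2 / Real.log (√(q : ℝ))) hq (fun _ => hc'0) hTh
  obtain ⟨κ, hκ⟩ : ∃ κ, κ = (1 - 2 * j / m) * Real.log (√(q : ℝ)) -
    c' * Real.log (1 + (√(q : ℝ))⁻¹) := ⟨_, rfl⟩
  have hκ0 : 0 < κ := by rw [hκ]; linarith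
  have hy0 : 0 < Real.exp (-κ) := Real.exp_pos _
  have hy1 : Real.exp (-κ) < 1 := by
    rw [Real.exp_lt_one_iff]
    linarith
  obtain ⟨g₂, hg₂, hgrn⟩ := hGRN q m j g₁ (c' - c) (4 * q * D / (1 - Real.exp (-κ)))
    (Real.exp (-κ)) hq hm hj (by linarith) hy0 hy1
  refine ⟨g₂, hg₂, fun g hg => ?_⟩
  obtain ⟨K, t, hgg₁, hK1, hKg, h20, hKc, hDK, hKt, hN⟩ := hgrn g hg
  have hN1 : 1 ≤ q ^ (cl m j K + t) := Nat.one_le_pow _ _ (by omega)
  obtain ⟨hnc, hnc'⟩ := MAH.mult (q ^ (cl m j K + t)) g c (c' - c) hN1 hc0 (by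
    rw [Nat.cast_pow]
    exact hN)
  have hdvdn : q ^ (cl m j K + t) ∣
      q ^ (cl m j K + t) * ⌈c * g / ((q ^ (cl m j K + t) : ℕ) : ℝ)⌉₊ := dvd_mul_right _ _
  generalize q ^ (cl m j K + t) * ⌈c * g / ((q ^ (cl m j K + t) : ℕ) : ℝ)⌉₊ = n1 at hnc hnc' hdvdn
  have hnβ : ∀ r ∈ Icc 1 1, (((fun _ => n1 : ℕ → ℕ) r : ℕ) : ℝ) ≤ (fun _ => c' : ℕ → ℝ) r * g := by
    intro r _
    have h1 : c + (c' - c) = c' := by ring
    rw [h1] at hnc'
    exact hnc'
  obtain ⟨n, hn⟩ : ∃ n : ℕ → ℕ, n = fun _ => n1 := ⟨_, rfl⟩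
  rw [← hn] at hnβ
  obtain ⟨Rp, hRdeg, hRdvd, hRapp⟩ := happ g hgg₁ n hnβ K hKc
  obtain ⟨h₀, hh₀, hh₀deg⟩ := hH0 q g K Rp (by omega) hKg hRdeg
  obtain ⟨ℓ, hℓ⟩ := hINV 1 n
  have hcoef : ∀ a ∈ range (K + 1), C (Rp.coeff a) * (Dk q (g - a)).map (Int.castRingHom ℝ) =
      C (ℓ a : ℝ) * (Dk q (g - a)).map (Int.castRingHom ℝ) := fun a ha => by
    rw [MAI.coeff_eq hRdvd (hℓ K) (Nat.lt_succ_iff.1 (mem_range.1 ha))]
  rw [Finset.sum_congr rfl hcoef] at hh₀deg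
  have htop : ∀ a : ℕ, 1 ≤ a → a ≤ K → (q : ℤ) ^ cl m j a ∣ ℓ a := fun a ha1 haK =>
    (pow_dvd_pow _ (MAH.cl_mono m j haK)).trans
      (hTOP q (cl m j K) t 1 K n ℓ hq hKt (fun r _ => by rw [hn]; exact hdvdn) (hℓ K) a ha1 haK)
  choose! p hpm hpd hpb using (fun i => hlow g n hnβ i)
  obtain ⟨δ, z, hδ, hzdeg, hzdvd, hz⟩ := hRNW (g - K) (fun i => q ^ cl m j (g - i)) p _
    (fun i => Nat.one_le_pow _ _ (by omega))
    (fun i hi => ⟨hpm i (by omega), hpd i (by omega)⟩) hh₀deg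
  refine ⟨K, n, ℓ, z, hK1, hKg, by rw [hn]; exact hnc, h20, hzdeg, hℓ K,
    hDVH q g K m j ℓ z hm hj.le hKg hzdeg htop (fun i _ => by
      have := hzdvd i
      push_cast at this
      exact this), fun θ => ?_⟩
  have hpt : ‖pt q θ‖ < 1 := by
    rw [norm_pt]
    exact inv_lt_one_of_one_lt₀ hs
  have hA0 : AC 1 n (pt q θ) ≠ 0 := AC_ne_zero 1 _ hpt
  have hA : 0 < ‖AC 1 n (pt q θ)‖ := norm_pos_iff.2 hA0
  have hsg : 0 < √(q : ℝ) ^ g := by positivity
  -- the value of the polynomial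
  have hval : aeval (2 * √(q : ℝ) * Real.cos θ) (HH q g K ℓ z) =
      2 * √(q : ℝ) ^ g * (Complex.exp (g * θ * Complex.I) * aeval (pt q θ) Rp).re -
        ∑ i ∈ range (g - K), δ i * ((q ^ cl m j (g - i) : ℕ) : ℝ) *
          (p i).eval (2 * √(q : ℝ) * Real.cos θ) := by
    have h1 := congrArg (Polynomial.eval (2 * √(q : ℝ) * Real.cos θ)) hz
    rw [eval_sub, eval_sub, hh₀ θ, eval_finsetSum, eval_finsetSum] at h1
    simp only [eval_mul, eval_C] at h1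
    have h2 : aeval (2 * √(q : ℝ) * Real.cos θ) (HH q g K ℓ z) =
        ∑ a ∈ range (K + 1), (ℓ a : ℝ) *
          eval (2 * √(q : ℝ) * Real.cos θ) ((Dk q (g - a)).map (Int.castRingHom ℝ)) +
        eval (2 * √(q : ℝ) * Real.cos θ) (z.map (Int.castRingHom ℝ)) := by
      have h3 : ∀ F : ℤ[X], aeval (2 * √(q : ℝ) * Real.cos θ) F =
          eval (2 * √(q : ℝ) * Real.cos θ) (F.map (Int.castRingHom ℝ)) := fun F => by
        rw [aeval_def, eval₂_eq_eval_map]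
        rfl
      rw [h3]
      unfold HH
      rw [Polynomial.map_add, Polynomial.map_sum, eval_add, eval_finsetSum]
      simp only [Polynomial.map_mul, Polynomial.map_C, eval_mul, eval_C, Int.coe_castRingHom]
    rw [h2]
    linear_combination -h1
  have b1 : |2 * √(q : ℝ) ^ g * (Complex.exp (g * θ * Complex.I) * aeval (pt q θ) Rp).re -
      2 * √(q : ℝ) ^ g * (Complex.exp (g * θ * Complex.I) / AC 1 n (pt q θ)).re| *
        ‖AC 1 n (pt q θ)‖ ≤ √(q : ℝ) ^ g / 4 := by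
    rw [← mul_sub, ← Complex.sub_re, abs_mul, abs_of_pos (by positivity)]
    have h1 : Complex.exp (g * θ * Complex.I) * aeval (pt q θ) Rp -
        Complex.exp (g * θ * Complex.I) / AC 1 n (pt q θ) =
        Complex.exp (g * θ * Complex.I) *
          ((AC 1 n (pt q θ) * aeval (pt q θ) Rp - 1) / AC 1 n (pt q θ)) := by
      field_simp
    have h2 : ‖Complex.exp (g * θ * Complex.I)‖ = 1 := by
      have : (g : ℂ) * θ * Complex.I = ((g * θ : ℝ) : ℂ) * Complex.I := by push_cast; ring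
      rw [this, Complex.norm_exp_ofReal_mul_I]
    have h3 : |(Complex.exp (g * θ * Complex.I) * aeval (pt q θ) Rp -
        Complex.exp (g * θ * Complex.I) / AC 1 n (pt q θ)).re| *
        ‖AC 1 n (pt q θ)‖ ≤ 1 / 8 := by
      refine (mul_le_mul_of_nonneg_right (Complex.abs_re_le_norm _) hA.le).trans ?_
      rw [h1, norm_mul, h2, one_mul, norm_div, div_mul_cancel₀ _ hA.ne']
      exact hRapp _ (norm_pt q θ)
    calc _ = 2 * √(q : ℝ) ^ g * (|(Complex.exp (g * θ * Complex.I) * aeval (pt q θ) Rp -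
        Complex.exp (g * θ * Complex.I) / AC 1 n (pt q θ)).re| *
        ‖AC 1 n (pt q θ)‖) := by ring
      _ ≤ 2 * √(q : ℝ) ^ g * (1 / 8) := mul_le_mul_of_nonneg_left h3 (by positivity)
      _ = √(q : ℝ) ^ g / 4 := by ring
  have hQ : ∀ i < g - K, ((q ^ cl m j (g - i) : ℕ) : ℝ) *
      Real.exp (-(Real.log (√(q : ℝ)) - c' * Real.log (1 + (√(q : ℝ))⁻¹)) * ((g : ℝ) - i)) ≤
      q * (Real.exp (-κ) ^ K * Real.exp (-κ) ^ (g - K - i)) := by
    intro i hi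
    have hq' : (q : ℝ) = Real.exp (2 * Real.log (√(q : ℝ))) := by
      rw [two_mul, Real.exp_add, Real.exp_log hs0, Real.mul_self_sqrt (by positivity)]
    have h1 : ((q ^ cl m j (g - i) : ℕ) : ℝ) =
        Real.exp ((cl m j (g - i) : ℝ) * (2 * Real.log (√(q : ℝ)))) := by
      rw [Real.exp_nat_mul, ← hq', Nat.cast_pow]
    have h2 : Real.exp (-κ) ^ K * Real.exp (-κ) ^ (g - K - i) = Real.exp (-κ * ((g : ℝ) - i)) := by
      rw [← pow_add, ← Real.exp_nat_mul]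
      have h3 : K + (g - K - i) = g - i := by omega
      rw [h3, Nat.cast_sub (by omega)]
      congr 1
      ring
    have h4 := MAH.cl_le m j (g - i) hm
    have h5 : ((g - i : ℕ) : ℝ) = (g : ℝ) - i := by
      rw [Nat.cast_sub (by omega)]
    rw [h5] at h4
    have h7 : (q : ℝ) * Real.exp (-κ * ((g : ℝ) - i)) =
        Real.exp (2 * Real.log (√(q : ℝ)) + -κ * ((g : ℝ) - i)) := by
      rw [Real.exp_add, ← hq']
    rw [h1, h2, h7, ← Real.exp_add, Real.exp_le_exp, hκ]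
    have h6 : (cl m j (g - i) : ℝ) * (2 * Real.log (√(q : ℝ))) ≤
        (j * ((g : ℝ) - i) / m + 1) * (2 * Real.log (√(q : ℝ))) :=
      mul_le_mul_of_nonneg_right h4 (by positivity)
    refine (add_le_add_left h6 _).trans (le_of_eq ?_)
    ring
  have b2 : |∑ i ∈ range (g - K), δ i * ((q ^ cl m j (g - i) : ℕ) : ℝ) *
      (p i).eval (2 * √(q : ℝ) * Real.cos θ)| * ‖AC 1 n (pt q θ)‖ ≤ √(q : ℝ) ^ g / 8 := by
    calc |∑ i ∈ range (g - K), δ i * ((q ^ cl m j (g - i) : ℕ) : ℝ) *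
          (p i).eval (2 * √(q : ℝ) * Real.cos θ)| * ‖AC 1 n (pt q θ)‖
        ≤ (∑ i ∈ range (g - K), |δ i * ((q ^ cl m j (g - i) : ℕ) : ℝ) *
          (p i).eval (2 * √(q : ℝ) * Real.cos θ)|) * ‖AC 1 n (pt q θ)‖ :=
          mul_le_mul_of_nonneg_right (Finset.abs_sum_le_sum_abs _ _) hA.le
      _ = ∑ i ∈ range (g - K), |δ i| * (((q ^ cl m j (g - i) : ℕ) : ℝ) *
          (|(p i).eval (2 * √(q : ℝ) * Real.cos θ)| * ‖AC 1 n (pt q θ)‖)) := by
          rw [Finset.sum_mul]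
          refine Finset.sum_congr rfl fun i _ => ?_
          rw [abs_mul, abs_mul, abs_of_nonneg (Nat.cast_nonneg (α := ℝ) (q ^ cl m j (g - i)))]
          ring
      _ ≤ ∑ i ∈ range (g - K), 1 / 2 * (D * √(q : ℝ) ^ g * (q * (Real.exp (-κ) ^ K *
          Real.exp (-κ) ^ (g - K - i)))) := by
          refine Finset.sum_le_sum fun i hi => ?_
          have hig := mem_range.1 hi
          refine mul_le_mul (hδ i) ?_ (by positivity) (by norm_num)
          have h1 := mul_le_mul_of_nonneg_left (hpb i (by omega) θ)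
            (Nat.cast_nonneg (α := ℝ) (q ^ cl m j (g - i)))
          refine h1.trans ?_
          have h2 := mul_le_mul_of_nonneg_left (hQ i hig)
            (by positivity : (0 : ℝ) ≤ D * √(q : ℝ) ^ g)
          refine le_trans (le_of_eq ?_) h2
          ring
      _ = √(q : ℝ) ^ g / 2 * (D * q * Real.exp (-κ) ^ K *
          ∑ i ∈ range (g - K), Real.exp (-κ) ^ (g - K - i)) := by
          rw [Finset.mul_sum, Finset.mul_sum]
          refine Finset.sum_congr rfl fun i _ => ?_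
          ring
      _ ≤ √(q : ℝ) ^ g / 2 * (D * q * Real.exp (-κ) ^ K * (1 / (1 - Real.exp (-κ)))) := by
          refine mul_le_mul_of_nonneg_left (mul_le_mul_of_nonneg_left
            (MAI.geom hy0 hy1 _) (by positivity)) (by positivity)
      _ = √(q : ℝ) ^ g / 8 * (4 * q * D / (1 - Real.exp (-κ)) * Real.exp (-κ) ^ K) := by
          ring
      _ ≤ √(q : ℝ) ^ g / 8 * 1 := mul_le_mul_of_nonneg_left hDK (by positivity)
      _ = √(q : ℝ) ^ g / 8 := by ring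
  rw [le_div_iff₀ hA, hval]
  have h7 : 2 * √(q : ℝ) ^ g * (Complex.exp (g * θ * Complex.I) * aeval (pt q θ) Rp).re -
        ∑ i ∈ range (g - K), δ i * ((q ^ cl m j (g - i) : ℕ) : ℝ) *
          (p i).eval (2 * √(q : ℝ) * Real.cos θ) -
      2 * √(q : ℝ) ^ g * (Complex.exp (g * θ * Complex.I) / AC 1 n (pt q θ)).re =
      (2 * √(q : ℝ) ^ g * (Complex.exp (g * θ * Complex.I) * aeval (pt q θ) Rp).re -
        2 * √(q : ℝ) ^ g * (Complex.exp (g * θ * Complex.I) / AC 1 n (pt q θ)).re) +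
      (-(∑ i ∈ range (g - K), δ i * ((q ^ cl m j (g - i) : ℕ) : ℝ) *
          (p i).eval (2 * √(q : ℝ) * Real.cos θ))) := by ring
  rw [h7]
  have h8 := abs_add_le (2 * √(q : ℝ) ^ g * (Complex.exp (g * θ * Complex.I) * aeval (pt q θ) Rp).re -
        2 * √(q : ℝ) ^ g * (Complex.exp (g * θ * Complex.I) / AC 1 n (pt q θ)).re)
    (-(∑ i ∈ range (g - K), δ i * ((q ^ cl m j (g - i) : ℕ) : ℝ) *
          (p i).eval (2 * √(q : ℝ) * Real.cos θ)))
  rw [abs_neg] at h8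
  have h10 := mul_le_mul_of_nonneg_right h8 hA.le
  have h11 : √(q : ℝ) ^ g / 4 + √(q : ℝ) ^ g / 8 ≤ √(q : ℝ) ^ g := by
    linarith
  refine (h10.trans (le_of_eq ?_)).trans ((add_le_add b1 b2).trans h11)
  ring

end Pool.Agent.VIS
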