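import Pool.Agent.VIS.St

/-!
# Slopes of virtual curves, module NWP: the Newton polygon and integrality
-/

set_option autoImplicit false

namespace Pool.Agent.VIS

open Polynomial Finset Pool.Agent.VIR

namespace NWP

/-- a scaled root of a monic integral polynomial with divisible coefficients is integral -/
theorem scaled (P : ℤ[X]) (w α : ℂ) (hP : P.Monic)
    (hroot : (P.map (Int.castRingHom ℂ)).eval α = 0)
    (hc : ∀ k, IsIntegral ℤ ((P.coeff k : ℂ) * w⁻¹ ^ (P.natDegree - k))) :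
    IsIntegral ℤ (w⁻¹ * α) := by
  set p : ℂ[X] := P.map (Int.castRingHom ℂ) with hp
  have hpm : p.Monic := hP.map _
  have hdeg : p.natDegree = P.natDegree := hP.natDegree_map _
  set r : ℂ[X] := p.scaleRoots w⁻¹ with hr
  have hrm : r.Monic := (monic_scaleRoots_iff w⁻¹).2 hpm
  have hr0 : r.eval (w⁻¹ * α) = 0 := by
    have h1 : p.eval₂ (RingHom.id ℂ) α = 0 := by
      rw [eval₂_id]
      exact hroot
    have h2 := scaleRoots_eval₂_eq_zero (RingHom.id ℂ) (s := w⁻¹) h1
    rw [RingHom.id_apply, eval₂_id] at h2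
    exact h2
  have hlift : r ∈ lifts (algebraMap (integralClosure ℤ ℂ) ℂ) := by
    rw [lifts_iff_coeff_lifts]
    intro k
    have h3 : IsIntegral ℤ (r.coeff k) := by
      rw [hr, coeff_scaleRoots, hdeg, hp, coeff_map]
      exact hc k
    exact ⟨⟨r.coeff k, h3⟩, rfl⟩
  obtain ⟨u, hu1, hu2, hu3⟩ := lifts_and_natDegree_eq_and_monic hlift hrm
  have h4 : IsIntegral (integralClosure ℤ ℂ) (w⁻¹ * α) := by
    refine ⟨u, hu3, ?_⟩
    rw [eval₂_eq_eval_map, hu1]
    exact hr0
  exact isIntegral_trans _ h4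

theorem al_quad (q : ℕ) (t : ℝ) :
    al q t ^ 2 - ((2 * √(q : ℝ) * Real.cos t : ℝ) : ℂ) * al q t + (q : ℂ) = 0 := by
  have h1 : ((√(q : ℝ) : ℝ) : ℂ) ^ 2 = (q : ℂ) := by
    rw [← Complex.ofReal_pow, Real.sq_sqrt (Nat.cast_nonneg q)]
    simp
  have h2 : Complex.exp (t * Complex.I) * Complex.exp (-t * Complex.I) = 1 := by
    rw [← Complex.exp_add]
    simp
  have h3 : ((2 * √(q : ℝ) * Real.cos t : ℝ) : ℂ) =
      ((√(q : ℝ) : ℝ) : ℂ) * (Complex.exp (t * Complex.I) + Complex.exp (-t * Complex.I)) := by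
    push_cast
    rw [Complex.cos]
    ring
  rw [h3, ← h1]
  unfold al
  linear_combination (-(((√(q : ℝ) : ℝ) : ℂ) ^ 2)) * h2

theorem monic_quad (a b : ℝ) : (X ^ 2 - C a * X + C b : ℝ[X]).Monic := by
  monicity!

theorem deg_quad (a b : ℝ) : (X ^ 2 - C a * X + C b : ℝ[X]).natDegree = 2 := by
  compute_degree!

theorem fp_monic {q g : ℕ} {θ : Fin g → ℝ} {P : ℤ[X]} (h : FP q g θ P) :
    P.Monic ∧ P.natDegree = 2 * g := by
  have hinj : Function.Injective (Int.castRingHom ℝ) := (Int.castRingHom ℝ).injective_int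
  have h1 : (P.map (Int.castRingHom ℝ)).Monic := by
    rw [h]
    exact monic_prod_of_monic _ _ fun i _ => monic_quad _ _
  have h2 : (P.map (Int.castRingHom ℝ)).natDegree = 2 * g := by
    rw [h, natDegree_prod_of_monic _ _ fun i _ => monic_quad _ _]
    rw [sum_congr rfl fun i _ => deg_quad _ _]
    simp [mul_comm]
  refine ⟨monic_of_injective hinj h1, ?_⟩
  rw [← h2, natDegree_map_eq_of_injective hinj]

theorem fp_root {q g : ℕ} {θ : Fin g → ℝ} {P : ℤ[X]} (h : FP q g θ P) (i : Fin g) :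
    (P.map (Int.castRingHom ℂ)).eval (al q (θ i)) = 0 := by
  have h1 : P.map (Int.castRingHom ℂ) =
      (P.map (Int.castRingHom ℝ)).map Complex.ofRealHom := by
    rw [Polynomial.map_map]
    congr 1
  rw [h1, h, Polynomial.map_prod, eval_prod]
  refine prod_eq_zero (mem_univ i) ?_
  have h2 := al_quad q (θ i)
  simpa [Polynomial.map_sub, Polynomial.map_add, Polynomial.map_mul, Polynomial.map_pow] using h2

end NWP

theorem t_NWP : S_NWP := by
  intro q g m j θ P hq hm hP hc i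
  obtain ⟨hmon, hdeg⟩ := NWP.fp_monic hP
  have hq0 : (0 : ℝ) ≤ (q : ℝ) ^ j := by positivity
  have hqne : (q : ℂ) ≠ 0 := by
    have : q ≠ 0 := by omega
    exact_mod_cast this
  have hm0 : m ≠ 0 := by omega
  obtain ⟨w, hw⟩ : ∃ w : ℂ, w ^ m = (q : ℂ) ^ j := by
    exact IsAlgClosed.exists_pow_nat_eq _ (by omega)
  have h1 : ∀ k, IsIntegral ℤ ((P.coeff k : ℂ) * w⁻¹ ^ (P.natDegree - k)) := by
    intro k
    rcases Nat.lt_or_ge (2 * g) k with hk | hk
    · rw [coeff_eq_zero_of_natDegree_lt (by rw [hdeg]; exact hk)]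
      simpa using isIntegral_zero
    · obtain ⟨n, hn⟩ := hc (2 * g - k) (by omega)
      have hkk : 2 * g - (2 * g - k) = k := by omega
      rw [hkk] at hn
      refine IsIntegral.of_pow (n := m) (by omega) ?_
      have h2 : ((P.coeff k : ℂ) * w⁻¹ ^ (P.natDegree - k)) ^ m = (n : ℂ) := by
        have h3 : ((P.coeff k : ℂ)) ^ m = ((q : ℂ)) ^ (j * (2 * g - k)) * (n : ℂ) := by
          exact_mod_cast hn
        have h7 : (w⁻¹ ^ (2 * g - k)) ^ m = ((q : ℂ) ^ (j * (2 * g - k)))⁻¹ := by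
          rw [← pow_mul, mul_comm (2 * g - k) m, pow_mul, inv_pow w m, hw, inv_pow, ← pow_mul]
        rw [mul_pow, h3, hdeg, h7]
        field_simp
      rw [h2]
      exact isIntegral_algebraMap (R := ℤ) (A := ℂ) (x := n)
  have h4 := NWP.scaled P w (al q (θ i)) hmon (NWP.fp_root hP i) h1
  have h5 := h4.pow m
  unfold SL
  have h6 : (w⁻¹ * al q (θ i)) ^ m = al q (θ i) ^ m / (q : ℂ) ^ j := by
    rw [mul_pow, inv_pow, hw]
    field_simp
  rw [← h6]
  exact h5

end Pool.Agent.VIS
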