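import Pool.Agent.VIS.St2

set_option autoImplicit false

namespace Pool.Agent.VIS.PSL

open Polynomial Finset Pool.Agent.VIR

theorem cl_step (m j a e : ℕ) (hm : 1 ≤ m) (hj : 2 * j ≤ m) : cl m j (a + 2 * e) ≤ cl m j a + e := by
  unfold cl
  have h1 : j * (a + 2 * e) + m - 1 ≤ (j * a + m - 1) + m * e := by
    have h2 : 2 * j * e ≤ m * e := Nat.mul_le_mul_right e hj
    have h3 : j * (a + 2 * e) = j * a + 2 * j * e := by ring
    omega
  calc (j * (a + 2 * e) + m - 1) / m ≤ ((j * a + m - 1) + m * e) / m := Nat.div_le_div_right h1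
    _ = (j * a + m - 1) / m + e := Nat.add_mul_div_left _ _ (by omega)

theorem cl_mul (m j k : ℕ) (hm : 1 ≤ m) : j * k ≤ cl m j k * m := by
  unfold cl
  have h1 := Nat.div_add_mod (j * k + m - 1) m
  have h2 := Nat.mod_lt (j * k + m - 1) (show 0 < m by omega)
  have h3 : (j * k + m - 1) / m * m = m * ((j * k + m - 1) / m) := by ring
  omega

theorem term (q g m j : ℕ) (c : ℤ) (hm : 1 ≤ m) (hj : 2 * j ≤ m) (i : ℕ) (hi : i ≤ g)
    (hc : (q : ℤ) ^ cl m j (g - i) ∣ c) (k : ℕ) (hk : k ≤ 2 * g) :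
    (q : ℤ) ^ cl m j k ∣ (C c * X ^ (g - i) * (X ^ 2 + C (q : ℤ)) ^ i : ℤ[X]).coeff (2 * g - k) := by
  rw [add_pow, Finset.mul_sum, finsetSum_coeff]
  apply Finset.dvd_sum
  intro u hu
  have hu' : u ≤ i := by
    have := Finset.mem_range.1 hu
    omega
  have e1 : (C c * X ^ (g - i) * ((X ^ 2) ^ u * C (q : ℤ) ^ (i - u) * ((i.choose u : ℕ) : ℤ[X])) : ℤ[X]) =
      C (c * (q : ℤ) ^ (i - u) * (i.choose u : ℤ)) * X ^ (g - i + 2 * u) := by
    simp only [map_mul, map_pow, map_natCast, pow_add, pow_mul]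
    ring
  rw [e1, coeff_C_mul, coeff_X_pow]
  by_cases hN : 2 * g - k = g - i + 2 * u
  · rw [if_pos hN, mul_one]
    have hk2 : k = (g - i) + 2 * (i - u) := by omega
    have h1 : cl m j k ≤ cl m j (g - i) + (i - u) := by
      conv_lhs => rw [hk2]
      exact cl_step m j (g - i) (i - u) hm hj
    refine Dvd.dvd.mul_right ?_ _
    refine dvd_trans (pow_dvd_pow (q : ℤ) h1) ?_
    rw [pow_add]
    exact mul_dvd_mul hc (dvd_refl _)
  · rw [if_neg hN, mul_zero]
    exact dvd_zero _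

end Pool.Agent.VIS.PSL

namespace Pool.Agent.VIS

open Polynomial Finset Pool.Agent.VIR

theorem t_PSL : S_PSL := by
  intro q g m j h hm hj hh k hk
  have h1 : (q : ℤ) ^ cl m j k ∣ (PP q g h).coeff (2 * g - k) := by
    unfold PP
    rw [finsetSum_coeff]
    apply Finset.dvd_sum
    intro i hi
    have hi' : i ≤ g := by
      have := Finset.mem_range.1 hi
      omega
    exact PSL.term q g m j (h.coeff i) hm hj i hi' (hh i hi') k hk
  refine dvd_trans (pow_dvd_pow (q : ℤ) (PSL.cl_mul m j k hm)) ?_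
  rw [pow_mul]
  exact pow_dvd_pow_of_dvd h1 m

end Pool.Agent.VIS
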