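import Pool.Agent.VIS.St

/-!
# SLB: large slopes, few points

The energy inequality for all the eigenvalues, with the counting relation of the first level.
-/

set_option autoImplicit false

namespace Pool.Agent.VIS

namespace SLB

open Finset Filter Topology Pool.Agent.VIR

theorem sum_shift (f : ℕ → ℝ) (N : ℕ) : ∑ n ∈ range N, f (n + 1) = ∑ n ∈ Icc 1 N, f n := by
  induction N with
  | zero => simp
  | succ N ih => rw [sum_range_succ, ih, sum_Icc_succ_top (by omega)]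

theorem pos_part (Y a c : ℝ) (hY : 0 ≤ Y) (ha : 0 ≤ a) (h : a ≤ Y → (Y - a) ^ 2 ≤ c) (hc : 0 ≤ c) :
    Y ^ 2 - 2 * a * Y ≤ c := by
  rcases le_total a Y with h1 | h1
  · have := h h1
    nlinarith [sq_nonneg a]
  · nlinarith [mul_nonneg hY (sub_nonneg.2 h1), mul_nonneg hY ha]

/-- the parameters -/
theorem params (q : ℕ) (hq : 2 ≤ q) (δ δ' : ℝ) (hδ : 0 < δ) (hδ' : 0 < δ') :
    ∃ r : ℝ, ∃ N : ℕ, 0 < r ∧ r < 1 ∧ 2 * Real.log (2 / (1 + r)) < δ' ∧
      -Real.log (1 - 1 / (q : ℝ)) - δ < ∑ n ∈ Icc 1 N, (r / q) ^ n / n := by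
  have hq2 : (2 : ℝ) ≤ q := by exact_mod_cast hq
  have hq0 : (0 : ℝ) < q := by linarith
  have c1 : ContinuousAt (fun r : ℝ => 2 * Real.log (2 / (1 + r))) 1 := by
    apply ContinuousAt.mul continuousAt_const
    apply ContinuousAt.log
    · apply ContinuousAt.div continuousAt_const
      · exact continuousAt_const.add continuousAt_id
      · norm_num
    · norm_num
  have c2 : ContinuousAt (fun r : ℝ => -Real.log (1 - r / q)) 1 := by
    apply ContinuousAt.neg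
    apply ContinuousAt.log
    · exact continuousAt_const.sub (continuousAt_id.div_const _)
    · have : 1 / (q : ℝ) < 1 := by rw [div_lt_one hq0]; linarith
      linarith
  have e1 : ∀ᶠ r in 𝓝[<] (1 : ℝ), 2 * Real.log (2 / (1 + r)) < δ' := by
    apply (c1.tendsto.mono_left nhdsWithin_le_nhds).eventually_lt_const
    norm_num
    exact hδ'
  have e2 : ∀ᶠ r in 𝓝[<] (1 : ℝ), -Real.log (1 - 1 / (q : ℝ)) - δ < -Real.log (1 - r / q) := by
    apply (c2.tendsto.mono_left nhdsWithin_le_nhds).eventually_const_lt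
    linarith
  have e3 : ∀ᶠ r in 𝓝[<] (1 : ℝ), (0 : ℝ) < r := by
    apply (tendsto_id.mono_left nhdsWithin_le_nhds).eventually_const_lt
    norm_num
  have e4 : ∀ᶠ r in 𝓝[<] (1 : ℝ), r < 1 := self_mem_nhdsWithin
  obtain ⟨r, hr1, hr2, hr3, hr4⟩ := (e1.and (e2.and (e3.and e4))).exists
  have hx : |r / q| < 1 := by
    rw [abs_of_pos (by positivity), div_lt_one hq0]
    linarith
  have hs := Real.hasSum_pow_div_log_of_abs_lt_one hx
  have ht := hs.tendsto_sum_nat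
  obtain ⟨N, hN⟩ := (ht.eventually_const_lt hr2).exists
  refine ⟨r, N, hr3, hr4, hr1, ?_⟩
  rw [← sum_shift]
  refine lt_of_lt_of_eq hN ?_
  apply sum_congr rfl
  intro n _
  push_cast
  rfl

/-- the lower bound for the square of a power sum -/
theorem term_bound {q g : ℕ} {θ : Fin g → ℝ} {B : ℕ → ℕ} (hq : 2 ≤ q) (hB : Count q g θ B) (n : ℕ)
    (hn : 1 ≤ n) :
    (B 1 : ℝ) ^ 2 - 2 * ((q : ℝ) ^ n + 1) * B 1 ≤ 4 * (q : ℝ) ^ n * (∑ i, Real.cos (n * θ i)) ^ 2 := by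
  have hq2 : (2 : ℝ) ≤ q := by exact_mod_cast hq
  have hq0 : (0 : ℝ) < q := by linarith
  have hs : √(q : ℝ) ^ n * √(q : ℝ) ^ n = (q : ℝ) ^ n := by
    rw [← mul_pow, Real.mul_self_sqrt hq0.le]
  have h1 := hB n hn
  have h2 : (B 1 : ℝ) ≤ ((∑ d ∈ n.divisors, d * B d : ℕ) : ℝ) := by
    have h3 : 1 ∈ n.divisors := Nat.mem_divisors.2 ⟨one_dvd _, by omega⟩
    have h4 := single_le_sum (f := fun d => d * B d) (fun _ _ => Nat.zero_le _) h3
    have h5 : B 1 ≤ ∑ d ∈ n.divisors, d * B d := by simpa using h4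
    exact_mod_cast h5
  have h3 : ∑ i, 2 * √(q : ℝ) ^ n * Real.cos (n * θ i) =
      2 * √(q : ℝ) ^ n * ∑ i, Real.cos (n * θ i) := by rw [mul_sum]
  rw [h3] at h1
  set c := ∑ i, Real.cos (n * θ i) with hc
  set M := ((∑ d ∈ n.divisors, d * B d : ℕ) : ℝ) with hM
  apply pos_part _ _ _ (Nat.cast_nonneg _) (by positivity)
  · intro h4
    have h5 : 4 * (q : ℝ) ^ n * c ^ 2 = (M - ((q : ℝ) ^ n + 1)) ^ 2 := by
      have h6 : M - ((q : ℝ) ^ n + 1) = -(2 * √(q : ℝ) ^ n * c) := by rw [h1]; ring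
      rw [h6, ← hs]
      ring
    rw [h5]
    apply pow_le_pow_left₀ (by linarith)
    linarith
  · positivity

end SLB

open Finset SLB Pool.Agent.VIR in
theorem t_SLB (hENE : S_ENE) : S_SLB := by
  intro q m j ε hq hm hj hε
  have hq2 : (2 : ℝ) ≤ q := by exact_mod_cast hq
  have hq0 : (0 : ℝ) < q := by linarith
  have hm0 : (0 : ℝ) < m := by exact_mod_cast hm
  have hmj : (0 : ℝ) ≤ 1 - 2 * j / m := by
    rw [sub_nonneg, div_le_one hm0]
    exact_mod_cast hj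
  have hlq : 0 < Real.log (q : ℝ) := Real.log_pos (by linarith)
  have hL : 0 < -Real.log (1 - 1 / (q : ℝ)) := by
    have h1 : 1 / (q : ℝ) < 1 := by rw [div_lt_one hq0]; linarith
    have h2 : 0 < 1 / (q : ℝ) := by positivity
    have := Real.log_neg (by linarith : 0 < 1 - 1 / (q : ℝ)) (by linarith)
    linarith
  set L := -Real.log (1 - 1 / (q : ℝ)) with hLdef
  set T := (1 - 2 * (j : ℝ) / m) * Real.log q / L with hTdef
  have hT : 0 ≤ T := by positivity
  have hTL : T * L = (1 - 2 * (j : ℝ) / m) * Real.log q := by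
    rw [hTdef]; field_simp
  obtain ⟨r, N, hr0, hr1, hlog, hsum⟩ := params q hq (ε * L / (2 * (T + ε))) (ε * L / 8)
    (by positivity) (by positivity)
  obtain ⟨g₀, hg₀⟩ := hENE q m j r (ε * L / 16) hq hm hj hr0 hr1 (by positivity)
  -- the constant of the linear term
  set CN := ∑ n ∈ Icc 1 N, (r / q) ^ n / n * ((q : ℝ) ^ n + 1) with hCN
  have hCN0 : 0 ≤ CN := by
    apply sum_nonneg
    intro n _
    positivity
  refine ⟨max (max g₀ 1) (⌈CN * (2 * √(q : ℝ) + q + 1) / (ε * L / 16)⌉₊), ?_⟩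
  intro g hg θ P B hP hB hS
  have hgg : g₀ ≤ g := le_trans (le_trans (le_max_left _ _) (le_max_left _ _)) hg
  have hg1 : 1 ≤ g := le_trans (le_trans (le_max_right _ _) (le_max_left _ _)) hg
  have hg2 : CN * (2 * √(q : ℝ) + q + 1) / (ε * L / 16) ≤ g :=
    le_trans (Nat.le_ceil _) (by exact_mod_cast le_trans (le_max_right _ _) hg)
  have hg1' : (1 : ℝ) ≤ g := by exact_mod_cast hg1
  have hE := hg₀ g hgg θ P B univ hP hB (fun i => ⟨fun _ => hS i, fun _ => mem_univ i⟩) N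
  set Y := (B 1 : ℝ) with hY
  have hY0 : 0 ≤ Y := Nat.cast_nonneg _
  -- the upper bound for `B 1`
  have hYup : Y ≤ (2 * √(q : ℝ) + q + 1) * g := by
    have h1 := hB 1 le_rfl
    have h2 : ((∑ d ∈ (1 : ℕ).divisors, d * B d : ℕ) : ℝ) = Y := by simp [hY]
    rw [h2] at h1
    have h3 : -∑ i, 2 * √(q : ℝ) ^ 1 * Real.cos ((1 : ℕ) * θ i) ≤ 2 * √(q : ℝ) * g := by
      rw [← sum_neg_distrib]
      calc ∑ i, -(2 * √(q : ℝ) ^ 1 * Real.cos ((1 : ℕ) * θ i)) ≤ ∑ _i : Fin g, 2 * √(q : ℝ) := by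
            apply sum_le_sum
            intro i _
            have := Real.neg_one_le_cos ((1 : ℕ) * θ i)
            have h4 : 0 ≤ √(q : ℝ) := Real.sqrt_nonneg _
            rw [pow_one]
            nlinarith
        _ = 2 * √(q : ℝ) * g := by
            rw [sum_const, card_univ, Fintype.card_fin, nsmul_eq_mul]; ring
    rw [h1, pow_one]
    have h5 : (q : ℝ) + 1 ≤ (q + 1) * g := by
      have : 0 ≤ ((q : ℝ) + 1) * (g - 1) := mul_nonneg (by linarith) (by linarith)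
      linarith
    nlinarith [h3, h5]
  -- the lower bound for the energy
  have hlow : (∑ n ∈ Icc 1 N, (r / q) ^ n / n) / 2 * Y ^ 2 - CN * Y ≤
      ∑ n ∈ Icc 1 N, 2 * r ^ n / n * (∑ i ∈ univ, Real.cos (n * θ i)) ^ 2 := by
    rw [hCN, div_mul_eq_mul_div, sum_mul, sum_mul, sum_div, ← sum_sub_distrib]
    apply sum_le_sum
    intro n hn
    have hn1 : 1 ≤ n := (mem_Icc.1 hn).1
    have hn0 : (0 : ℝ) < n := by exact_mod_cast hn1
    have h1 := term_bound hq hB n hn1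
    have hqn : (0 : ℝ) < (q : ℝ) ^ n := by positivity
    have h2 : 2 * r ^ n / n * (∑ i, Real.cos (n * θ i)) ^ 2 =
        (r / q) ^ n / n / 2 * (4 * (q : ℝ) ^ n * (∑ i, Real.cos (n * θ i)) ^ 2) := by
      rw [div_pow]
      field_simp
      ring
    rw [h2]
    have h3 : (r / q) ^ n / n * Y ^ 2 / 2 - (r / q) ^ n / n * ((q : ℝ) ^ n + 1) * Y =
        (r / q) ^ n / n / 2 * (Y ^ 2 - 2 * ((q : ℝ) ^ n + 1) * Y) := by ring
    rw [h3]
    exact mul_le_mul_of_nonneg_left h1 (by positivity)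
  -- the linear term
  have hlin : CN * Y ≤ ε * L / 16 * (g : ℝ) ^ 2 := by
    have h1 : CN * Y ≤ CN * ((2 * √(q : ℝ) + q + 1) * g) := mul_le_mul_of_nonneg_left hYup hCN0
    have h2 : CN * (2 * √(q : ℝ) + q + 1) ≤ g * (ε * L / 16) := by
      rwa [div_le_iff₀ (by positivity)] at hg2
    have h3 : CN * ((2 * √(q : ℝ) + q + 1) * g) ≤ g * (ε * L / 16) * g := by
      rw [← mul_assoc]
      exact mul_le_mul_of_nonneg_right h2 (by linarith)
    calc CN * Y ≤ g * (ε * L / 16) * g := h1.trans h3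
      _ = ε * L / 16 * (g : ℝ) ^ 2 := by ring
  have hlogs : Real.log (√(q : ℝ)) = Real.log q / 2 := Real.log_sqrt hq0.le
  rw [hlogs] at hE
  have hg2' : (0 : ℝ) < (g : ℝ) ^ 2 := by positivity
  -- combine
  have hmain : (∑ n ∈ Icc 1 N, (r / q) ^ n / n) / 2 * Y ^ 2 ≤
      (T * L / 2 + ε * L / 4) * (g : ℝ) ^ 2 := by
    have h1 : (∑ n ∈ Icc 1 N, (r / q) ^ n / n) / 2 * Y ^ 2 ≤
        ((1 - 2 * (j : ℝ) / m) * (Real.log q / 2) + 2 * Real.log (2 / (1 + r)) + ε * L / 16) *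
          (g : ℝ) ^ 2 + ε * L / 16 * (g : ℝ) ^ 2 := by linarith
    have h2 : ((1 - 2 * (j : ℝ) / m) * (Real.log q / 2) + 2 * Real.log (2 / (1 + r)) + ε * L / 16) *
          (g : ℝ) ^ 2 ≤ (T * L / 2 + ε * L / 8 + ε * L / 16) * (g : ℝ) ^ 2 := by
      apply mul_le_mul_of_nonneg_right _ hg2'.le
      have : (1 - 2 * (j : ℝ) / m) * (Real.log q / 2) = T * L / 2 := by rw [hTL]; ring
      linarith
    calc _ ≤ _ := h1
      _ ≤ (T * L / 2 + ε * L / 8 + ε * L / 16) * (g : ℝ) ^ 2 + ε * L / 16 * (g : ℝ) ^ 2 := by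
          linarith
      _ = (T * L / 2 + ε * L / 4) * (g : ℝ) ^ 2 := by ring
  have hTε : 0 < T + ε := by linarith
  set A := ∑ n ∈ Icc 1 N, (r / (q : ℝ)) ^ n / n with hA
  have hA2 : T * L / 2 + ε * L / 4 ≤ A / 2 * (T + ε) := by
    have h1 : (L - ε * L / (2 * (T + ε))) * (T + ε) ≤ A * (T + ε) :=
      mul_le_mul_of_nonneg_right hsum.le hTε.le
    have h2 : (L - ε * L / (2 * (T + ε))) * (T + ε) = L * (T + ε) - ε * L / 2 := by
      field_simp
    rw [h2] at h1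
    nlinarith [h1]
  have hApos : 0 < A / 2 := by
    have h1 : 0 < A / 2 * (T + ε) := lt_of_lt_of_le (by positivity) hA2
    exact (pos_iff_pos_of_mul_pos h1).2 hTε
  have hfin : A / 2 * Y ^ 2 ≤ A / 2 * ((T + ε) * (g : ℝ) ^ 2) := by
    calc A / 2 * Y ^ 2 ≤ (T * L / 2 + ε * L / 4) * (g : ℝ) ^ 2 := hmain
      _ ≤ A / 2 * (T + ε) * (g : ℝ) ^ 2 := mul_le_mul_of_nonneg_right hA2 hg2'.le
      _ = A / 2 * ((T + ε) * (g : ℝ) ^ 2) := by ring
  exact le_of_mul_le_mul_left hfin hApos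

end Pool.Agent.VIS
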