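import Pool.Agent.VIS.St4

/-!
# Slopes of virtual curves: large slopes, all the numbers of points
-/

set_option autoImplicit false

namespace Pool.Agent.VIS

open Polynomial Finset Filter Topology Pool.Agent.VIR

namespace SLN

/-- the constant in the energy inequality -/
noncomputable def ff (a : ℝ) (N : ℕ) (r : ℝ) : ℝ :=
  2 / r ^ N * (a / 2 + 2 * Real.log (2 / (1 + r)) + (1 - r))

lemma choose_r (a : ℝ) (N : ℕ) (e : ℝ) (he : 0 < e) :
    ∃ r : ℝ, 0 < r ∧ r < 1 ∧ ff a N r < a + e := by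
  have hc : ContinuousAt (ff a N) 1 := by
    unfold ff
    apply ContinuousAt.mul
    · apply ContinuousAt.div continuousAt_const (by fun_prop) (by norm_num)
    · apply ContinuousAt.add
      · apply ContinuousAt.add continuousAt_const
        apply ContinuousAt.mul continuousAt_const
        apply ContinuousAt.log
        · apply ContinuousAt.div continuousAt_const (by fun_prop) (by norm_num)
        · norm_num
      · fun_prop
  have h1 : ff a N 1 = a := by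
    unfold ff
    norm_num
    ring
  have h2 : ∀ᶠ r in 𝓝[<] (1 : ℝ), ff a N r < a + e :=
    (hc.tendsto.eventually_lt_const (by rw [h1]; linarith)).filter_mono nhdsWithin_le_nhds
  have h3 : ∀ᶠ r in 𝓝[<] (1 : ℝ), 0 < r :=
    (eventually_gt_nhds (by norm_num)).filter_mono nhdsWithin_le_nhds
  obtain ⟨r, hr1, hr2, hr3⟩ := (h2.and (h3.and self_mem_nhdsWithin)).exists
  exact ⟨r, hr2, hr3, hr1⟩

/-- one term -/
lemma term_le {s Q n r v C Y : ℝ} (hs : 0 < s) (hQ : 0 < Q) (hn : 0 < n) (hr : 0 ≤ v) (hv : v ≤ r)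
    (hr1 : r ≤ 1) (hsq : s ^ 2 = Q) (hC : C = (Q + 1 - Y) / (2 * s)) (hY : 0 ≤ Y) {g : ℝ}
    (hg : Y ≤ Q + 1 + 2 * g * s) :
    v / 2 * (Y ^ 2 / (n * Q)) ≤
      2 * r / n * C ^ 2 + ((Q + 1) ^ 2 / (n * Q) + 2 * (Q + 1) * s / (n * Q) * g) := by
  have h1 : C ^ 2 = (Q + 1 - Y) ^ 2 / (4 * Q) := by
    rw [hC, div_pow, mul_pow, hsq]
    norm_num
  have hr0 : 0 ≤ r := hr.trans hv
  rw [h1]
  have h2 : 2 * r / n * ((Q + 1 - Y) ^ 2 / (4 * Q)) = r / 2 * ((Q + 1 - Y) ^ 2 / (n * Q)) := by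
    field_simp
    ring
  have h3 : (Q + 1) ^ 2 / (n * Q) + 2 * (Q + 1) * s / (n * Q) * g =
      (Q + 1) * (Q + 1 + 2 * g * s) / (n * Q) := by
    field_simp
  rw [h2, h3]
  have hnQ : 0 < n * Q := by positivity
  have h4 : v / 2 * (Y ^ 2 / (n * Q)) ≤ r / 2 * (Y ^ 2 / (n * Q)) :=
    mul_le_mul_of_nonneg_right (by linarith) (by positivity)
  refine h4.trans ?_
  have h5 : r / 2 * (Y ^ 2 / (n * Q)) - r / 2 * ((Q + 1 - Y) ^ 2 / (n * Q)) ≤
      (Q + 1) * (Q + 1 + 2 * g * s) / (n * Q) := by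
    rw [← mul_sub, ← sub_div, ← mul_div_assoc]
    apply div_le_div_of_nonneg_right _ hnQ.le
    have h6 : Y ^ 2 - (Q + 1 - Y) ^ 2 = (Q + 1) * (2 * Y - (Q + 1)) := by ring
    rw [h6]
    have h7 : r / 2 * ((Q + 1) * (2 * Y - (Q + 1))) ≤ r * ((Q + 1) * Y) := by
      nlinarith [mul_nonneg hr0 (by positivity : 0 ≤ (Q + 1) ^ 2)]
    have h8 : r * ((Q + 1) * Y) ≤ 1 * ((Q + 1) * Y) :=
      mul_le_mul_of_nonneg_right hr1 (by positivity)
    have h9 : (Q + 1) * Y ≤ (Q + 1) * (Q + 1 + 2 * g * s) :=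
      mul_le_mul_of_nonneg_left hg (by positivity)
    linarith
  linarith

end SLN

theorem t_SLN (hENE : S_ENE) : S_SLN := by
  intro q m j N ε hq hm hj hε
  set a : ℝ := (1 - 2 * (j : ℝ) / m) * Real.log q with ha
  have hs1 : 1 < √(q : ℝ) := one_lt_sqrt hq
  have hq0 : (0 : ℝ) < q := by
    have : 0 < q := by omega
    exact_mod_cast this
  obtain ⟨r, hr0, hr1, hr⟩ := SLN.choose_r a N (ε / 2) (by positivity)
  obtain ⟨g₁, hg₁⟩ := hENE q m j r (1 - r) hq hm hj hr0 hr1 (by linarith)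
  set A : ℝ := ∑ n ∈ Icc 1 N, ((q : ℝ) ^ n + 1) ^ 2 / (n * (q : ℝ) ^ n) with hA
  set A' : ℝ := ∑ n ∈ Icc 1 N, 2 * ((q : ℝ) ^ n + 1) * √(q : ℝ) ^ n / (n * (q : ℝ) ^ n) with hA'
  have hA0 : 0 ≤ A := sum_nonneg fun n _ => by positivity
  have hA'0 : 0 ≤ A' := sum_nonneg fun n _ => by positivity
  obtain ⟨g₂, hg₂⟩ := exists_nat_ge (2 / r ^ N * (A + A') / (ε / 2))
  refine ⟨max (max g₁ g₂) 1, fun g hg θ P B hP hB hS => ?_⟩
  have hgg1 : g₁ ≤ g := (le_max_left _ _).trans ((le_max_left _ _).trans hg)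
  have hgg2 : (g₂ : ℝ) ≤ g := by
    exact_mod_cast (le_max_right _ _).trans ((le_max_left _ _).trans hg)
  have hg1 : (1 : ℝ) ≤ g := by exact_mod_cast (le_max_right _ _).trans hg
  have hE := hg₁ g hgg1 θ P B univ hP hB (fun i => ⟨fun _ => hS i, fun _ => mem_univ i⟩) N
  have hrN : 0 < r ^ N := pow_pos hr0 N
  have hterm : ∀ n ∈ Icc 1 N,
      r ^ N / 2 * (((∑ d ∈ n.divisors, d * B d : ℕ) : ℝ) ^ 2 / (n * (q : ℝ) ^ n)) ≤
      2 * r ^ n / n * (∑ i, Real.cos (n * θ i)) ^ 2 +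
        (((q : ℝ) ^ n + 1) ^ 2 / (n * (q : ℝ) ^ n) +
          2 * ((q : ℝ) ^ n + 1) * √(q : ℝ) ^ n / (n * (q : ℝ) ^ n) * g) := by
    intro n hn
    have hn1 := (mem_Icc.1 hn).1
    have hnN := (mem_Icc.1 hn).2
    have hnpos : (0 : ℝ) < n := by exact_mod_cast hn1
    have hs0 : 0 < √(q : ℝ) ^ n := by positivity
    have hc := hB n hn1
    rw [← mul_sum] at hc
    have hcos : |∑ i, Real.cos (n * θ i)| ≤ g := by
      refine (abs_sum_le_sum_abs _ _).trans ?_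
      refine (sum_le_sum fun i _ => Real.abs_cos_le_one (n * θ i)).trans ?_
      simp
    refine SLN.term_le (s := √(q : ℝ) ^ n) (Q := (q : ℝ) ^ n) (r := r ^ n) hs0 (by positivity) hnpos
      hrN.le (pow_le_pow_of_le_one hr0.le hr1.le hnN) (pow_le_one₀ hr0.le hr1.le) ?_ ?_ ?_ ?_
    · rw [← pow_mul, mul_comm n 2, pow_mul, Real.sq_sqrt hq0.le]
    · rw [hc]
      field_simp
      ring
    · positivity
    · rw [hc]
      have h2 := neg_abs_le (∑ i, Real.cos (n * θ i))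
      nlinarith
  have hsum := sum_le_sum hterm
  rw [← mul_sum, sum_add_distrib, sum_add_distrib, ← sum_mul, ← hA, ← hA'] at hsum
  set T : ℝ := ∑ n ∈ Icc 1 N, ((∑ d ∈ n.divisors, d * B d : ℕ) : ℝ) ^ 2 / (n * (q : ℝ) ^ n) with hT
  have hlog : Real.log (√(q : ℝ)) = Real.log q / 2 := Real.log_sqrt hq0.le
  have h1 : r ^ N / 2 * T ≤ (a / 2 + 2 * Real.log (2 / (1 + r)) + (1 - r)) * (g : ℝ) ^ 2 +
      (A + A' * g) := by
    have h2 : (1 - 2 * (j : ℝ) / m) * Real.log (√(q : ℝ)) = a / 2 := by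
      rw [hlog, ha]
      ring
    rw [h2] at hE
    linarith
  have h3 : T ≤ SLN.ff a N r * (g : ℝ) ^ 2 + 2 / r ^ N * (A + A' * g) := by
    have h4 : T = 2 / r ^ N * (r ^ N / 2 * T) := by
      field_simp
    rw [h4]
    calc 2 / r ^ N * (r ^ N / 2 * T) ≤ 2 / r ^ N *
          ((a / 2 + 2 * Real.log (2 / (1 + r)) + (1 - r)) * (g : ℝ) ^ 2 + (A + A' * g)) :=
          mul_le_mul_of_nonneg_left h1 (by positivity)
      _ = _ := by
        unfold SLN.ff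
        ring
  have h5 : 2 / r ^ N * (A + A' * g) ≤ ε / 2 * (g : ℝ) ^ 2 := by
    have h6 : 2 / r ^ N * (A + A') ≤ ε / 2 * g := by
      have := hg₂.trans hgg2
      rw [div_le_iff₀ (by positivity)] at this
      linarith
    have h7 : A + A' * g ≤ (A + A') * g := by nlinarith
    calc 2 / r ^ N * (A + A' * g) ≤ 2 / r ^ N * ((A + A') * g) :=
          mul_le_mul_of_nonneg_left h7 (by positivity)
      _ = 2 / r ^ N * (A + A') * g := by ring
      _ ≤ ε / 2 * g * g := mul_le_mul_of_nonneg_right h6 (by positivity)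
      _ = ε / 2 * (g : ℝ) ^ 2 := by ring
  have h8 : SLN.ff a N r * (g : ℝ) ^ 2 ≤ (a + ε / 2) * (g : ℝ) ^ 2 :=
    mul_le_mul_of_nonneg_right hr.le (by positivity)
  calc T ≤ _ := h3
    _ ≤ (a + ε / 2) * (g : ℝ) ^ 2 + ε / 2 * (g : ℝ) ^ 2 := add_le_add h8 h5
    _ = (a + ε) * (g : ℝ) ^ 2 := by ring

end Pool.Agent.VIS
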