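import Pool.Agent.VIS.St2

/-!
# Virtual curves with large slopes: divisibility of the coefficients of the inverse
-/

set_option autoImplicit false

namespace Pool.Agent.VIS

open Polynomial Finset Pool.Agent.VIR

namespace TOP

/-- division of a product by a factor below `2 ^ t` costs at most `t` factors `q` -/
lemma arith (q : ℕ) (hq : 2 ≤ q) : ∀ t a : ℕ, 1 ≤ a → a < 2 ^ t → ∀ (b : ℕ) (x : ℤ),
    (q : ℤ) ^ (b + t) ∣ (a : ℤ) * x → (q : ℤ) ^ b ∣ x := by
  intro t
  induction t with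
  | zero =>
    intro a h1 h2
    simp at h2
    omega
  | succ t ih =>
    intro a h1 h2 b x hx
    by_cases h : Nat.Coprime q a
    · have hc : IsCoprime ((q : ℤ) ^ (b + (t + 1))) (a : ℤ) := by
        apply IsCoprime.pow_left
        exact_mod_cast (Nat.isCoprime_iff_coprime.2 h)
      have h3 : (q : ℤ) ^ (b + (t + 1)) ∣ x := hc.dvd_of_dvd_mul_left hx
      exact (pow_dvd_pow (q : ℤ) (by omega)).trans h3
    · obtain ⟨p, hp, hpq, hpa⟩ := Nat.Prime.not_coprime_iff_dvd.1 h
      obtain ⟨q', hq'⟩ := hpq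
      obtain ⟨a', ha'⟩ := hpa
      have ha1 : 1 ≤ a' := by
        rcases Nat.eq_zero_or_pos a' with h0 | h0
        · subst h0; simp at ha'; omega
        · exact h0
      have ha2 : a' < 2 ^ t := by
        have h4 : 2 * a' ≤ p * a' := Nat.mul_le_mul_right _ hp.two_le
        have h5 : 2 ^ (t + 1) = 2 * 2 ^ t := by ring
        omega
      have hp0 : (p : ℤ) ≠ 0 := by exact_mod_cast hp.ne_zero
      have h6 : (p : ℤ) * ((q' : ℤ) * (q : ℤ) ^ (b + t)) ∣ (p : ℤ) * ((a' : ℤ) * x) := by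
        have e1 : (p : ℤ) * ((q' : ℤ) * (q : ℤ) ^ (b + t)) = (q : ℤ) ^ (b + (t + 1)) := by
          have : (q : ℤ) = (p : ℤ) * (q' : ℤ) := by exact_mod_cast hq'
          calc (p : ℤ) * ((q' : ℤ) * (q : ℤ) ^ (b + t))
              = ((p : ℤ) * (q' : ℤ)) * (q : ℤ) ^ (b + t) := by ring
            _ = (q : ℤ) * (q : ℤ) ^ (b + t) := by rw [← this]
            _ = (q : ℤ) ^ (b + (t + 1)) := by ring
        have e2 : (p : ℤ) * ((a' : ℤ) * x) = (a : ℤ) * x := by
          have : (a : ℤ) = (p : ℤ) * (a' : ℤ) := by exact_mod_cast ha'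
          rw [this]; ring
        rw [e1, e2]; exact hx
      have h7 : (q' : ℤ) * (q : ℤ) ^ (b + t) ∣ (a' : ℤ) * x := (mul_dvd_mul_iff_left hp0).1 h6
      exact ih a' ha1 ha2 b x ((dvd_mul_left _ _).trans h7)

lemma coeff_tr (K : ℕ) (ℓ : ℕ → ℤ) (a : ℕ) (ha : a ≤ K) : (tr K ℓ).coeff a = ℓ a := by
  unfold tr
  rw [finset_sum_coeff]
  rw [Finset.sum_eq_single a]
  · rw [coeff_C_mul_X_pow]; simp
  · intro c _ hc
    rw [coeff_C_mul_X_pow]
    rw [if_neg (fun h => hc h.symm)]
  · intro h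
    exact absurd (Finset.mem_range.2 (by omega)) h

lemma An_pow (R Q : ℕ) (n : ℕ → ℕ) (h : ∀ r ∈ Icc 1 R, Q ∣ n r) :
    An R n = (∏ r ∈ Icc 1 R, ((1 : ℤ[X]) - X ^ r) ^ (n r / Q)) ^ Q := by
  unfold An
  rw [← Finset.prod_pow]
  apply Finset.prod_congr rfl
  intro r hr
  rw [← pow_mul, Nat.div_mul_cancel (h r hr)]

end TOP

open TOP in
theorem t_TOP : S_TOP := by
  intro q b t R K n ℓ hq hK hn hdiv a ha1 haK
  set Q : ℕ := q ^ (b + t) with hQ
  set A : ℤ[X] := An R n with hA
  set T : ℤ[X] := tr K ℓ with hT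
  obtain ⟨W, hW⟩ := hdiv
  set F : ℤ[X] := ∏ r ∈ Icc 1 R, ((1 : ℤ[X]) - X ^ r) ^ (n r / Q) with hF
  have hAF : A = F ^ Q := An_pow R Q n hn
  have hder : derivative A = C (Q : ℤ) * (F ^ (Q - 1) * derivative F) := by
    rw [hAF, derivative_pow]
    simp only [map_natCast]
    ring
  have hAT : A * T = 1 + X ^ (K + 1) * W := by
    linear_combination hW
  have hd : derivative A * T + A * derivative T =
      X ^ K * ((C ((K : ℤ) + 1)) * W + X * derivative W) := by
    have h1 : derivative (A * T) = derivative ((1 : ℤ[X]) + X ^ (K + 1) * W) := by rw [hAT]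
    rw [derivative_mul] at h1
    rw [h1]
    rw [derivative_add, derivative_one, derivative_mul, derivative_X_pow]
    simp only [map_add, map_natCast, Nat.cast_add, Nat.cast_one, Nat.add_sub_cancel, C_1]
    simp
    ring
  have hkey : derivative T = C (Q : ℤ) * (-(F ^ (Q - 1) * derivative F * T ^ 2)) +
      X ^ K * (((C ((K : ℤ) + 1)) * W + X * derivative W) * T - X * W * derivative T) := by
    have h2 : (derivative A * T + A * derivative T) * T =
        derivative A * T ^ 2 + (A * T) * derivative T := by ring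
    rw [hd, hAT, hder] at h2
    linear_combination -h2
  have hco : (derivative T).coeff (a - 1) = (a : ℤ) * ℓ a := by
    rw [coeff_derivative]
    have e : a - 1 + 1 = a := by omega
    rw [e, hT, coeff_tr K ℓ a haK]
    have e2 : ((a - 1 : ℕ) : ℤ) + 1 = (a : ℤ) := by omega
    rw [e2]; ring
  have hco2 : (X ^ K * (((C ((K : ℤ) + 1)) * W + X * derivative W) * T - X * W * derivative T)).coeff
      (a - 1) = 0 := by
    rw [coeff_X_pow_mul']
    rw [if_neg (by omega)]
  have hfin : (q : ℤ) ^ (b + t) ∣ (a : ℤ) * ℓ a := by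
    rw [← hco, hkey, coeff_add, hco2, coeff_C_mul, add_zero]
    rw [hQ]
    push_cast
    exact dvd_mul_right _ _
  exact arith q hq t a ha1 (by omega) b (ℓ a) hfin

end Pool.Agent.VIS
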