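import Pool.Agent.VIR.Final
import Pool.Agent.VIS.Final2
import Pool.Agent.VIS.P_NWP
import Pool.Agent.VIS.P_SLB
import Pool.Agent.VIS.P_SLN
import Pool.Agent.VIS.P_LOH
import Pool.Agent.VIS.P_GRN
import Pool.Agent.VIS.P_TOP
import Pool.Agent.VIS.P_RNW
import Pool.Agent.VIS.P_DVH
import Pool.Agent.VIS.P_PSL
import Pool.Agent.VIS.P_MAH
import Pool.Agent.VIS.P_FIH

/-!
# Newton slopes: assembly
-/

set_option autoImplicit false

namespace Pool.Agent.VIS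

open Pool.Agent.VIR

theorem f_SLB : S_SLB := t_SLB f_ENE
theorem f_SLN : S_SLN := t_SLN f_ENE
theorem f_LOH : S_LOH := t_LOH f_APG f_H0 t_DIK
theorem f_MAH : S_MAH := t_MAH f_LOH f_APG f_H0 t_INV t_GRN t_TOP t_RNW t_DVH
theorem f_FIH : S_FIH := t_FIH t_DIK f_MAH t_ROO t_HOM f_WEI f_CNT t_PSL

end Pool.Agent.VIS
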