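import Pool.Agent.VIS.St

/-!
# Module GAL: the Galois closure and its permutations   (helper80)
-/

set_option autoImplicit false

namespace Pool.Agent.VIS

open Polynomial Finset Pool.Agent.VIR

namespace GAL

/-- two families with the same multiset of values differ by a permutation -/
theorem exists_perm {T L : Type} [Fintype T] (f g : T → L)
    (h : (univ : Finset T).val.map f = (univ : Finset T).val.map g) :
    ∃ π : Equiv.Perm T, ∀ t, f t = g (π t) := by
  classical
  have hc : ∀ y : L, Fintype.card {t // f t = y} = Fintype.card {t // g t = y} := by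
    intro y
    have h1 := congrArg (Multiset.count y) h
    rw [Multiset.count_map, Multiset.count_map] at h1
    rw [Fintype.card_subtype, Fintype.card_subtype]
    have h2 : ∀ k : T → L, (Multiset.filter (fun a => y = k a) (univ : Finset T).val).card =
        (univ.filter fun t => k t = y).card := by
      intro k
      rw [Finset.card_def, Finset.filter_val]
      congr 1
      exact Multiset.filter_congr fun a _ => eq_comm
    rw [h2, h2] at h1
    exact h1
  let e : ∀ y : L, {t // f t = y} ≃ {t // g t = y} := fun y => Fintype.equivOfCardEq (hc y)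
  let π : T ≃ T := (Equiv.sigmaFiberEquiv f).symm.trans
    ((Equiv.sigmaCongrRight e).trans (Equiv.sigmaFiberEquiv g))
  refine ⟨π, fun t => ?_⟩
  have h1 : π t = ((e (f t)) ⟨t, rfl⟩ : {s // g s = f t}).1 := rfl
  rw [h1]
  exact ((e (f t)) ⟨t, rfl⟩).2.symm

end GAL

open GAL in
theorem t_GAL : S_GAL := by
  classical
  intro T _ a F hF
  set F' : ℚ[X] := F.map (Int.castRingHom ℚ) with hF'
  have hmap : F'.map (algebraMap ℚ ℂ) = ∏ t, (X - C (a t)) := by
    rw [hF', Polynomial.map_map, ← hF]
    congr 1
  have hsplit : (F'.map (algebraMap ℚ ℂ)).Splits := by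
    rw [hmap]
    exact Splits.prod fun t _ => Splits.X_sub_C (a t)
  have hne : F'.map (algebraMap ℚ ℂ) ≠ 0 := by
    rw [hmap]
    exact prod_ne_zero_iff.2 fun t _ => X_sub_C_ne_zero (a t)
  have hne' : F' ≠ 0 := fun h => hne (by rw [h, Polynomial.map_zero])
  let L : IntermediateField ℚ ℂ := IntermediateField.adjoin ℚ (F'.rootSet ℂ)
  have hL : IsSplittingField ℚ L F' := IntermediateField.adjoin_rootSet_isSplittingField hsplit
  have hfin : FiniteDimensional ℚ L := IsSplittingField.finiteDimensional L F'
  have hnorm : Normal ℚ L := Normal.of_isSplittingField F'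
  have hgal : IsGalois ℚ L := { }
  have hroot : ∀ t, a t ∈ F'.rootSet ℂ := by
    intro t
    rw [mem_rootSet_of_ne hne', aeval_def, ← eval_map, hmap, eval_prod]
    exact prod_eq_zero (mem_univ t) (by simp)
  let b : T → L := fun t => ⟨a t, IntermediateField.subset_adjoin ℚ _ (hroot t)⟩
  have hb : ∀ t, L.val (b t) = a t := fun t => rfl
  have hmapL : F'.map (algebraMap ℚ L) = ∏ t, (X - C (b t)) := by
    apply Polynomial.map_injective (L.val : L →+* ℂ) L.val.injective
    rw [Polynomial.map_map, Polynomial.map_prod]
    have h1 : ((L.val : L →+* ℂ)).comp (algebraMap ℚ L) = algebraMap ℚ ℂ := by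
      ext; simp
    rw [h1, hmap]
    refine prod_congr rfl fun t _ => ?_
    rw [Polynomial.map_sub, map_X, map_C]
    rfl
  refine ⟨L, inferInstance, inferInstance, L.val, b, hfin, hgal, hb, fun σ => ?_⟩
  have hσ : ∏ t, (X - C (σ (b t))) = ∏ t, (X - C (b t)) := by
    rw [← hmapL]
    have h1 : (F'.map (algebraMap ℚ L)).map (σ : L →+* L) = F'.map (algebraMap ℚ L) := by
      rw [Polynomial.map_map]
      congr 1
      ext x
      simp
    conv_rhs => rw [← h1, hmapL]
    rw [Polynomial.map_prod]
    refine prod_congr rfl fun t _ => ?_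
    rw [Polynomial.map_sub, map_X, map_C]
    rfl
  apply exists_perm
  have h2 : ∀ f : T → L, (∏ t, (X - C (f t))).roots = (univ : Finset T).val.map f := by
    intro f
    have h3 : ∏ t, (X - C (f t)) =
        (((univ : Finset T).val.map f).map fun c => X - C c).prod := by
      rw [Multiset.map_map]
      rfl
    rw [h3, roots_multiset_prod_X_sub_C]
  rw [← h2 fun t => σ (b t), hσ, h2]

end Pool.Agent.VIS
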