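import Pool.Agent.VIS.Defs

/-!
# Slopes of virtual curves: the statements of the modules, with proofs in the comments

`s = √q`, `x = s⁻¹`, `α_i = al q (θ i)`, `β_i = α_i + q / α_i = 2 s cos (θ i)`.
-/

set_option autoImplicit false

namespace Pool.Agent.VIS

open Polynomial Finset Pool.Agent.VIR

/-- GAL: the Galois closure and its permutations. Proof: `F' = F.map (Int.castRingHom ℚ)`, `L = F'.SplittingField`, `ι` any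
`ℚ`-algebra map `L → ℂ` (`IsAlgClosed.lift`). The roots of `F'.map (algebraMap ℚ ℂ)` (the multiset of the `a t`) are the images of the
roots of `F'` in `L`; this gives `b t`. `σ` maps the multiset of the roots of `F'` in `L` (the `b t`) to itself, so it is given by a
permutation of `T`. -/
def S_GAL : Prop := ∀ (T : Type) [Fintype T] (a : T → ℂ) (F : ℤ[X]),
  F.map (Int.castRingHom ℂ) = ∏ t, (X - C (a t)) →
  ∃ (L : Type) (_ : Field L) (_ : Algebra ℚ L) (ι : L →ₐ[ℚ] ℂ) (b : T → L),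
    FiniteDimensional ℚ L ∧ IsGalois ℚ L ∧ (∀ t, ι (b t) = a t) ∧
    ∀ σ : L ≃ₐ[ℚ] L, ∃ π : Equiv.Perm T, ∀ t, σ (b t) = b (π t)

/-- INT: the product of the differences. Proof: `T = Fin g × Bool`, `a (i, false) = al q (θ i)`, `a (i, true) = al q (-θ i) = q / al q (θ i)`;
`P` over `ℂ` is `∏_t (X - a t)`. `GAL`: `L, ι, b`. Let `Q t` say that `(b t)^m / q^j` is integral over `ℤ` (the same in `L` and in `ℂ`; it holds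
for `(i, false)` iff it holds for `(i, true)`, by complex conjugation, iff `i ∈ S`), `v t = b t + q / b t` (`ι (v t) = β_i`), and
`E = ∏_{t, t'} (if Q t ∧ Q t' ∧ v t ≠ v t' then (v t - v t')^(2 m) / q^(2 j) else 1)` in `L`. Each `σ` fixes `E` (reindex by `π`; `σ` preserves
`Q`), so `E` is rational (`IsGalois.mem_bot_iff_fixed`). `E` is integral: let `w > 0` with `w^m = q^j`; `a t / w` is integral when `Q t` holds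
(its `m`-th power is), so `ι (v t) / w` is, and `(v t - v t')^(2m) / q^(2j) = ((v t - v t') / w)^(2m)`. So `E` is an integer, `≠ 0` and `> 0` in
`ℝ`, hence `≥ 1`; and `ι E` is the fourth power of `∏_{p ∈ Ne2 θ S} (β - β')^(2m) / q^(2j)`. -/
def S_INT : Prop := ∀ (q g m j : ℕ) (θ : Fin g → ℝ) (P : ℤ[X]) (S : Finset (Fin g)), 1 ≤ q → 1 ≤ m →
  FP q g θ P → (∀ i, i ∈ S ↔ SL q m j (θ i)) →
  (q : ℝ) ^ (2 * j * (Ne2 θ S).card) ≤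
    ∏ p ∈ Ne2 θ S, (2 * √(q : ℝ) * Real.cos (θ p.1) - 2 * √(q : ℝ) * Real.cos (θ p.2)) ^ (2 * m)

/-- FEJ: the explicit formula, part of the eigenvalues kept. Proof: that of `VIR.t_UPP` (file VIR/P_UPP.lean), with
`∑_i Fj M (θ i) ≥ ∑_{i ∈ S} Fj M (θ i)` in place of `∑_i Fj M (θ i) ≥ 0`. -/
def S_FEJ : Prop := ∀ (q g R M : ℕ) (θ : Fin g → ℝ) (B : ℕ → ℕ) (S : Finset (Fin g)), 2 ≤ q → 1 ≤ M →
  Count q g θ B →
  ∑ r ∈ Icc 1 R, (r : ℝ) * B r * ∑ k ∈ Icc 1 (M / r), (1 - (k : ℝ) * r / (M + 1)) / √(q : ℝ) ^ (k * r) ≤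
    g + ∑ m ∈ Icc 1 M, (√(q : ℝ) ^ m + (√(q : ℝ))⁻¹ ^ m) - ∑ i ∈ S, Fj M (θ i)

/-- MUL: coinciding eigenvalues are rare. Proof: let `N_k = q^k + 1 - ∑_i 2 s^k cos (k θ_i) ≥ 0` (`Count`), `C = ∑_{k ≤ M} (s^k + x^k)`,
`w_k = 1 - k / (M + 1)`. From `∑_i Fj M (θ i) ≥ 0`: `∑_{k ≤ M} w_k N_k / s^k ≤ g + C`. For any `φ`:
`∑_i (Fj M (θ_i - φ) + Fj M (θ_i + φ)) = 2 g + 4 ∑_k w_k cos (k φ) ∑_i cos (k θ_i)` and `∑_i cos (k θ_i) = (q^k + 1 - N_k) / (2 s^k)`, so this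
is at most `2 g + 2 C + 2 (g + C) = 4 g + 4 C`. `Fj ≥ 0`, `Fj M (2 π l) = M + 1`, so the number of `i` with `cos θ_i = cos φ` is at most
`(4 g + 4 C) / (M + 1)`; `φ = θ_k`, sum over `k`; `M ≥ 8 / η`, `g ≥ C`. -/
def S_MUL : Prop := ∀ (q : ℕ) (η : ℝ), 2 ≤ q → 0 < η → ∃ g₀ : ℕ, ∀ g : ℕ, g₀ ≤ g →
  ∀ (θ : Fin g → ℝ) (B : ℕ → ℕ), Count q g θ B → ((Eq2 θ univ).card : ℝ) ≤ η * (g : ℝ) ^ 2

/-- KER: the logarithmic kernel. Proof: `kt r a b n = r^n / n (cos n(a-b) + cos n(a+b))`, so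
`∑' n, kt r a b n = - log |1 - r e^(i(a-b))| - log |1 - r e^(i(a+b))|` (`Complex.hasSum_taylorSeries_neg_log`, real parts). `|1 - r e^(iψ)| ≥ 1 - r`, and
`|1 - e^(iψ)| ≤ (2 / (1 + r)) |1 - r e^(iψ)|`: squares, `(1-r)² + 4 r sin²(ψ/2) ≥ (1+r)² sin²(ψ/2)`. And
`|2 cos a - 2 cos b| = |1 - e^(i(a-b))| |1 - e^(i(a+b))|`. -/
def S_KER : Prop := ∀ r a b : ℝ, 0 < r → r < 1 → Summable (kt r a b) ∧
  2 * Real.log (1 - r) ≤ - ∑' n, kt r a b n ∧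
  (Real.cos a ≠ Real.cos b →
    Real.log |2 * Real.cos a - 2 * Real.cos b| ≤ - ∑' n, kt r a b n + 2 * Real.log (2 / (1 + r)))

/-- ENE: the energy inequality. Proof: logarithm of `INT`: `∑_{p ∈ Ne2} log |2 cos - 2 cos'| ≥ - #Ne2 (1 - 2 j / m) log s` (`log q = 2 log s`).
`KER`: it is at most `- ∑_{p ∈ S × S} ∑' n, kt + ∑_{p ∈ Eq2} ∑' n, kt + 2 #Ne2 log (2 / (1 + r))`, with `∑' n, kt ≤ - 2 log (1 - r)` and
`∑_{p ∈ S × S} ∑' n, kt = ∑' n, 2 r^n / n (∑_{i ∈ S} cos (n θ_i))² ≥ ∑_{n ≤ N}`; `#Ne2 ≤ g²`, `#Eq2 θ S ≤ #Eq2 θ univ ≤ η' g²` by `MUL` with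
`η' = η / (- 2 log (1 - r))`. -/
def S_ENE : Prop := ∀ (q m j : ℕ) (r η : ℝ), 2 ≤ q → 1 ≤ m → 2 * j ≤ m → 0 < r → r < 1 → 0 < η →
  ∃ g₀ : ℕ, ∀ g : ℕ, g₀ ≤ g → ∀ (θ : Fin g → ℝ) (P : ℤ[X]) (B : ℕ → ℕ) (S : Finset (Fin g)),
    FP q g θ P → Count q g θ B → (∀ i, i ∈ S ↔ SL q m j (θ i)) → ∀ N : ℕ,
    ∑ n ∈ Icc 1 N, 2 * r ^ n / n * (∑ i ∈ S, Real.cos (n * θ i)) ^ 2 ≤
      ((1 - 2 * j / m) * Real.log (√(q : ℝ)) + 2 * Real.log (2 / (1 + r)) + η) * (g : ℝ) ^ 2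

/-- SLS. Proof: `cos (n t) = 1` gives `e^(i n t) = 1`, so `α² / q = e^(2it)` is a root of unity. -/
def S_SLS : Prop := ∀ (q : ℕ) (t : ℝ), 1 ≤ q → SS t → SL q 2 1 t

/-- SSB: the supersingular part does not count. Proof: `M` such that `∑_{k ≤ M/r} (1 - k r / (M+1)) / s^(k r) ≥ (1 + ε/4)⁻¹ / (s^r - 1)` for `1 ≤ r ≤ R`
(as in VIR/P_UPL.lean). For `n ≤ M` `ENE` with `m = 2`, `j = 1` gives `(∑_{i ∈ S} cos (n θ_i))² ≤ (n / (2 r^n)) (2 log (2/(1+r)) + η) g²`; choose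
`r` near `1`, then `η`, such that this is at most `(ε' g)²` for all `n ≤ M`; so `∑_{i ∈ S} Fj M (θ i) ≥ #S - 2 M ε' g`. `FEJ`. -/
def S_SSB : Prop := ∀ (q R : ℕ) (ε : ℝ), 2 ≤ q → 0 < ε → ∃ g₀ : ℕ, ∀ g : ℕ, g₀ ≤ g →
  ∀ (θ : Fin g → ℝ) (P : ℤ[X]) (B : ℕ → ℕ) (S : Finset (Fin g)),
    FP q g θ P → Count q g θ B → (∀ i, i ∈ S ↔ SL q 2 1 (θ i)) →
    ∑ r ∈ Icc 1 R, (r : ℝ) * B r / (√(q : ℝ) ^ r - 1) ≤ g - S.card + ε * g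

/-- NWP: the Newton polygon. Proof: let `w > 0`, `w^m = q^j`. `α / w` is a root of `∑_k (P.coeff (2g - k) / w^k) X^(2g - k)`, monic, and its
coefficients are algebraic integers, as their `m`-th powers are `(P.coeff (2g - k))^m / q^(j k)`, integers. So `α / w` is an algebraic
integer, and so is its `m`-th power. -/
def S_NWP : Prop := ∀ (q g m j : ℕ) (θ : Fin g → ℝ) (P : ℤ[X]), 1 ≤ q → 1 ≤ m → FP q g θ P →
  (∀ k ≤ 2 * g, ((q : ℤ) ^ (j * k)) ∣ P.coeff (2 * g - k) ^ m) → ∀ i, SL q m j (θ i)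

/-- SLB: large slopes, few points. Proof: `S = univ` in `ENE`; `∑_i cos (n θ_i) = (q^n + 1 - N_n) / (2 s^n)`, `N_n ≥ B_1` (`1 ∣ n`), so if
`B_1 ≥ q^n + 1` its square is at least `(B_1 - q^n - 1)² / (4 q^n)`. So for fixed `N`, `r`: `∑_{n ≤ N} (r^n / (2 n q^n)) (B_1 - q^n - 1)_+² ≤ (… ) g²`;
`(B_1 - q^n - 1)_+² ≥ B_1² - 2 (q^n + 1) B_1` and `B_1 ≤ 2 s g + q + 1`. `∑_{n ≤ N} r^n / (2 n q^n)` is as near as one likes to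
`- log (1 - 1/q) / 2`; divide; `log s = log q / 2`. -/
def S_SLB : Prop := ∀ (q m j : ℕ) (ε : ℝ), 2 ≤ q → 1 ≤ m → 2 * j ≤ m → 0 < ε → ∃ g₀ : ℕ, ∀ g : ℕ, g₀ ≤ g →
  ∀ (θ : Fin g → ℝ) (P : ℤ[X]) (B : ℕ → ℕ), FP q g θ P → Count q g θ B → (∀ i, SL q m j (θ i)) →
    (B 1 : ℝ) ^ 2 ≤ ((1 - 2 * j / m) * Real.log q / (- Real.log (1 - 1 / q)) + ε) * (g : ℝ) ^ 2

end Pool.Agent.VIS
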