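import Pool.Agent.VIS.St
import Pool.Agent.VIR.St2

/-!
# Virtual curves with large slopes: statements

`s = √q`, `x = s⁻¹`, `cl m j k` is the least integer `≥ j k / m` (`1 ≤ m`).
-/

set_option autoImplicit false

namespace Pool.Agent.VIS

open Polynomial Finset Pool.Agent.VIR

/-- the least integer `≥ j k / m` -/
def cl (m j k : ℕ) : ℕ := (j * k + m - 1) / m

/-- LOH: small monic polynomials with an explicit constant. Proof: that of `VIR.t_LOG` (file VIR/P_LOG.lean): the only property of the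
constant `c` used there is `∑ β_r log (1 + x^r) + c ≤ log s` and `0 < c`. -/
def S_LOH : Prop := ∀ (q R : ℕ) (β : ℕ → ℝ) (c : ℝ), 2 ≤ q → (∀ r, 0 ≤ β r) → Th q R β < 1 → 0 < c →
  ∑ r ∈ Icc 1 R, β r * Real.log (1 + (√(q : ℝ))⁻¹ ^ r) + c ≤ Real.log (√(q : ℝ)) →
  ∃ D : ℝ, 0 < D ∧ ∀ (g : ℕ) (n : ℕ → ℕ), (∀ r ∈ Icc 1 R, (n r : ℝ) ≤ β r * g) →
    ∀ j : ℕ, j < g → ∃ p : ℝ[X], p.Monic ∧ p.natDegree = j ∧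
    ∀ θ : ℝ, |p.eval (2 * √(q : ℝ) * Real.cos θ)| * ‖AC R n (pt q θ)‖ ≤
      D * √(q : ℝ) ^ g * Real.exp (-c * ((g : ℝ) - j))

/-- GRN: growth. Proof: `K = ⌈log (20 g) / log s⌉₊`, `t = Nat.log 2 K + 1`: `s^K ≤ 20 g s`, `2^t ≤ 2 K`,
`q^(cl m j K) ≤ q q^(j K / m) = q (s^K)^(2 j / m) ≤ q (20 g s)^(2 j / m)`, `q^t ≤ (2 K)^(log₂ q)`, and `2 j / m < 1`, `K = O(log g)`; `K → ∞`. -/
def S_GRN : Prop := ∀ (q m j g₁ : ℕ) (δ D y : ℝ), 2 ≤ q → 1 ≤ m → 2 * j < m → 0 < δ → 0 < y → y < 1 →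
  ∃ g₂ : ℕ, 1 ≤ g₂ ∧ ∀ g : ℕ, g₂ ≤ g → ∃ K t : ℕ, g₁ ≤ g ∧ 1 ≤ K ∧ K < g ∧
    20 * (g : ℝ) ≤ √(q : ℝ) ^ K ∧ (K : ℝ) ≤ 2 / Real.log (√(q : ℝ)) * Real.log g + 1 ∧
    D * y ^ K ≤ 1 ∧ K < 2 ^ t ∧ (q : ℝ) ^ (cl m j K + t) ≤ δ * g

/-- TOP: divisibility of the coefficients of the inverse. Proof: `A = An R n`; `A' = A * (...)` has all its coefficients divisible by `q^(b+t)`
(`A = F^(q^(b+t))`, `A' = q^(b+t) F^(...) F'`). `tr * A = 1 + X^(K+1) W`; derive and multiply by `tr`: `tr' = - tr² A'` modulo `X^K`. So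
`q^(b+t) ∣ a * ℓ a` for `1 ≤ a ≤ K`. Write `a = a₁ a₂`, `a₁ ∣ q^t`, `a₂` coprime to `q` (for each prime `p ∣ q` the exponent of `p` in
`a < 2^t` is less than `t`); so `q^(b+t) ∣ a₁ ℓ a`, and `q^b ∣ ℓ a`. -/
def S_TOP : Prop := ∀ (q b t R K : ℕ) (n : ℕ → ℕ) (ℓ : ℕ → ℤ), 2 ≤ q → K < 2 ^ t →
  (∀ r ∈ Icc 1 R, q ^ (b + t) ∣ n r) → (X : ℤ[X]) ^ (K + 1) ∣ An R n * tr K ℓ - 1 →
  ∀ a : ℕ, 1 ≤ a → a ≤ K → (q : ℤ) ^ b ∣ ℓ a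

/-- RNW: triangular rounding with weights. Proof: that of `VIR.t_RND` (file VIR/P_RND.lean): `c` the coefficient of `X^(n-1)` of `f`,
`δ (n-1) = c / Q - round (c / Q)`, `f' = f - δ Q p_(n-1) - (Q round (c / Q)) X^(n-1)`, `Q = Q (n - 1)`. -/
def S_RNW : Prop := ∀ (n : ℕ) (Q : ℕ → ℕ) (p : ℕ → ℝ[X]) (f : ℝ[X]), (∀ j, 1 ≤ Q j) →
  (∀ j < n, (p j).Monic ∧ (p j).natDegree = j) → f.degree < (n : WithBot ℕ) →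
  ∃ (δ : ℕ → ℝ) (z : ℤ[X]), (∀ j, |δ j| ≤ 1 / 2) ∧ z.degree < (n : WithBot ℕ) ∧ (∀ j, (Q j : ℤ) ∣ z.coeff j) ∧
    f - ∑ j ∈ range n, C (δ j * Q j) * p j = z.map (Int.castRingHom ℝ)

/-- DVH: divisibility of the coefficients of `HH`. Proof: `q^((k - i + 1) / 2) ∣ (Dk q k).coeff i` for `i ≤ k` (induction on `k`, two steps), and
`cl m j (a + e) ≤ cl m j a + (e + 1) / 2` as `2 j ≤ m`; `g - i = a + (g - a - i)` for the term `a` (if `i ≤ g - a`; the coefficient is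
`0` otherwise); `cl m j 0 = 0`. -/
def S_DVH : Prop := ∀ (q g K m j : ℕ) (ℓ : ℕ → ℤ) (low : ℤ[X]), 1 ≤ m → 2 * j ≤ m → K < g →
  low.degree < ((g - K : ℕ) : WithBot ℕ) → (∀ a : ℕ, 1 ≤ a → a ≤ K → (q : ℤ) ^ cl m j a ∣ ℓ a) →
  (∀ i < g - K, (q : ℤ) ^ cl m j (g - i) ∣ low.coeff i) →
  ∀ i ≤ g, (q : ℤ) ^ cl m j (g - i) ∣ (HH q g K ℓ low).coeff i

/-- PSL: the slopes of `PP q g h`. Proof: the coefficient of `X^(2g - k)` in `X^(g-i) (X² + q)^i h_i` is `0` or, with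
`k = (g - i) + 2 (i - u)`, it is `choose i u * q^(i - u) * h_i`, divisible by `q^(cl (g-i) + (i-u))`, and `cl k ≤ cl (g-i) + (i-u)`. So
`q^(cl k)` divides the coefficient; `m * cl m j k ≥ j k`. -/
def S_PSL : Prop := ∀ (q g m j : ℕ) (h : ℤ[X]), 1 ≤ m → 2 * j ≤ m →
  (∀ i ≤ g, (q : ℤ) ^ cl m j (g - i) ∣ h.coeff i) →
  ∀ k ≤ 2 * g, ((q : ℤ) ^ (j * k)) ∣ (PP q g h).coeff (2 * g - k) ^ m

/-- MAH: the main construction with large slopes. -/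
def S_MAH : Prop := ∀ (q m j : ℕ) (c : ℝ), 2 ≤ q → 1 ≤ m → 2 * j < m → 0 ≤ c → c < √(q : ℝ) - 1 →
  c * Real.log (1 + (√(q : ℝ))⁻¹) < (1 - 2 * j / m) * Real.log (√(q : ℝ)) →
  ∃ g₁ : ℕ, 1 ≤ g₁ ∧ ∀ g : ℕ, g₁ ≤ g → ∃ (K : ℕ) (n : ℕ → ℕ) (ℓ : ℕ → ℤ) (low : ℤ[X]),
    1 ≤ K ∧ K < g ∧ c * g ≤ n 1 ∧ 20 * (g : ℝ) ≤ √(q : ℝ) ^ K ∧
    low.degree < ((g - K : ℕ) : WithBot ℕ) ∧ (X : ℤ[X]) ^ (K + 1) ∣ An 1 n * tr K ℓ - 1 ∧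
    (∀ i ≤ g, (q : ℤ) ^ cl m j (g - i) ∣ (HH q g K ℓ low).coeff i) ∧
    ∀ θ : ℝ, |aeval (2 * √(q : ℝ) * Real.cos θ) (HH q g K ℓ low) -
        2 * √(q : ℝ) ^ g * (Complex.exp (g * θ * Complex.I) / AC 1 n (pt q θ)).re| ≤
      √(q : ℝ) ^ g / ‖AC 1 n (pt q θ)‖

/-- FIH: existence with large slopes. Proof: that of `VIR.t_FIN` (file VIR/P_FIN.lean) with `MAH` and `R = 1`, and `PSL`. -/
def S_FIH : Prop := ∀ (q m j : ℕ) (c : ℝ), 2 ≤ q → 1 ≤ m → 2 * j < m → 0 ≤ c → c < √(q : ℝ) - 1 →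
  c * Real.log (1 + (√(q : ℝ))⁻¹) < (1 - 2 * j / m) * Real.log (√(q : ℝ)) →
  ∃ g₀ : ℕ, ∀ g : ℕ, g₀ ≤ g → ∃ (θ : Fin g → ℝ) (P : ℤ[X]) (B : ℕ → ℕ),
    FP q g θ P ∧ Count q g θ B ∧ (∀ k ≤ 2 * g, ((q : ℤ) ^ (j * k)) ∣ P.coeff (2 * g - k) ^ m) ∧
    c * g ≤ B 1

end Pool.Agent.VIS
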