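import Pool.Agent.VIS.St

/-!
# The part of large slopes: statements

`s = √q`, `x = s⁻¹`. `wt ρ L k = ∑_{M = k}^L (M + 1 - k) ρ^M (1 - ρ)^2` tends to `ρ^k` for `L → ∞`; it is the mixture of the weights
`(1 - k / (M + 1))_+` of Fejér with the coefficients `(M + 1) ρ^M (1 - ρ)^2`, `M ≤ L`.
-/

set_option autoImplicit false

namespace Pool.Agent.VIS

open Polynomial Finset Pool.Agent.VIR

/-- the mixed weights -/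
noncomputable def wt (ρ : ℝ) (L k : ℕ) : ℝ := ∑ M ∈ Finset.Icc k L, ((M : ℝ) + 1 - k) * ρ ^ M * (1 - ρ) ^ 2

/-- ENS: `ENE` with the size of `S`. Proof: that of `ENE`, with `#Ne2 ≤ (#S)²` in place of `#Ne2 ≤ g²`. -/
def S_ENS : Prop := ∀ (q m j : ℕ) (r η : ℝ), 2 ≤ q → 1 ≤ m → 2 * j ≤ m → 0 < r → r < 1 → 0 < η →
  ∃ g₀ : ℕ, ∀ g : ℕ, g₀ ≤ g → ∀ (θ : Fin g → ℝ) (P : ℤ[X]) (B : ℕ → ℕ) (S : Finset (Fin g)),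
    FP q g θ P → Count q g θ B → (∀ i, i ∈ S ↔ SL q m j (θ i)) → ∀ N : ℕ,
    ∑ n ∈ Icc 1 N, 2 * r ^ n / n * (∑ i ∈ S, Real.cos (n * θ i)) ^ 2 ≤
      ((1 - 2 * j / m) * Real.log (√(q : ℝ)) + 2 * Real.log (2 / (1 + r))) * (S.card : ℝ) ^ 2 +
        η * (g : ℝ) ^ 2

/-- WTL: the weights. Proof: `∑_{M ≥ k} (M + 1 - k) ρ^M (1 - ρ)² = ρ^k` (the terms are nonnegative). -/
def S_WTL : Prop := ∀ ρ : ℝ, 0 < ρ → ρ < 1 → ∀ k : ℕ, (∀ L : ℕ, 0 ≤ wt ρ L k ∧ wt ρ L k ≤ ρ ^ k) ∧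
  Filter.Tendsto (fun L : ℕ => wt ρ L k) Filter.atTop (nhds (ρ ^ k))

/-- MXF: the explicit formula with the mixed weights. Proof: `FEJ` for `M = 1, …, L` (for `M = 0`: `0 ≤ g - #S`), multiplied by
`c_M = (M + 1) ρ^M (1 - ρ)²` and added. On the left, with `(1 - k r / (M + 1)) c_M = (M + 1 - k r) ρ^M (1 - ρ)²` and exchange of the sums:
the coefficient of `r B_r / s^(k r)` is `wt ρ L (k r)` if `k r ≤ L`. On the right: `∑ c_M ≤ 1`,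
`∑_{m ≤ M} (s^m + x^m) ≤ ∑_{m ≤ L} (s^m + x^m)`, and `∑_M c_M ∑_{i ∈ S} Fj M (θ i) = #S wt ρ L 0 + 2 ∑_{k = 1}^L wt ρ L k ∑_{i ∈ S} cos (k θ_i)`,
with `0 ≤ wt ρ L k ≤ ρ^k` (`WTL`). -/
def S_MXF : Prop := ∀ (q g R L : ℕ) (ρ : ℝ) (θ : Fin g → ℝ) (B : ℕ → ℕ) (S : Finset (Fin g)), 2 ≤ q →
  0 < ρ → ρ < 1 → Count q g θ B →
  ∑ r ∈ Icc 1 R, (r : ℝ) * B r * ∑ k ∈ Icc 1 (L / r), wt ρ L (k * r) / √(q : ℝ) ^ (k * r) ≤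
    g + ∑ m ∈ Icc 1 L, (√(q : ℝ) ^ m + (√(q : ℝ))⁻¹ ^ m) - S.card * wt ρ L 0 +
      2 * ∑ k ∈ Icc 1 L, ρ ^ k * |∑ i ∈ S, Real.cos (k * θ i)|

/-- CSW: Cauchy and Schwarz. Proof: `∑ ρ^k |c_k| ≤ (∑ (2 r^k / k) c_k²)^(1/2) (∑ k (ρ²/r)^k / 2)^(1/2)` and, with `u = ρ² / r < 1`,
`∑_{k ≥ 1} k u^k = u / (1 - u)²`. So `2 ∑ ρ^k |c_k| ≤ (2 E)^(1/2) u^(1/2) / (1 - u)`. -/
def S_CSW : Prop := ∀ (ρ r E : ℝ) (L : ℕ) (c : ℕ → ℝ), 0 < ρ → 0 < r → ρ ^ 2 < r →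
  ∑ k ∈ Icc 1 L, 2 * r ^ k / k * c k ^ 2 ≤ E →
  2 * ∑ k ∈ Icc 1 L, ρ ^ k * |c k| ≤ √(2 * E) * (√(ρ ^ 2 / r) / (1 - ρ ^ 2 / r))

/-- LSL: the part of large slopes. Proof: `τ = (1 - 2 j / m) log q ≥ 0`. Choose `L` with `wt ρ L 0 ≥ 1 - ε'` and
`∑_{k ≤ L/r} wt ρ L (k r) / s^(k r) ≥ (1 - ε') ρ^r / (s^r - ρ^r)` for `1 ≤ r ≤ R` (`WTL`; the series with `ρ^(k r)` has the sum
`ρ^r / (s^r - ρ^r)`). Then `r₁ < 1` near `1` and `η` small such that `√(2 E) (√u / (1 - u)) ≤ (ρ √τ / (1 - ρ²)) #S + ε' g` for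
`E = ((1 - 2 j / m) log s + 2 log (2 / (1 + r₁))) (#S)² + η g²`, `u = ρ² / r₁` (`#S ≤ g`, `√(a + b) ≤ √a + √b`, `2 log s = log q`). `ENS`, `CSW`,
`MXF`; `g` large such that the constant is at most `ε' g`; finally divide by `1 - ε'` (the left side is at most
`3 g`, say). -/
def S_LSL : Prop := ∀ (q m j R : ℕ) (ρ ε : ℝ), 2 ≤ q → 1 ≤ m → 2 * j ≤ m → 0 < ρ → ρ < 1 → 0 < ε →
  ∃ g₀ : ℕ, ∀ g : ℕ, g₀ ≤ g → ∀ (θ : Fin g → ℝ) (P : ℤ[X]) (B : ℕ → ℕ) (S : Finset (Fin g)),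
    FP q g θ P → Count q g θ B → (∀ i, i ∈ S ↔ SL q m j (θ i)) →
    ∑ r ∈ Icc 1 R, (r : ℝ) * B r * ρ ^ r / (√(q : ℝ) ^ r - ρ ^ r) ≤
      g - S.card * (1 - ρ * √((1 - 2 * j / m) * Real.log q) / (1 - ρ ^ 2)) + ε * g

end Pool.Agent.VIS
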