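import Pool.Agent.VIS.St

/-!
# Large slopes: all the numbers of points
-/

set_option autoImplicit false

namespace Pool.Agent.VIS

open Polynomial Finset Pool.Agent.VIR

/-- SLN: large slopes and the numbers `N_n = ∑_{d ∣ n} d B_d` of points. Proof: `S = univ` in `ENE`, `∑_i cos (n θ_i) = (q^n + 1 - N_n) / (2 s^n)`, so
`∑_{n ≤ N} (r^n / (2 n q^n)) (N_n - q^n - 1)² ≤ ((1 - 2 j / m) log s + 2 log (2 / (1 + r)) + η) g²`. `(N_n - c)² ≥ N_n² - 2 c N_n`,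
`0 ≤ N_n ≤ q^n + 1 + 2 g s^n`, so the linear terms are `O(g)` for fixed `N`; `r^n ≥ r^N`, `r` near `1`, `2 log s = log q`; the sum
`∑_{n ≤ N} N_n² / (n q^n)` is at most a constant times `g²`, which takes care of the factor `r^(-N)`. -/
def S_SLN : Prop := ∀ (q m j N : ℕ) (ε : ℝ), 2 ≤ q → 1 ≤ m → 2 * j ≤ m → 0 < ε → ∃ g₀ : ℕ, ∀ g : ℕ, g₀ ≤ g →
  ∀ (θ : Fin g → ℝ) (P : ℤ[X]) (B : ℕ → ℕ), FP q g θ P → Count q g θ B → (∀ i, SL q m j (θ i)) →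
    ∑ n ∈ Icc 1 N, ((∑ d ∈ n.divisors, d * B d : ℕ) : ℝ) ^ 2 / (n * (q : ℝ) ^ n) ≤
      ((1 - 2 * j / m) * Real.log q + ε) * (g : ℝ) ^ 2

end Pool.Agent.VIS
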